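import Mathlib

/-! MP_0da4e0_ag, exact criterion, module Abel: summation by parts over the level sets of x.

PROOF. Induction on the number of values of x, or: choose M with x i ≥ -M for all i and x i ≤ M; then
x i = -M + ∫ s in (-M)..M, (if s ≤ x i then 1 else 0), and ∑ x i v i = -M ∑ v i + ∫ s in (-M)..M,
∑_{i, s ≤ x i} v i ≥ 0. Discrete version: let L be the finite set of values of x, sorted
l_1 < ... < l_r; x i = l_1 + ∑_{k ≥ 2} (l_k - l_(k-1)) [l_k ≤ x i], so
∑ x i v i = l_1 * 0 + ∑_{k ≥ 2} (l_k - l_(k-1)) ∑_{i, l_k ≤ x i} v i ≥ 0. Another way: strong induction on the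
card of the image: replace x by the function equal to x except that the largest value is lowered to the
second largest value l' (largest value l); ∑ (x i - x' i) v i = (l - l') ∑_{l ≤ x i} v i ≥ 0, and the level
sets of x' are level sets of x. -/

namespace Pool.Agent.Work.MP_0da4e0_ag.Ex

variable {ι : Type} [Fintype ι] [DecidableEq ι]

omit [DecidableEq ι] in
theorem abel_sum (x v : ι → ℝ) (h0 : ∑ i, v i = 0)
    (h : ∀ s : ℝ, 0 ≤ ∑ i ∈ Finset.univ.filter (fun i => s ≤ x i), v i) : 0 ≤ ∑ i, x i * v i := by
  obtain ⟨n, hn⟩ : ∃ n, (Finset.univ.image x).card = n := ⟨_, rfl⟩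
  induction n using Nat.strong_induction_on generalizing x with
  | _ n ih =>
    rcases isEmpty_or_nonempty ι with hι | hι
    · simp
    obtain ⟨i0, hi0⟩ := Finite.exists_max x
    by_cases hc : ∃ i, x i < x i0
    · obtain ⟨i1, hi1, hm⟩ := Finset.exists_max_image
        (Finset.univ.filter (fun i => x i < x i0)) x ⟨_, by simpa using hc.choose_spec⟩
      have hi1' : x i1 < x i0 := by simpa using hi1
      have hm' : ∀ i, x i < x i0 → x i ≤ x i1 := fun i hi => hm i (by simpa using hi)
      have hmin : ∀ i, x i < x i0 → min (x i) (x i1) = x i := fun i hi => min_eq_left (hm' i hi)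
      have hmin' : ∀ i, ¬ x i < x i0 → min (x i) (x i1) = x i1 := fun i hi =>
        min_eq_right (hi1'.le.trans (not_lt.1 hi))
      have hcard : (Finset.univ.image fun i => min (x i) (x i1)).card < n := by
        rw [← hn]
        refine (Finset.card_le_card (t := (Finset.univ.image x).erase (x i0)) ?_).trans_lt
          (Finset.card_erase_lt_of_mem (Finset.mem_image_of_mem _ (Finset.mem_univ _)))
        intro y hy
        obtain ⟨i, -, rfl⟩ := Finset.mem_image.1 hy
        by_cases hi : x i < x i0
        · rw [hmin i hi]
          exact Finset.mem_erase.2 ⟨hi.ne, Finset.mem_image_of_mem _ (Finset.mem_univ _)⟩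
        · rw [hmin' i hi]
          exact Finset.mem_erase.2 ⟨hi1'.ne, Finset.mem_image_of_mem _ (Finset.mem_univ _)⟩
      have h1 := ih _ hcard (fun i => min (x i) (x i1)) (fun s => by
        by_cases hs : s ≤ x i1
        · have e : Finset.univ.filter (fun i => s ≤ min (x i) (x i1)) =
              Finset.univ.filter (fun i => s ≤ x i) := by
            apply Finset.filter_congr
            intro i _
            rw [le_min_iff]
            exact ⟨fun h => h.1, fun h => ⟨h, hs⟩⟩
          rw [e]
          exact h s
        · have e : Finset.univ.filter (fun i => s ≤ min (x i) (x i1)) = ∅ := by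
            apply Finset.filter_false_of_mem
            intro i _ h
            exact hs (h.trans (min_le_right _ _))
          rw [e, Finset.sum_empty]) rfl
      have e : ∑ i, x i * v i = ∑ i, min (x i) (x i1) * v i +
          (x i0 - x i1) * ∑ i ∈ Finset.univ.filter (fun i => x i0 ≤ x i), v i := by
        rw [Finset.sum_filter, Finset.mul_sum, ← Finset.sum_add_distrib]
        apply Finset.sum_congr rfl
        intro i _
        by_cases hi : x i < x i0
        · rw [hmin i hi, if_neg (not_le.2 hi), mul_zero, add_zero]
        · have e1 : x i = x i0 := le_antisymm (hi0 i) (not_lt.1 hi)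
          rw [hmin' i hi, if_pos (not_lt.1 hi), e1]
          ring
      rw [e]
      exact add_nonneg h1 (mul_nonneg (sub_nonneg.2 hi1'.le) (h (x i0)))
    · push Not at hc
      have e : ∀ i, x i = x i0 := fun i => le_antisymm (hi0 i) (hc i)
      have e2 : ∑ i, x i * v i = x i0 * ∑ i, v i := by
        rw [Finset.mul_sum]
        exact Finset.sum_congr rfl fun i _ => by rw [e i]
      rw [e2, h0, mul_zero]

end Pool.Agent.Work.MP_0da4e0_ag.Ex
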