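import Pool.Agent.Work.MP_0da4e0_ag.Ex.Defs

/-! MP_0da4e0_ag, exact criterion, module AdmMul: closure properties of the condition Adm.

PROOFS.
(mul) norm: (gh) X (gh)⁻¹ = g (h X h⁻¹) g⁻¹. com: clear. alt: act_mul.
(ofGp) norm: Gp_norm ha. com: Gp_com. alt: a tensor killed by m ⊔ cen m is killed by m
(Submodule.mem_sup_left), so it is fixed by the definition of Gp.
(exp) X = A + Z with A in m, Z in cen m, A Z = Z A (hZ.1). norm: for W in m, expGL (A + Z) s =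
expGL A s * expGL Z s (expGL_add_of_commute), expGL Z s commutes with W (expGL_commute, W Z = Z W), and
expGL A s is in Gp m (expGL_mem), so Gp_norm applies: (g W g⁻¹) = (expGL A s) W (expGL A s)⁻¹ in m.
com: X commutes with C (A C = C A as Com m C; C Z = Z C by hZ.2): expGL_commute. alt: act_expGL_fix.
(norm_inv) X ↦ g X g⁻¹ is an injective linear map of the finite dimensional space m to itself, hence
surjective (LinearMap.injective_iff_surjective for the restriction to m): X = g Y g⁻¹ with Y in m, and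
g⁻¹ X g = Y. -/

open Matrix

namespace Pool.Agent.Work.MP_0da4e0_ag.Ex

variable {ι : Type} [Fintype ι] [DecidableEq ι]

private theorem inv_conj (g : GL ι ℂ) (X : Matrix ι ι ℂ) :
    ((g⁻¹ : GL ι ℂ) : Matrix ι ι ℂ) * ((g : Matrix ι ι ℂ) * X * ((g⁻¹ : GL ι ℂ) : Matrix ι ι ℂ)) *
      (g : Matrix ι ι ℂ) = X := by
  have h1 : ((g⁻¹ : GL ι ℂ) : Matrix ι ι ℂ) * (g : Matrix ι ι ℂ) = 1 := by
    rw [← Units.val_mul, inv_mul_cancel, Units.val_one]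
  calc _ = (((g⁻¹ : GL ι ℂ) : Matrix ι ι ℂ) * (g : Matrix ι ι ℂ)) * X *
        (((g⁻¹ : GL ι ℂ) : Matrix ι ι ℂ) * (g : Matrix ι ι ℂ)) := by
        simp only [Matrix.mul_assoc]
    _ = X := by rw [h1, Matrix.one_mul, Matrix.mul_one]

private theorem conj_of_comm (g : GL ι ℂ) {X : Matrix ι ι ℂ}
    (h : (g : Matrix ι ι ℂ) * X = X * (g : Matrix ι ι ℂ)) :
    (g : Matrix ι ι ℂ) * X * ((g⁻¹ : GL ι ℂ) : Matrix ι ι ℂ) = X := by
  rw [h, Matrix.mul_assoc, ← Units.val_mul, mul_inv_cancel, Units.val_one, Matrix.mul_one]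

theorem Adm.mul {m : Submodule ℂ (Matrix ι ι ℂ)} {g h : GL ι ℂ} (hg : Adm m g) (hh : Adm m h) :
    Adm m (g * h) := by
  refine ⟨fun X hX => ?_, fun C hC => ?_, fun f h1 h2 t ht hk => ?_⟩
  · have h1 := hg.norm _ (hh.norm X hX)
    have h2 : ((g * h : GL ι ℂ) : Matrix ι ι ℂ) * X * (((g * h)⁻¹ : GL ι ℂ) : Matrix ι ι ℂ) =
        (g : Matrix ι ι ℂ) * ((h : Matrix ι ι ℂ) * X * ((h⁻¹ : GL ι ℂ) : Matrix ι ι ℂ)) *
          ((g⁻¹ : GL ι ℂ) : Matrix ι ι ℂ) := by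
      rw [_root_.mul_inv_rev, Units.val_mul, Units.val_mul]
      simp only [Matrix.mul_assoc]
    rw [h2]
    exact h1
  · rw [Units.val_mul, Matrix.mul_assoc, hh.com C hC, ← Matrix.mul_assoc, hg.com C hC,
      Matrix.mul_assoc]
  · rw [act_mul, hh.alt f h1 h2 t ht hk, hg.alt f h1 h2 t ht hk]

theorem Adm.ofGp {m : Submodule ℂ (Matrix ι ι ℂ)} (ha : Algebraic m) {g : GL ι ℂ} (hg : g ∈ Gp m) :
    Adm m g :=
  ⟨fun _ hX => Gp_norm ha hg hX, fun _ hC => Gp_com hg hC,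
    fun f _ _ t _ hk => hg f f t (fun X hX => hk X (Submodule.mem_sup_left hX))⟩

theorem Adm.exp {m : Submodule ℂ (Matrix ι ι ℂ)} (ha : Algebraic m) {X : Matrix ι ι ℂ}
    (hX : X ∈ m ⊔ cen m) (s : ℂ) : Adm m (expGL X s) := by
  obtain ⟨A, hA, Z, hZ, rfl⟩ := Submodule.mem_sup.1 hX
  have h1 : A * Z = Z * A := hZ.1 A hA
  rw [expGL_add_of_commute h1]
  refine Adm.mul (Adm.ofGp ha (expGL_mem hA s)) ⟨fun W hW => ?_, fun C hC => ?_,
    fun f _ _ t _ hk => ?_⟩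
  · rw [conj_of_comm _ (expGL_commute (hZ.1 W hW).symm s)]
    exact hW
  · exact expGL_commute (hZ.2 C hC).symm s
  · exact act_expGL_fix (hk Z (Submodule.mem_sup_right hZ)) s

theorem Adm.norm_inv {m : Submodule ℂ (Matrix ι ι ℂ)} {g : GL ι ℂ} (hg : Adm m g) {X : Matrix ι ι ℂ}
    (hX : X ∈ m) : ((g⁻¹ : GL ι ℂ) : Matrix ι ι ℂ) * X * (g : Matrix ι ι ℂ) ∈ m := by
  let φ : m →ₗ[ℂ] m :=
    { toFun := fun X => ⟨(g : Matrix ι ι ℂ) * X.1 * ((g⁻¹ : GL ι ℂ) : Matrix ι ι ℂ),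
        hg.norm X.1 X.2⟩
      map_add' := by
        intro X Y
        apply Subtype.ext
        change (g : Matrix ι ι ℂ) * (X.1 + Y.1) * ((g⁻¹ : GL ι ℂ) : Matrix ι ι ℂ) =
          (g : Matrix ι ι ℂ) * X.1 * ((g⁻¹ : GL ι ℂ) : Matrix ι ι ℂ) +
            (g : Matrix ι ι ℂ) * Y.1 * ((g⁻¹ : GL ι ℂ) : Matrix ι ι ℂ)
        rw [Matrix.mul_add, Matrix.add_mul]
      map_smul' := by
        intro c X
        apply Subtype.ext
        change (g : Matrix ι ι ℂ) * (c • X.1) * ((g⁻¹ : GL ι ℂ) : Matrix ι ι ℂ) =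
          c • ((g : Matrix ι ι ℂ) * X.1 * ((g⁻¹ : GL ι ℂ) : Matrix ι ι ℂ))
        rw [Matrix.mul_smul, Matrix.smul_mul] }
  have hinj : Function.Injective φ := by
    intro X Y h
    have h1 : (g : Matrix ι ι ℂ) * X.1 * ((g⁻¹ : GL ι ℂ) : Matrix ι ι ℂ) =
        (g : Matrix ι ι ℂ) * Y.1 * ((g⁻¹ : GL ι ℂ) : Matrix ι ι ℂ) := congrArg Subtype.val h
    apply Subtype.ext
    rw [← inv_conj g X.1, h1, inv_conj]
  obtain ⟨Y, hY⟩ := LinearMap.injective_iff_surjective.1 hinj ⟨X, hX⟩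
  have h1 : (g : Matrix ι ι ℂ) * Y.1 * ((g⁻¹ : GL ι ℂ) : Matrix ι ι ℂ) = X :=
    congrArg Subtype.val hY
  rw [← h1, inv_conj]
  exact Y.2

end Pool.Agent.Work.MP_0da4e0_ag.Ex
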