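import Pool.Agent.Work.MP_0da4e0_ag.Ex.Dtp

/-! MP_0da4e0_ag, exact criterion, module AdmSt: an admissible matrix preserves the subspaces of the
exterior power which are stable under m and cen m.

PROOF. Let E be the matrix of the orthogonal projection onto U (work in EuclideanSpace ℂ (Fin f → ι),
Submodule.starProjection, or choose a basis of U and write E = B (Bᴴ B)⁻¹ Bᴴ): E is Hermitian, E w = w for
w in U, the columns of E are in U. For X in l = m ⊔ cen m: dtp f X maps U to U (hst), and it maps the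
orthogonal complement of U to itself because (dtp f X)ᴴ = dtp f Xᴴ (dtp_star) and Xᴴ is in l
(starLie_sup hm); hence E commutes with dtp f X. Let t : Tens ι f f ℂ be t (e, e') = E e e', so toMat t = E.
By dact_iff, Killed (m ⊔ cen m) t. Alt2 t: in the upper indices since the columns of E are in U (halt); in
the lower indices because E e e' = conj (E e' e) (E Hermitian; the sign is real). So hg.alt gives
act g t = t, i.e. tpow f g * E = E * tpow f g (act_eq_iff in EffTens). For w in U: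
tpow f g *ᵥ w = tpow f g *ᵥ (E *ᵥ w) = E *ᵥ (tpow f g *ᵥ w) is in U. -/

open Matrix

namespace Pool.Agent.Work.MP_0da4e0_ag.Ex

variable {ι : Type} [Fintype ι] [DecidableEq ι]

/-- the matrix of the orthogonal projection -/
private theorem exists_proj {K : Type} [Fintype K] [DecidableEq K] (U : Submodule ℂ (K → ℂ)) :
    ∃ E : Matrix K K ℂ, Eᴴ = E ∧ (∀ w, E *ᵥ w ∈ U) ∧ ∀ w ∈ U, E *ᵥ w = w := by
  let e : EuclideanSpace ℂ K ≃ₗ[ℂ] (K → ℂ) := WithLp.linearEquiv 2 ℂ (K → ℂ)
  let V : Submodule ℂ (EuclideanSpace ℂ K) := U.comap (e : EuclideanSpace ℂ K →ₗ[ℂ] (K → ℂ))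
  let P : EuclideanSpace ℂ K →ₗ[ℂ] EuclideanSpace ℂ K := V.starProjection
  let E : Matrix K K ℂ := Matrix.toEuclideanLin.symm P
  have hE : Matrix.toEuclideanLin E = P := LinearEquiv.apply_symm_apply _ _
  have h1 : ∀ w : K → ℂ, E *ᵥ w = (P (WithLp.toLp 2 w)).ofLp := by
    intro w
    rw [← hE, Matrix.toLpLin_apply]
  refine ⟨E, ?_, fun w => ?_, fun w hw => ?_⟩
  · have h2 : (Matrix.toEuclideanLin E).IsSymmetric := by
      rw [hE]
      exact V.starProjection_isSymmetric
    exact Matrix.isSymmetric_toEuclideanLin_iff.1 h2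
  · rw [h1]
    exact V.starProjection_apply_mem (WithLp.toLp 2 w)
  · rw [h1]
    have h3 : V.starProjection (WithLp.toLp 2 w) = WithLp.toLp 2 w :=
      V.starProjection_eq_self_iff.2 hw
    show (V.starProjection (WithLp.toLp 2 w)).ofLp = w
    rw [h3]

theorem adm_stable {m : Submodule ℂ (Matrix ι ι ℂ)} (hm : StarLie m) {g : GL ι ℂ} (hg : Adm m g) {f : ℕ}
    (hf : 1 ≤ f) (hf' : 2 * f ≤ Fintype.card ι) (U : Submodule ℂ ((Fin f → ι) → ℂ))
    (halt : ∀ w ∈ U, ∀ (p : Equiv.Perm (Fin f)) (e : Fin f → ι),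
      w (e ∘ p) = ((Equiv.Perm.sign p : ℤ) : ℂ) * w e)
    (hst : ∀ X ∈ m ⊔ cen m, ∀ w ∈ U, dtp f X *ᵥ w ∈ U) :
    ∀ w ∈ U, tpow f (g : Matrix ι ι ℂ) *ᵥ w ∈ U := by
  obtain ⟨E, hEs, hEU, hE1⟩ := exists_proj U
  -- commutation with the derivations
  have hc : ∀ X ∈ m ⊔ cen m, dtp f X * E = E * dtp f X := by
    have h1 : ∀ X ∈ m ⊔ cen m, E * (dtp f X * E) = dtp f X * E := by
      intro X hX
      refine Matrix.ext_of_mulVec_single fun k => ?_
      rw [← Matrix.mulVec_mulVec, ← Matrix.mulVec_mulVec]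
      exact hE1 _ (hst X hX _ (hEU _))
    intro X hX
    have h2 := h1 Xᴴ ((starLie_sup hm).st X hX)
    have h3 := congrArg Matrix.conjTranspose h2
    rw [Matrix.conjTranspose_mul, Matrix.conjTranspose_mul, hEs, dtp_star,
      Matrix.conjTranspose_conjTranspose] at h3
    calc dtp f X * E = E * (dtp f X * E) := (h1 X hX).symm
      _ = E * dtp f X * E := (Matrix.mul_assoc _ _ _).symm
      _ = E * dtp f X := h3
  have hcol : ∀ e' : Fin f → ι, (fun e => E e e') ∈ U := by
    intro e'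
    have h1 : (fun e => E e e') = E *ᵥ (Pi.single e' 1) := by
      funext e
      rw [Matrix.mulVec_single_one]
      rfl
    rw [h1]
    exact hEU _
  have hup : ∀ (p : Equiv.Perm (Fin f)) (e e' : Fin f → ι),
      E (e ∘ p) e' = ((Equiv.Perm.sign p : ℤ) : ℂ) * E e e' := fun p e e' =>
    halt _ (hcol e') p e
  let t : Tens ι f f ℂ := fun q => E q.1 q.2
  have ht : toMat t = E := rfl
  have hk : Killed (m ⊔ cen m) t := fun X hX => (dact_iff X t).2 (by rw [ht]; exact hc X hX)
  have ha : Alt2 t := by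
    refine ⟨hup, fun p e e' => ?_⟩
    have h1 : ∀ a b, E a b = star (E b a) := fun a b => by
      conv_lhs => rw [← hEs]
      rfl
    show E e (e' ∘ p) = _ * E e e'
    rw [h1, hup, h1 e e', star_mul']
    congr 1
    simp
  have hact := hg.alt f hf hf' t ha hk
  rw [act_eq_iff, ht] at hact
  intro w hw
  have h1 : tpow f (g : Matrix ι ι ℂ) *ᵥ w = E *ᵥ (tpow f (g : Matrix ι ι ℂ) *ᵥ w) := by
    rw [Matrix.mulVec_mulVec, ← hact, ← Matrix.mulVec_mulVec, hE1 w hw]
  rw [h1]
  exact hEU _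

end Pool.Agent.Work.MP_0da4e0_ag.Ex
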