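import Pool.Agent.Work.MP_0da4e0_ag.Ex.Defs

/-! MP_0da4e0_ag, exact criterion, module AltAct: alternating tensors are stable under the action of GL.

PROOF. act g t (e ∘ p, e') = ∑ f, (∏ j, g (e (p j)) (f.1 j)) * (∏ j, g⁻¹ (f.2 j) (e' j)) * t f. Substitute
f.1 = f' ∘ p (Fintype.sum_equiv for the bijection f' ↦ f' ∘ p of the functions Fin f → ι, product
with the identity): ∏ j, g (e (p j)) (f' (p j)) = ∏ j, g (e j) (f' j) (Equiv.prod_comp), and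
t (f' ∘ p, f.2) = sign p * t (f', f.2). The same for the lower indices. -/

open Matrix

namespace Pool.Agent.Work.MP_0da4e0_ag.Ex

variable {ι : Type} [Fintype ι] [DecidableEq ι]

theorem Alt2.act {f : ℕ} {t : Tens ι f f ℂ} (ht : Alt2 t) (g : GL ι ℂ) :
    Alt2 (Pool.Agent.Work.MP_0da4e0_ag.act g t) := by
  constructor
  · intro p e e'
    obtain ⟨σ, hσ⟩ : ∃ σ : (Fin f → ι) × (Fin f → ι) ≃ (Fin f → ι) × (Fin f → ι),
        ∀ x, σ x = (x.1 ∘ p, x.2) :=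
      ⟨(Equiv.arrowCongr p.symm (Equiv.refl ι)).prodCongr (Equiv.refl _), fun _ => rfl⟩
    change (∑ x : (Fin f → ι) × (Fin f → ι), ((∏ j, (g : Matrix ι ι ℂ) (e (p j)) (x.1 j)) *
        (∏ j, ((g⁻¹ : GL ι ℂ) : Matrix ι ι ℂ) (x.2 j) (e' j))) * t x) =
      _ * ∑ x : (Fin f → ι) × (Fin f → ι), ((∏ j, (g : Matrix ι ι ℂ) (e j) (x.1 j)) *
        (∏ j, ((g⁻¹ : GL ι ℂ) : Matrix ι ι ℂ) (x.2 j) (e' j))) * t x
    rw [← σ.sum_comp, Finset.mul_sum]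
    refine Finset.sum_congr rfl fun x _ => ?_
    have h2 : ∏ j, (g : Matrix ι ι ℂ) (e (p j)) ((x.1 ∘ p) j) =
        ∏ j, (g : Matrix ι ι ℂ) (e j) (x.1 j) :=
      Equiv.prod_comp p (fun j => (g : Matrix ι ι ℂ) (e j) (x.1 j))
    rw [hσ, ht.1 p x.1 x.2, h2]
    ring
  · intro p e e'
    obtain ⟨σ, hσ⟩ : ∃ σ : (Fin f → ι) × (Fin f → ι) ≃ (Fin f → ι) × (Fin f → ι),
        ∀ x, σ x = (x.1, x.2 ∘ p) :=
      ⟨(Equiv.refl _).prodCongr (Equiv.arrowCongr p.symm (Equiv.refl ι)), fun _ => rfl⟩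
    change (∑ x : (Fin f → ι) × (Fin f → ι), ((∏ j, (g : Matrix ι ι ℂ) (e j) (x.1 j)) *
        (∏ j, ((g⁻¹ : GL ι ℂ) : Matrix ι ι ℂ) (x.2 j) (e' (p j)))) * t x) =
      _ * ∑ x : (Fin f → ι) × (Fin f → ι), ((∏ j, (g : Matrix ι ι ℂ) (e j) (x.1 j)) *
        (∏ j, ((g⁻¹ : GL ι ℂ) : Matrix ι ι ℂ) (x.2 j) (e' j))) * t x
    rw [← σ.sum_comp, Finset.mul_sum]
    refine Finset.sum_congr rfl fun x _ => ?_
    have h2 : ∏ j, ((g⁻¹ : GL ι ℂ) : Matrix ι ι ℂ) ((x.2 ∘ p) j) (e' (p j)) =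
        ∏ j, ((g⁻¹ : GL ι ℂ) : Matrix ι ι ℂ) (x.2 j) (e' j) :=
      Equiv.prod_comp p (fun j => ((g⁻¹ : GL ι ℂ) : Matrix ι ι ℂ) (x.2 j) (e' j))
    rw [hσ, ht.2 p x.1 x.2, h2]
    ring

end Pool.Agent.Work.MP_0da4e0_ag.Ex
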