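import Pool.Agent.Work.MP_0da4e0_ag.Ex.Defs

/-! MP_0da4e0_ag, exact criterion, module BrNe: positivity of the trace form gives nonzero commutators.

PROOF. Notation <u, w> = tr (uᴴ w), h = e eᴴ - eᴴ e. By cyclicity of the trace,
<[e, v], w> = <v, [eᴴ, w]> and <[eᴴ, v], w> = <v, [e, w]> for all w. So
<[eᴴ, v], [eᴴ, v]> - <[e, v], [e, v]> = <v, [e, [eᴴ, v]] - [eᴴ, [e, v]]> = <v, [h, v]> = β <v, v>
(Jacobi identity: expand all products, noncomm_ring). If [e, v] = 0 then <[eᴴ, v], [eᴴ, v]> = β <v, v>, whose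
real part is at least 0 on the left (trace_star_re) and is negative on the right (β < 0, <v, v> > 0 by
trace_star_eq_zero, trace_star_re). Contradiction. -/

open Matrix

namespace Pool.Agent.Work.MP_0da4e0_ag.Ex

variable {ι : Type} [Fintype ι] [DecidableEq ι]

omit [DecidableEq ι] in
theorem bracket_ne {e v : Matrix ι ι ℂ} {β : ℝ} (hβ : β < 0)
    (h : (e * eᴴ - eᴴ * e) * v - v * (e * eᴴ - eᴴ * e) = (β : ℂ) • v) (hv : v ≠ 0) :
    e * v - v * e ≠ 0 := by
  intro h0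
  have hev : e * v = v * e := sub_eq_zero.1 h0
  have key : Matrix.trace ((eᴴ * v - v * eᴴ)ᴴ * (eᴴ * v - v * eᴴ)) =
      Matrix.trace (vᴴ * ((e * eᴴ - eᴴ * e) * v - v * (e * eᴴ - eᴴ * e))) := by
    rw [Matrix.conjTranspose_sub, Matrix.conjTranspose_mul, Matrix.conjTranspose_mul,
      Matrix.conjTranspose_conjTranspose]
    have t1 : Matrix.trace (vᴴ * e * (v * eᴴ)) = Matrix.trace (vᴴ * v * (e * eᴴ)) := by
      have : vᴴ * e * (v * eᴴ) = vᴴ * (e * v) * eᴴ := by simp only [Matrix.mul_assoc]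
      rw [this, hev]
      simp only [Matrix.mul_assoc]
    have t2 : Matrix.trace (e * vᴴ * (eᴴ * v)) = Matrix.trace (vᴴ * (eᴴ * e) * v) := by
      rw [show e * vᴴ * (eᴴ * v) = e * (vᴴ * eᴴ * v) by simp only [Matrix.mul_assoc],
        Matrix.trace_mul_comm, show vᴴ * eᴴ * v * e = vᴴ * eᴴ * (v * e) by
          simp only [Matrix.mul_assoc], ← hev]
      simp only [Matrix.mul_assoc]
    have t3 : Matrix.trace (e * vᴴ * (v * eᴴ)) = Matrix.trace (vᴴ * v * (eᴴ * e)) := by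
      rw [show e * vᴴ * (v * eᴴ) = e * (vᴴ * v * eᴴ) by simp only [Matrix.mul_assoc],
        Matrix.trace_mul_comm]
      simp only [Matrix.mul_assoc]
    simp only [Matrix.sub_mul, Matrix.mul_sub, Matrix.trace_sub]
    rw [t1, t2, t3]
    simp only [Matrix.mul_assoc]
  rw [h, Matrix.mul_smul, Matrix.trace_smul, smul_eq_mul] at key
  have h1 := trace_star_re (eᴴ * v - v * eᴴ)
  rw [key, Complex.re_ofReal_mul] at h1
  have h2 := trace_star_re v
  have h3 : (Matrix.trace (vᴴ * v)).re ≠ 0 := fun h3 => hv (trace_star_eq_zero h3)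
  have h4 : 0 < (Matrix.trace (vᴴ * v)).re := lt_of_le_of_ne h2 (Ne.symm h3)
  nlinarith

end Pool.Agent.Work.MP_0da4e0_ag.Ex
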