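import Pool.Agent.Work.MP_0da4e0_ag.Ex.AltAct

/-! MP_0da4e0_ag, exact criterion, module CjLem: conjugation by U of the conditions. By definition
X ∈ cj U m means U X U⁻¹ ∈ m (Iff.rfl).

PROOFS.
(starLie) X, Y in cj U m: U (XY - YX) U⁻¹ = [U X U⁻¹, U Y U⁻¹] in m. As Uᴴ U = 1, U⁻¹ = Uᴴ as matrices,
U Xᴴ U⁻¹ = (U X U⁻¹)ᴴ in m.
(killed) act_dact: act U (dact X t) = dact (U X U⁻¹) (act U t). If Killed (cj U m) t and Y in m, then
X = U⁻¹ Y U is in cj U m and dact Y (act U t) = act U (dact X t) = act U 0 = 0 (act_eq,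
Matrix.mulVec_zero). Conversely for X in cj U m, act U (dact X t) = dact (U X U⁻¹) (act U t) = 0, and
act U is injective (act_injective).
(algebraic) let Y kill all tensors killed by cj U m; U Y U⁻¹ kills every t killed by m:
t = act U (act U⁻¹ t) (act_act_inv), act U⁻¹ t is killed by cj U m by (killed), so
dact (U Y U⁻¹) t = act U (dact Y (act U⁻¹ t)) = 0. So U Y U⁻¹ in m by ha.
(gp) g in Gp (cj U m): for t killed by m, act (U g U⁻¹) t = act U (act g (act U⁻¹ t)) = act U (act U⁻¹ t)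
= t. Conversely similarly.
(com) X in cj U m iff U X U⁻¹ in m; X C = C X iff (U X U⁻¹)(U C U⁻¹) = (U C U⁻¹)(U X U⁻¹).
(cen) from (com), every C with Com m C is U C' U⁻¹ with C' = U⁻¹ C U and Com (cj U m) C'.
(adm) norm, com: clear. alt: let t be Alt2 and killed by cj U m ⊔ cen (cj U m). Then act U t is Alt2
(Alt2.act), and it is killed by m ⊔ cen m: an element A + Z of it (Submodule.mem_sup) is U (A' + Z') U⁻¹
with A' = U⁻¹ A U in cj U m, Z' = U⁻¹ Z U in cen (cj U m), and dact (U X U⁻¹) (act U t) = act U (dact X t)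
= 0. So act g (act U t) = act U t by hg.alt, and act (U⁻¹ g U) t = act U⁻¹ (act g (act U t)) = t. -/

open Matrix

namespace Pool.Agent.Work.MP_0da4e0_ag.Ex

variable {ι : Type} [Fintype ι] [DecidableEq ι]

private theorem ui (U : GL ι ℂ) : (U : Matrix ι ι ℂ) * ((U⁻¹ : GL ι ℂ) : Matrix ι ι ℂ) = 1 := by
  rw [← Units.val_mul, mul_inv_cancel, Units.val_one]

private theorem iu (U : GL ι ℂ) : ((U⁻¹ : GL ι ℂ) : Matrix ι ι ℂ) * (U : Matrix ι ι ℂ) = 1 := by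
  rw [← Units.val_mul, inv_mul_cancel, Units.val_one]

/-- conjugation -/
private noncomputable def cn (U : GL ι ℂ) (X : Matrix ι ι ℂ) : Matrix ι ι ℂ :=
  (U : Matrix ι ι ℂ) * X * ((U⁻¹ : GL ι ℂ) : Matrix ι ι ℂ)

private theorem cn_mul (U : GL ι ℂ) (X Y : Matrix ι ι ℂ) : cn U (X * Y) = cn U X * cn U Y := by
  rw [cn, cn, cn]
  calc (U : Matrix ι ι ℂ) * (X * Y) * ((U⁻¹ : GL ι ℂ) : Matrix ι ι ℂ)
      = (U : Matrix ι ι ℂ) * X * 1 * Y * ((U⁻¹ : GL ι ℂ) : Matrix ι ι ℂ) := by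
        simp only [Matrix.mul_assoc, Matrix.one_mul]
    _ = _ := by
        rw [← iu U]
        simp only [Matrix.mul_assoc]

private theorem cn_add (U : GL ι ℂ) (X Y : Matrix ι ι ℂ) : cn U (X + Y) = cn U X + cn U Y := by
  rw [cn, Matrix.mul_add, Matrix.add_mul]
  rfl

private theorem cn_sub (U : GL ι ℂ) (X Y : Matrix ι ι ℂ) : cn U (X - Y) = cn U X - cn U Y := by
  rw [cn, Matrix.mul_sub, Matrix.sub_mul]
  rfl

private theorem cn_inv (U : GL ι ℂ) (X : Matrix ι ι ℂ) : cn U (cn U⁻¹ X) = X := by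
  rw [cn, cn, inv_inv]
  calc (U : Matrix ι ι ℂ) * (((U⁻¹ : GL ι ℂ) : Matrix ι ι ℂ) * X * (U : Matrix ι ι ℂ)) *
        ((U⁻¹ : GL ι ℂ) : Matrix ι ι ℂ)
      = ((U : Matrix ι ι ℂ) * ((U⁻¹ : GL ι ℂ) : Matrix ι ι ℂ)) * X *
          ((U : Matrix ι ι ℂ) * ((U⁻¹ : GL ι ℂ) : Matrix ι ι ℂ)) := by
        simp only [Matrix.mul_assoc]
    _ = X := by rw [ui, Matrix.one_mul, Matrix.mul_one]

private theorem cn_inj (U : GL ι ℂ) {X Y : Matrix ι ι ℂ} (h : cn U X = cn U Y) : X = Y := by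
  have h1 := cn_inv U⁻¹ X
  have h2 := cn_inv U⁻¹ Y
  rw [inv_inv] at h1 h2
  rw [← h1, ← h2, h]

private theorem mem_cj {U : GL ι ℂ} {m : Submodule ℂ (Matrix ι ι ℂ)} {X : Matrix ι ι ℂ} :
    X ∈ cj U m ↔ cn U X ∈ m := Iff.rfl

private theorem inv_mem_cj {U : GL ι ℂ} {m : Submodule ℂ (Matrix ι ι ℂ)} {X : Matrix ι ι ℂ}
    (hX : X ∈ m) : cn U⁻¹ X ∈ cj U m := by
  rw [mem_cj, cn_inv]
  exact hX

private theorem act_dact' (g : GL ι ℂ) (X : Matrix ι ι ℂ) {a b : ℕ} (t : Tens ι a b ℂ) :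
    act g (dact X t) = dact (cn g X) (act g t) := act_dact g X t

private theorem act_zero' (g : GL ι ℂ) {a b : ℕ} : act g (0 : Tens ι a b ℂ) = 0 := by
  rw [act_eq, Matrix.mulVec_zero]

theorem cj_starLie {m : Submodule ℂ (Matrix ι ι ℂ)} (hm : StarLie m) {U : GL ι ℂ}
    (hU : ((U : Matrix ι ι ℂ))ᴴ * (U : Matrix ι ι ℂ) = 1) : StarLie (cj U m) := by
  have h1 : ((U⁻¹ : GL ι ℂ) : Matrix ι ι ℂ) = ((U : Matrix ι ι ℂ))ᴴ := by
    calc ((U⁻¹ : GL ι ℂ) : Matrix ι ι ℂ) = (((U : Matrix ι ι ℂ))ᴴ * (U : Matrix ι ι ℂ)) *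
        ((U⁻¹ : GL ι ℂ) : Matrix ι ι ℂ) := by rw [hU, Matrix.one_mul]
      _ = ((U : Matrix ι ι ℂ))ᴴ := by rw [Matrix.mul_assoc, ui, Matrix.mul_one]
  constructor
  · intro X hX Y hY
    rw [mem_cj] at hX hY ⊢
    rw [cn_sub, cn_mul, cn_mul]
    exact hm.br _ hX _ hY
  · intro X hX
    rw [mem_cj] at hX ⊢
    have h2 := hm.st _ hX
    have h3 : (cn U X)ᴴ = cn U Xᴴ := by
      rw [cn, cn, Matrix.conjTranspose_mul, Matrix.conjTranspose_mul, h1,
        Matrix.conjTranspose_conjTranspose, Matrix.mul_assoc]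
    rw [← h3]
    exact h2

theorem cj_killed {m : Submodule ℂ (Matrix ι ι ℂ)} {U : GL ι ℂ} {a b : ℕ} {t : Tens ι a b ℂ} :
    Killed (cj U m) t ↔ Killed m (act U t) := by
  constructor
  · intro h Y hY
    have h1 := act_dact' U (cn U⁻¹ Y) t
    rw [h _ (inv_mem_cj hY), cn_inv, act_zero'] at h1
    exact h1.symm
  · intro h X hX
    have h1 := act_dact' U X t
    rw [h _ (mem_cj.1 hX)] at h1
    exact act_injective U (h1.trans (act_zero' U).symm)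

theorem cj_algebraic {m : Submodule ℂ (Matrix ι ι ℂ)} (ha : Algebraic m) (U : GL ι ℂ) :
    Algebraic (cj U m) := by
  intro Y hY
  rw [mem_cj]
  apply ha
  intro a b t ht
  have h1 : Killed (cj U m) (act U⁻¹ t) := by
    rw [cj_killed, act_act_inv]
    exact ht
  have h2 := act_dact' U Y (act U⁻¹ t)
  rw [hY a b _ h1, act_act_inv, act_zero'] at h2
  exact h2.symm

theorem cj_Gp {m : Submodule ℂ (Matrix ι ι ℂ)} {U g : GL ι ℂ} :
    g ∈ Gp (cj U m) ↔ U * g * U⁻¹ ∈ Gp m := by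
  constructor
  · intro h a b t ht
    have h1 : Killed (cj U m) (act U⁻¹ t) := by
      rw [cj_killed, act_act_inv]
      exact ht
    rw [act_mul, act_mul, h a b _ h1, act_act_inv]
  · intro h a b t ht
    rw [cj_killed] at ht
    have h1 := h a b _ ht
    rw [act_mul, act_mul, act_inv_act] at h1
    exact act_injective U h1

theorem cj_com {m : Submodule ℂ (Matrix ι ι ℂ)} {U : GL ι ℂ} {C : Matrix ι ι ℂ} :
    Com (cj U m) C ↔ Com m ((U : Matrix ι ι ℂ) * C * ((U⁻¹ : GL ι ℂ) : Matrix ι ι ℂ)) := by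
  change Com (cj U m) C ↔ Com m (cn U C)
  constructor
  · intro h Y hY
    have h1 := congrArg (cn U) (h _ (inv_mem_cj hY))
    rw [cn_mul, cn_mul, cn_inv] at h1
    exact h1
  · intro h X hX
    have h1 := h _ (mem_cj.1 hX)
    rw [← cn_mul, ← cn_mul] at h1
    exact cn_inj U h1

theorem cj_cen {m : Submodule ℂ (Matrix ι ι ℂ)} {U : GL ι ℂ} {Z : Matrix ι ι ℂ} :
    Z ∈ cen (cj U m) ↔ (U : Matrix ι ι ℂ) * Z * ((U⁻¹ : GL ι ℂ) : Matrix ι ι ℂ) ∈ cen m := by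
  change Z ∈ cen (cj U m) ↔ cn U Z ∈ cen m
  constructor
  · rintro ⟨h1, h2⟩
    refine ⟨cj_com.1 h1, fun C hC => ?_⟩
    have h3 : Com (cj U m) (cn U⁻¹ C) := by
      rw [cj_com]
      change Com m (cn U (cn U⁻¹ C))
      rw [cn_inv]
      exact hC
    have h4 := congrArg (cn U) (h2 _ h3)
    rw [cn_mul, cn_mul, cn_inv] at h4
    exact h4
  · rintro ⟨h1, h2⟩
    refine ⟨cj_com.2 h1, fun C hC => ?_⟩
    have h3 := h2 _ (cj_com.1 hC)
    change cn U C * cn U Z = cn U Z * cn U C at h3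
    rw [← cn_mul, ← cn_mul] at h3
    exact cn_inj U h3

theorem cj_adm {m : Submodule ℂ (Matrix ι ι ℂ)} {g : GL ι ℂ} (hg : Adm m g) (U : GL ι ℂ) :
    Adm (cj U m) (U⁻¹ * g * U) := by
  have hv : ((U⁻¹ * g * U : GL ι ℂ) : Matrix ι ι ℂ) = cn U⁻¹ (g : Matrix ι ι ℂ) := by
    rw [cn, inv_inv, Units.val_mul, Units.val_mul]
  have hi : (((U⁻¹ * g * U)⁻¹ : GL ι ℂ) : Matrix ι ι ℂ) =
      cn U⁻¹ ((g⁻¹ : GL ι ℂ) : Matrix ι ι ℂ) := by
    have e1 : (U⁻¹ * g * U)⁻¹ = U⁻¹ * g⁻¹ * U := by group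
    rw [e1, cn, inv_inv, Units.val_mul, Units.val_mul]
  refine ⟨fun X hX => ?_, fun C hC => ?_, fun f hf1 hf2 t ht hk => ?_⟩
  · rw [hv, hi, mem_cj, cn_mul, cn_mul, cn_inv, cn_inv]
    exact hg.norm _ (mem_cj.1 hX)
  · rw [hv]
    have h1 := hg.com _ (cj_com.1 hC)
    apply cn_inj U
    rw [cn_mul, cn_mul, cn_inv]
    exact h1
  · have h1 : Killed (m ⊔ cen m) (act U t) := by
      intro Y hY
      obtain ⟨A, hA, Z, hZ, rfl⟩ := Submodule.mem_sup.1 hY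
      have h2 : cn U⁻¹ (A + Z) ∈ cj U m ⊔ cen (cj U m) := by
        rw [cn_add]
        refine Submodule.add_mem _ (Submodule.mem_sup_left (inv_mem_cj hA))
          (Submodule.mem_sup_right ?_)
        rw [cj_cen]
        change cn U (cn U⁻¹ Z) ∈ cen m
        rw [cn_inv]
        exact hZ
      have h3 := act_dact' U (cn U⁻¹ (A + Z)) t
      rw [hk _ h2, cn_inv, act_zero'] at h3
      exact h3.symm
    have h2 := hg.alt f hf1 hf2 _ (ht.act U) h1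
    rw [act_mul, act_mul, h2, act_inv_act]

end Pool.Agent.Work.MP_0da4e0_ag.Ex
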