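import Pool.Agent.Work.MP_0da4e0_ag.Ex.FlagIn
import Pool.Agent.Work.MP_0da4e0_ag.Ex.Abel

/-! MP_0da4e0_ag, exact criterion, module FlagEq: x = y.

PROOF. dg y = g (dg x) g⁻¹, so tr (dg x) = tr (dg y) and tr (dg x)^2 = tr (dg y)^2: ∑ x i = ∑ y i,
∑ (x i)^2 = ∑ (y i)^2.
Let v i = y i - x i, so ∑ v = 0. Claim: for every real s, 0 ≤ ∑_{i, s ≤ x i} v i. Let
S = {i | s ≤ x i}, n = card ι. If S is empty: clear. If 2 card S ≤ n: flag_in. Otherwise let S' be the
complement of S, 2 card S' ≤ n. If S' is empty: ∑ v = 0. Otherwise flag_in for (-x, -y, S'): dg (-x) =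
- dg x in m, g dg (-x) = dg (-y) g; hP for (-x, -y): W in m, W i j ≠ 0, -x i < -x j, i.e. x j < x i; Wᴴ in m
has (Wᴴ) j i = conj (W i j) ≠ 0, so y j ≤ y i, i.e. -y i ≤ -y j; hup: for i in S', j ∉ S': x i < s ≤ x j, so
-x j < -x i. It gives ∑_{S'} (- x i) ≤ ∑_{S'} (- y i), i.e. ∑_{S'} v i ≤ 0, so ∑_S v i = - ∑_{S'} v i ≥ 0.
abel_sum: 0 ≤ ∑ x i (y i - x i), i.e. ∑ x i^2 ≤ ∑ x i y i. So
∑ (x i - y i)^2 = ∑ x i^2 - 2 ∑ x i y i + ∑ y i^2 = 2 ∑ x i^2 - 2 ∑ x i y i ≤ 0 and x = y. -/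

open Matrix

namespace Pool.Agent.Work.MP_0da4e0_ag.Ex

variable {ι : Type} [Fintype ι] [DecidableEq ι]

private theorem trace_conj {g : GL ι ℂ} {D D' : Matrix ι ι ℂ}
    (h : (g : Matrix ι ι ℂ) * D = D' * (g : Matrix ι ι ℂ)) : Matrix.trace D = Matrix.trace D' := by
  have h1 : (g : Matrix ι ι ℂ) * ((g⁻¹ : GL ι ℂ) : Matrix ι ι ℂ) = 1 := by
    rw [← Units.val_mul, mul_inv_cancel, Units.val_one]
  have h2 : ((g⁻¹ : GL ι ℂ) : Matrix ι ι ℂ) * (g : Matrix ι ι ℂ) = 1 := by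
    rw [← Units.val_mul, inv_mul_cancel, Units.val_one]
  calc Matrix.trace D = Matrix.trace (((g⁻¹ : GL ι ℂ) : Matrix ι ι ℂ) * ((g : Matrix ι ι ℂ) * D)) := by
        rw [← Matrix.mul_assoc, h2, Matrix.one_mul]
    _ = Matrix.trace (((g⁻¹ : GL ι ℂ) : Matrix ι ι ℂ) * (D' * (g : Matrix ι ι ℂ))) := by rw [h]
    _ = Matrix.trace ((D' * (g : Matrix ι ι ℂ)) * ((g⁻¹ : GL ι ℂ) : Matrix ι ι ℂ)) :=
        Matrix.trace_mul_comm _ _
    _ = Matrix.trace D' := by rw [Matrix.mul_assoc, h1, Matrix.mul_one]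

omit [Fintype ι] in
private theorem dg_neg (x : ι → ℝ) : dg (fun i => -x i) = -dg x := by
  ext i j
  rcases eq_or_ne i j with rfl | h
  · simp [dg]
  · simp [dg, Matrix.diagonal_apply_ne _ h]

theorem flag_eq {m : Submodule ℂ (Matrix ι ι ℂ)} (hm : StarLie m) {x y : ι → ℝ} (hx : dg x ∈ m)
    {g : GL ι ℂ} (hg : Adm m g) (hgx : (g : Matrix ι ι ℂ) * dg x = dg y * (g : Matrix ι ι ℂ))
    (hP : ∀ W ∈ m, ∀ i j, W i j ≠ 0 → x i < x j → y i ≤ y j) : x = y := by
  -- the power sums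
  have hs1 : ∑ i, x i = ∑ i, y i := by
    have h1 := trace_conj hgx
    simp only [dg, Matrix.trace_diagonal] at h1
    exact_mod_cast h1
  have hs2 : ∑ i, x i * x i = ∑ i, y i * y i := by
    have h0 : (g : Matrix ι ι ℂ) * (dg x * dg x) = (dg y * dg y) * (g : Matrix ι ι ℂ) := by
      rw [← Matrix.mul_assoc, hgx, Matrix.mul_assoc, hgx, ← Matrix.mul_assoc]
    have h1 := trace_conj h0
    simp only [dg, Matrix.diagonal_mul_diagonal, Matrix.trace_diagonal] at h1
    exact_mod_cast h1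
  have hv0 : ∑ i, (y i - x i) = 0 := by
    rw [Finset.sum_sub_distrib, hs1, sub_self]
  have hlev : ∀ s : ℝ, 0 ≤ ∑ i ∈ Finset.univ.filter (fun i => s ≤ x i), (y i - x i) := by
    intro s
    set S : Finset ι := Finset.univ.filter (fun i => s ≤ x i) with hS
    have hmem : ∀ i, i ∈ S ↔ s ≤ x i := fun i => by simp [hS]
    by_cases hS0 : S.card = 0
    · rw [Finset.card_eq_zero.1 hS0, Finset.sum_empty]
    by_cases hS2 : 2 * S.card ≤ Fintype.card ι
    · have h1 := flag_in hm hx hg hgx hP S (Nat.one_le_iff_ne_zero.2 hS0) hS2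
        (fun i hi j hj => by
          have h2 := (hmem i).1 hi
          have h3 : ¬ s ≤ x j := fun h => hj ((hmem j).2 h)
          linarith [not_le.1 h3])
      rw [Finset.sum_sub_distrib]
      linarith
    · have hcc : Sᶜ.card = Fintype.card ι - S.card := Finset.card_compl S
      have hle : S.card ≤ Fintype.card ι := Finset.card_le_univ S
      have hsplit : ∑ i ∈ S, (y i - x i) + ∑ i ∈ Sᶜ, (y i - x i) = 0 := by
        rw [Finset.sum_add_sum_compl, hv0]
      by_cases hC0 : Sᶜ.card = 0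
      · rw [Finset.card_eq_zero.1 hC0, Finset.sum_empty, add_zero] at hsplit
        rw [hsplit]
      · have h1 := flag_in (x := fun i => -x i) (y := fun i => -y i) hm
          (by rw [dg_neg]; exact m.neg_mem hx) hg
          (by rw [dg_neg, dg_neg, Matrix.mul_neg, Matrix.neg_mul, hgx])
          (fun W hW i j hij hlt => by
            have h2 : (Wᴴ) j i ≠ 0 := by
              rw [Matrix.conjTranspose_apply]
              exact star_ne_zero.2 hij
            have h3 := hP Wᴴ (hm.st W hW) j i h2 (by linarith)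
            linarith)
          Sᶜ (Nat.one_le_iff_ne_zero.2 hC0) (by omega)
          (fun i hi j hj => by
            have h2 : ¬ s ≤ x i := fun h => (Finset.mem_compl.1 hi) ((hmem i).2 h)
            have h3 : s ≤ x j := by
              by_contra h
              exact hj (Finset.mem_compl.2 fun h' => h ((hmem j).1 h'))
            linarith [not_le.1 h2])
        rw [Finset.sum_neg_distrib, Finset.sum_neg_distrib] at h1
        rw [Finset.sum_sub_distrib (s := Sᶜ)] at hsplit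
        linarith
  have hab := abel_sum x (fun i => y i - x i) hv0 hlev
  have h2 : ∑ i, (x i - y i) ^ 2 ≤ 0 := by
    have h3 : ∑ i, (x i - y i) ^ 2 = ∑ i, y i * y i - ∑ i, x i * x i -
        2 * ∑ i, x i * (y i - x i) := by
      rw [Finset.mul_sum, ← Finset.sum_sub_distrib, ← Finset.sum_sub_distrib]
      exact Finset.sum_congr rfl fun i _ => by ring
    rw [h3, hs2]
    linarith
  have h3 : ∑ i, (x i - y i) ^ 2 = 0 := le_antisymm h2 (Finset.sum_nonneg fun i _ => sq_nonneg _)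
  funext i
  have h4 := (Finset.sum_eq_zero_iff_of_nonneg (fun i _ => sq_nonneg (x i - y i))).1 h3 i
    (Finset.mem_univ i)
  exact sub_eq_zero.1 (pow_eq_zero_iff (by norm_num) |>.1 h4)

end Pool.Agent.Work.MP_0da4e0_ag.Ex
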