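import Pool.Agent.Work.MP_0da4e0_ag.Ex.SecOrd

/-! MP_0da4e0_ag, exact criterion, module KCond: the conditions at the maximum.

PROOF. second_order with B = Complex.I • A gives for all Hermitian A in m
 (1) Re tr ([B, Y] X) = 0, (2) Re tr ([B, [B, Y]] X) ≤ 0.
By cyclicity tr ([B, Y] X) = tr (B [Y, X]) = I tr (A [Y, X]), and tr ([B, [B, Y]] X) =
tr ([B, Y] [X, B]) = tr ([A, Y] [A, X]) (the factor is - I^2 = 1).
Commutation: [Y, X] = Y X - X Y is in m, skew-Hermitian ([Y, X]ᴴ = - [Y, X]), so A = I • [Y, X] is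
Hermitian in m and I tr (A [Y, X]) = - tr ([Y, X] [Y, X]) = tr ([Y, X]ᴴ [Y, X]); by (1) and
trace_star_eq_zero, [Y, X] = 0.
Second: let W in m, [X, W] = c W, c > 0. Taking conjugate transposes, [X, Wᴴ] = - c Wᴴ. Take
A = W + Wᴴ in m, Hermitian: [A, X] = - c W + c Wᴴ, [A, Y] = - [Y, W] - [Y, Wᴴ]. So
tr ([A, Y] [A, X]) = c tr ([Y, W] W) - c tr ([Y, W] Wᴴ) + c tr ([Y, Wᴴ] W) - c tr ([Y, Wᴴ] Wᴴ).
tr ([Y, W] W) = 0 and tr ([Y, Wᴴ] Wᴴ) = 0 and tr ([Y, Wᴴ] W) = - tr ([Y, W] Wᴴ) by cyclicity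
(Matrix.trace_mul_comm, Matrix.mul_assoc). So (2) says - 2 c Re tr ([Y, W] Wᴴ) ≤ 0. -/

open Matrix

namespace Pool.Agent.Work.MP_0da4e0_ag.Ex

variable {ι : Type} [Fintype ι] [DecidableEq ι]

theorem kcond {m : Submodule ℂ (Matrix ι ι ℂ)} (hm : StarLie m) {X Y : Matrix ι ι ℂ} (hX : X ∈ m)
    (hXH : Xᴴ = X) (hY : Y ∈ m) (hYH : Yᴴ = Y)
    (hmax : ∀ A ∈ m, Aᴴ = A → ∀ s : ℝ,
      (Matrix.trace ((expGL (Complex.I • A) (s : ℂ) : Matrix ι ι ℂ) * Y *
        (((expGL (Complex.I • A) (s : ℂ))⁻¹ : GL ι ℂ) : Matrix ι ι ℂ) * X)).re ≤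
        (Matrix.trace (Y * X)).re) :
    X * Y = Y * X ∧ ∀ W ∈ m, ∀ c : ℝ, 0 < c → X * W - W * X = (c : ℂ) • W →
      0 ≤ (Matrix.trace ((Y * W - W * Y) * Wᴴ)).re := by
  constructor
  · have hD : Y * X - X * Y ∈ m := hm.br Y hY X hX
    have hDH : (Y * X - X * Y)ᴴ = -(Y * X - X * Y) := by
      rw [Matrix.conjTranspose_sub, Matrix.conjTranspose_mul, Matrix.conjTranspose_mul, hXH, hYH]
      abel
    have hAH : (Complex.I • (Y * X - X * Y))ᴴ = Complex.I • (Y * X - X * Y) := by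
      rw [Matrix.conjTranspose_smul, hDH, Complex.star_def, Complex.conj_I, smul_neg, neg_smul,
        neg_neg]
    have h1 := (second_order _ Y X (hmax _ (m.smul_mem _ hD) hAH)).1
    rw [smul_smul, Complex.I_mul_I, neg_one_smul] at h1
    have h2 : Matrix.trace ((-(Y * X - X * Y) * Y - Y * -(Y * X - X * Y)) * X) =
        Matrix.trace ((Y * X - X * Y)ᴴ * (Y * X - X * Y)) := by
      rw [hDH]
      set D := Y * X - X * Y with hDd
      have t1 : Matrix.trace (Y * D * X) = Matrix.trace (D * (X * Y)) := by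
        rw [Matrix.mul_assoc, Matrix.trace_mul_comm]
        simp only [Matrix.mul_assoc]
      have e1 : (-D * Y - Y * -D) * X = Y * D * X - D * (Y * X) := by
        simp only [Matrix.sub_mul, Matrix.neg_mul, Matrix.mul_neg, Matrix.mul_assoc]
        abel
      have e2 : -D * (Y * X - X * Y) = D * (X * Y) - D * (Y * X) := by
        simp only [Matrix.neg_mul, Matrix.mul_sub]
        abel
      rw [e1, Matrix.trace_sub, t1, ← Matrix.trace_sub, ← e2, hDd]
    rw [h2] at h1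
    have h3 := trace_star_eq_zero h1
    exact (sub_eq_zero.1 h3).symm
  · intro W hW c hc hXW
    have hA : W + Wᴴ ∈ m := m.add_mem hW (hm.st W hW)
    have hAH : (W + Wᴴ)ᴴ = W + Wᴴ := by
      rw [Matrix.conjTranspose_add, Matrix.conjTranspose_conjTranspose, add_comm]
    have h1 := (second_order _ Y X (hmax _ hA hAH)).2
    have hXW' : X * Wᴴ - Wᴴ * X = -((c : ℂ) • Wᴴ) := by
      have := congrArg Matrix.conjTranspose hXW
      rw [Matrix.conjTranspose_sub, Matrix.conjTranspose_mul, Matrix.conjTranspose_mul,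
        Matrix.conjTranspose_smul, hXH, Complex.star_def, Complex.conj_ofReal] at this
      rw [← this]
      abel
    set A := W + Wᴴ with hAd
    have hXA : X * A - A * X = (c : ℂ) • (W - Wᴴ) := by
      have : X * A - A * X = (X * W - W * X) + (X * Wᴴ - Wᴴ * X) := by
        rw [hAd, Matrix.mul_add, Matrix.add_mul]
        abel
      rw [this, hXW, hXW', smul_sub]
      abel
    set C := A * Y - Y * A with hCd
    have e1 : ((Complex.I • A) * ((Complex.I • A) * Y - Y * (Complex.I • A)) -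
        ((Complex.I • A) * Y - Y * (Complex.I • A)) * (Complex.I • A)) * X =
        -(A * (C * X) - C * (A * X)) := by
      have e0 : (Complex.I • A) * Y - Y * (Complex.I • A) = Complex.I • C := by
        rw [Matrix.smul_mul, Matrix.mul_smul, ← smul_sub]
      rw [e0]
      simp only [Matrix.smul_mul, Matrix.mul_smul, smul_smul, Complex.I_mul_I, neg_one_smul,
        Matrix.sub_mul, Matrix.neg_mul, Matrix.mul_assoc]
      abel
    rw [e1, Matrix.trace_neg, Matrix.trace_sub] at h1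
    have t1 : Matrix.trace (A * (C * X)) = Matrix.trace (C * (X * A)) := by
      rw [Matrix.trace_mul_comm, Matrix.mul_assoc]
    rw [t1, ← Matrix.trace_sub, ← Matrix.mul_sub, hXA, Matrix.mul_smul, Matrix.trace_smul,
      smul_eq_mul, Complex.neg_re, Complex.re_ofReal_mul] at h1
    have t2 : Matrix.trace (C * (W - Wᴴ)) = 2 * Matrix.trace ((Y * W - W * Y) * Wᴴ) := by
      have a1 : Matrix.trace (W * (Y * W)) = Matrix.trace (Y * (W * W)) := by
        rw [Matrix.trace_mul_comm, Matrix.mul_assoc]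
      have a2 : Matrix.trace (Wᴴ * (Y * W)) = Matrix.trace (Y * (W * Wᴴ)) := by
        rw [Matrix.trace_mul_comm, Matrix.mul_assoc]
      have a3 : Matrix.trace (W * (Y * Wᴴ)) = Matrix.trace (Y * (Wᴴ * W)) := by
        rw [Matrix.trace_mul_comm, Matrix.mul_assoc]
      have a4 : Matrix.trace (Wᴴ * (Y * Wᴴ)) = Matrix.trace (Y * (Wᴴ * Wᴴ)) := by
        rw [Matrix.trace_mul_comm, Matrix.mul_assoc]
      rw [hCd, hAd]
      simp only [Matrix.add_mul, Matrix.mul_add, Matrix.sub_mul, Matrix.mul_sub, Matrix.trace_add,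
        Matrix.trace_sub, Matrix.mul_assoc, a1, a2, a3, a4]
      ring
    rw [t2] at h1
    have h2 : (2 * Matrix.trace ((Y * W - W * Y) * Wᴴ)).re =
        2 * (Matrix.trace ((Y * W - W * Y) * Wᴴ)).re := by
      simp
    rw [h2] at h1
    nlinarith

end Pool.Agent.Work.MP_0da4e0_ag.Ex
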