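import Pool.Agent.Work.MP_0da4e0_ag.Ex.Defs
import Pool.Agent.Work.MP_0da4e0_ag.WeilEig

/-! MP_0da4e0_ag, exact criterion, module UDiag: simultaneous unitary diagonalization of a space of
commuting Hermitian matrices.

PROOF. Several routes. (1) Choose an orthonormal family of common eigenvectors of F in EuclideanSpace ℂ ι
of maximal size r (r at most card ι). If r < card ι, the orthogonal complement W of its span is not
zero and is stable under all A in F (A Hermitian and the span is stable), so it contains a common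
eigenvector of F (theorem exists_common of Work/MP_0da4e0_ag/WeilEig.lean, which imports only Mathlib and
may be imported), normalize it: contradiction. So r = card ι: index the family by ι and put the vectors in
the columns of U; Uᴴ U = 1 by orthonormality; A U = U diagonal(c), and the eigenvalues c are real since A is
Hermitian. (2) Mathlib: Mathlib/Analysis/InnerProductSpace/JointEigenspace.lean: joint eigenspaces of a
commuting family of symmetric operators, applied to the operators of a finite basis of F.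
If U is a matrix with Uᴴ U = 1 then it is invertible with inverse Uᴴ (finite dimension), so an element of
GL. -/

open Matrix

namespace Pool.Agent.Work.MP_0da4e0_ag.Ex

variable {ι : Type} [Fintype ι] [DecidableEq ι]

omit [DecidableEq ι] in
private theorem udiag_step {F : Submodule ℝ (Matrix ι ι ℂ)} (hH : ∀ A ∈ F, Aᴴ = A)
    (hc : ∀ A ∈ F, ∀ B ∈ F, A * B = B * A) {r : ℕ} (hr : r < Fintype.card ι)
    (u : Fin r → ι → ℂ) (hA : ∀ i, ∀ A ∈ F, ∃ c : ℂ, A *ᵥ u i = c • u i) :
    ∃ y : ι → ℂ, star y ⬝ᵥ y = 1 ∧ (∀ i, star (u i) ⬝ᵥ y = 0) ∧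
      ∀ A ∈ F, ∃ c : ℂ, A *ᵥ y = c • y := by
  let L : (ι → ℂ) →ₗ[ℂ] (Fin r → ℂ) := Matrix.mulVecLin (Matrix.of fun i k => star (u i k))
  have hL : ∀ w i, L w i = star (u i) ⬝ᵥ w := fun w i => rfl
  have hker : LinearMap.ker L ≠ ⊥ := by
    intro h
    have h1 := LinearMap.finrank_le_finrank_of_injective (LinearMap.ker_eq_bot.1 h)
    rw [Module.finrank_fintype_fun_eq_card, Module.finrank_fintype_fun_eq_card,
      Fintype.card_fin] at h1
    omega
  obtain ⟨x, hx, hx0, hxF⟩ := exists_common (F : Set (Matrix ι ι ℂ)) hc (LinearMap.ker L) (by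
    intro A hAF w hw
    rw [LinearMap.mem_ker] at hw ⊢
    funext i
    rw [hL]
    obtain ⟨c, hc'⟩ := hA i A hAF
    have h1 : star (u i) ⬝ᵥ (A *ᵥ w) = star (A *ᵥ u i) ⬝ᵥ w := by
      rw [Matrix.dotProduct_mulVec, Matrix.star_mulVec, hH A hAF]
    have h2 : star (u i) ⬝ᵥ w = 0 := by
      rw [← hL, hw]
      rfl
    rw [h1, hc', star_smul, smul_dotProduct, h2, smul_zero]
    rfl) hker
  rw [LinearMap.mem_ker] at hx
  -- normalization
  set N : ℝ := ∑ i, Complex.normSq (x i) with hN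
  have hNx : star x ⬝ᵥ x = (N : ℂ) := by
    rw [hN, Complex.ofReal_sum]
    apply Finset.sum_congr rfl
    intro i _
    rw [Pi.star_apply, Complex.star_def, Complex.normSq_eq_conj_mul_self]
  have hNpos : 0 < N := by
    obtain ⟨i, hi⟩ := Function.ne_iff.1 hx0
    exact Finset.sum_pos' (fun i _ => Complex.normSq_nonneg _)
      ⟨i, Finset.mem_univ i, Complex.normSq_pos.2 hi⟩
  have hs : (Real.sqrt N) ≠ 0 := (Real.sqrt_pos.2 hNpos).ne'
  set k : ℂ := (((Real.sqrt N)⁻¹ : ℝ) : ℂ) with hk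
  refine ⟨k • x, ?_, ?_, ?_⟩
  · rw [star_smul, smul_dotProduct, dotProduct_smul, hNx]
    simp only [hk, smul_eq_mul, Complex.star_def, Complex.conj_ofReal]
    rw [← Complex.ofReal_mul, ← Complex.ofReal_mul, ← Complex.ofReal_one]
    congr 1
    have h3 := Real.mul_self_sqrt hNpos.le
    field_simp
    nlinarith [h3]
  · intro i
    rw [dotProduct_smul, ← hL, hx]
    simp
  · intro A hAF
    obtain ⟨c, hc'⟩ := hxF A hAF
    exact ⟨c, by rw [Matrix.mulVec_smul, hc', smul_comm]⟩

omit [DecidableEq ι] in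
private theorem udiag_family {F : Submodule ℝ (Matrix ι ι ℂ)} (hH : ∀ A ∈ F, Aᴴ = A)
    (hc : ∀ A ∈ F, ∀ B ∈ F, A * B = B * A) : ∀ r : ℕ, r ≤ Fintype.card ι →
    ∃ u : Fin r → ι → ℂ, (∀ i j, star (u i) ⬝ᵥ u j = if i = j then 1 else 0) ∧
      ∀ i, ∀ A ∈ F, ∃ c : ℂ, A *ᵥ u i = c • u i := by
  intro r
  induction r with
  | zero => exact fun _ => ⟨fun i => i.elim0, fun i => i.elim0, fun i => i.elim0⟩
  | succ r ih =>
    intro hr
    obtain ⟨u, hu, hA⟩ := ih (by omega)
    obtain ⟨y, hy, hyu, hyA⟩ := udiag_step hH hc (by omega) u hA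
    have hyu' : ∀ i, star y ⬝ᵥ u i = 0 := by
      intro i
      rw [Matrix.star_dotProduct, hyu, star_zero]
    refine ⟨Fin.cons y u, ?_, ?_⟩
    · intro i j
      refine Fin.cases ?_ (fun i => ?_) i <;> refine Fin.cases ?_ (fun j => ?_) j
      · simp [hy]
      · simp only [Fin.cons_zero, Fin.cons_succ, hyu', (Fin.succ_ne_zero j).symm, if_false]
      · simp only [Fin.cons_zero, Fin.cons_succ, hyu, (Fin.succ_ne_zero i), if_false]
      · simp only [Fin.cons_succ, hu, Fin.succ_inj]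
    · intro i
      refine Fin.cases ?_ (fun i => ?_) i
      · simpa using hyA
      · simpa using hA i

theorem exists_udiag (F : Submodule ℝ (Matrix ι ι ℂ)) (hH : ∀ A ∈ F, Aᴴ = A)
    (hc : ∀ A ∈ F, ∀ B ∈ F, A * B = B * A) :
    ∃ U : GL ι ℂ, ((U : Matrix ι ι ℂ))ᴴ * (U : Matrix ι ι ℂ) = 1 ∧
      ∀ A ∈ F, ∃ a : ι → ℝ, ((U⁻¹ : GL ι ℂ) : Matrix ι ι ℂ) * A * (U : Matrix ι ι ℂ) = dg a := by
  obtain ⟨u, hu, hA⟩ := udiag_family hH hc (Fintype.card ι) le_rfl
  let q : ι ≃ Fin (Fintype.card ι) := Fintype.equivFin ι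
  let W : Matrix ι ι ℂ := Matrix.of fun i j => u (q j) i
  have hW : Wᴴ * W = 1 := by
    ext i j
    rw [Matrix.mul_apply]
    have h1 := hu (q i) (q j)
    rw [dotProduct] at h1
    simp only [Pi.star_apply] at h1
    simp only [W, Matrix.conjTranspose_apply, Matrix.of_apply]
    rw [h1, Matrix.one_apply]
    simp
  have hW' : W * Wᴴ = 1 := mul_eq_one_comm.1 hW
  refine ⟨⟨W, Wᴴ, hW', hW⟩, hW, fun A hAF => ?_⟩
  change ∃ a : ι → ℝ, Wᴴ * A * W = dg a
  choose c hcc using fun i => hA i A hAF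
  have h1 : A * W = W * Matrix.diagonal (fun i => c (q i)) := by
    ext i j
    rw [Matrix.mul_diagonal, Matrix.mul_apply]
    have h2 := congrFun (hcc (q j)) i
    rw [Matrix.mulVec, dotProduct] at h2
    simp only [W, Matrix.of_apply]
    rw [h2, Pi.smul_apply, smul_eq_mul, mul_comm]
  have h2 : Wᴴ * A * W = Matrix.diagonal (fun i => c (q i)) := by
    rw [Matrix.mul_assoc, h1, ← Matrix.mul_assoc, hW, Matrix.one_mul]
  have h3 : (Wᴴ * A * W)ᴴ = Wᴴ * A * W := by
    rw [Matrix.conjTranspose_mul, Matrix.conjTranspose_mul, Matrix.conjTranspose_conjTranspose,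
      hH A hAF, Matrix.mul_assoc]
  refine ⟨fun i => (c (q i)).re, ?_⟩
  rw [h2] at h3 ⊢
  rw [dg]
  congr 1
  funext i
  have h4 := congrFun (congrFun h3 i) i
  rw [Matrix.conjTranspose_apply, Matrix.diagonal_apply_eq, Complex.star_def,
    Complex.conj_eq_iff_re] at h4
  exact h4.symm

end Pool.Agent.Work.MP_0da4e0_ag.Ex
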