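import Pool.Agent.Work.MP_0da4e0_ag.Ex.KMax
import Pool.Agent.Work.MP_0da4e0_ag.Ex.KCond
import Pool.Agent.Work.MP_0da4e0_ag.Ex.FlagEq
import Pool.Agent.Work.MP_0da4e0_ag.Ex.CjLem
import Pool.Agent.Work.MP_0da4e0_ag.Ex.UDiag
import Pool.Agent.Work.MP_0da4e0_ag.Ex.AdmMul

/-! MP_0da4e0_ag, exact criterion, module ExComm: a unitary admissible matrix can be moved by the unitary
part of Gp m to a matrix commuting with dg x.

PROOF. X = dg x (Hermitian), Y0 = g X g⁻¹ in m. k from exists_kmax m X Y0; Y = k Y0 k⁻¹ = (k g) X (k g)⁻¹ in m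
(Gp_norm ha), Hermitian since k g is unitary ((kg)⁻¹ = (kg)ᴴ). For A in m Hermitian and s real,
B = expGL (I • A) s is in Gp m (expGL_mem; I • A in m) and unitary (expGL_star: (I • A)ᴴ = - (I • A), then
expGL_neg_inv type identities: Bᴴ = expGL (-(I • A)) s = B⁻¹), so k' = B * k is unitary in Gp m and the
maximum property is the hypothesis hmax of kcond (k' Y0 k'⁻¹ = B Y B⁻¹). So X Y = Y X and
(1) for W in m, c > 0 with [X, W] = c W: 0 ≤ Re tr ([Y, W] Wᴴ).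
F = span over ℝ of {X, Y}: commuting Hermitian matrices; exists_udiag gives U with U⁻¹ X U = dg x',
U⁻¹ Y U = dg y. Let m' = cj U m, StarLie (cj_starLie), g' = U⁻¹ (k g) U, Adm m' g' (cj_adm, Adm.mul,
Adm.ofGp), dg x' in m', g' dg x' = dg y g' (as (k g) X = Y (k g)).
(P): let W in m', W i j ≠ 0, x' i < x' j; put c = x' j - x' i > 0 and b = y j - y i; to show: 0 ≤ b. The
matrix W2 with entries W k l if x' l - x' k = c and y l - y k = b, else 0, is in m' (Fc.fc twice: with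
t k l = x' k - x' l, s = if x' l - x' k = c then 1 else 0, and the same with y; the matrices
(x' k - x' l) W k l are commutators with dg x' in m'; dg y in m' too) and not 0. Let V = W2ᴴ in m':
[dg x', V] = c V and [dg y, V] = b V. Conjugating by U (V' = U V U⁻¹ in m, V'ᴴ = U Vᴴ U⁻¹): [X, V'] = c V',
so by (1) 0 ≤ Re tr ([Y, V'] V'ᴴ) = b Re tr (V Vᴴ), and Re tr (V Vᴴ) > 0 (trace_star_eq_zero), so 0 ≤ b.
flag_eq: x' = y, so U⁻¹ X U = U⁻¹ Y U and X = Y, i.e. (k g) X = X (k g). -/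

open Matrix

namespace Pool.Agent.Work.MP_0da4e0_ag.Ex

variable {ι : Type} [Fintype ι] [DecidableEq ι]

private theorem expGL_inv' (X : Matrix ι ι ℂ) (s : ℂ) : (expGL X s)⁻¹ = expGL (-X) s :=
  Units.ext rfl

private theorem coe_inv_of_unitary {g : GL ι ℂ}
    (h : ((g : Matrix ι ι ℂ))ᴴ * (g : Matrix ι ι ℂ) = 1) :
    ((g⁻¹ : GL ι ℂ) : Matrix ι ι ℂ) = ((g : Matrix ι ι ℂ))ᴴ := by
  have h1 : (g : Matrix ι ι ℂ) * ((g⁻¹ : GL ι ℂ) : Matrix ι ι ℂ) = 1 := by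
    rw [← Units.val_mul, mul_inv_cancel, Units.val_one]
  calc ((g⁻¹ : GL ι ℂ) : Matrix ι ι ℂ)
      = (((g : Matrix ι ι ℂ))ᴴ * (g : Matrix ι ι ℂ)) * ((g⁻¹ : GL ι ℂ) : Matrix ι ι ℂ) := by
        rw [h, Matrix.one_mul]
    _ = ((g : Matrix ι ι ℂ))ᴴ := by rw [Matrix.mul_assoc, h1, Matrix.mul_one]

omit [Fintype ι] in
private theorem dg_star (x : ι → ℝ) : (dg x)ᴴ = dg x := by
  rw [dg, Matrix.diagonal_conjTranspose]
  congr 1
  funext i
  exact Complex.conj_ofReal _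

private theorem dg_comm (x : ι → ℝ) (W : Matrix ι ι ℂ) :
    dg x * W - W * dg x = Matrix.of fun i j => (((x i - x j : ℝ)) : ℂ) * W i j := by
  ext i j
  rw [Matrix.sub_apply, dg, Matrix.diagonal_mul, Matrix.mul_diagonal, Matrix.of_apply]
  push_cast
  ring

/-- projection to an eigenspace of the commutator with a diagonal element -/
private theorem proj_mem {m : Submodule ℂ (Matrix ι ι ℂ)} (hm : StarLie m) {x : ι → ℝ}
    (hx : dg x ∈ m) (c : ℝ) {W : Matrix ι ι ℂ} (hW : W ∈ m) :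
    (Matrix.of fun i j => (if x j - x i = c then (1 : ℂ) else 0) * W i j) ∈ m := by
  refine fc m (fun i j => (((x i - x j : ℝ)) : ℂ)) _ (fun X hX => ?_) (fun i j k l h => ?_) W hW
  · rw [← dg_comm]
    exact hm.br _ hx _ hX
  · have h1 : x i - x j = x k - x l := by exact_mod_cast h
    have h2 : (x j - x i = c) = (x l - x k = c) := by
      apply propext
      constructor
      · intro h3; linarith
      · intro h3; linarith
    rw [if_congr (iff_of_eq h2) rfl rfl]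

omit [DecidableEq ι] in
/-- the key inequality for eigenvectors -/
private theorem eig_ineq {m : Submodule ℂ (Matrix ι ι ℂ)} {X Y : Matrix ι ι ℂ}
    (h1 : ∀ W ∈ m, ∀ c : ℝ, 0 < c → X * W - W * X = (c : ℂ) • W →
      0 ≤ (Matrix.trace ((Y * W - W * Y) * Wᴴ)).re)
    {W : Matrix ι ι ℂ} (hW : W ∈ m) (hW0 : W ≠ 0) {c b : ℝ} (hc : 0 < c)
    (hX : X * W - W * X = (c : ℂ) • W) (hY : Y * W - W * Y = (b : ℂ) • W) : 0 ≤ b := by
  have h2 := h1 W hW c hc hX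
  rw [hY, Matrix.smul_mul, Matrix.trace_smul, smul_eq_mul, Complex.re_ofReal_mul] at h2
  have h3 := trace_star_re (Wᴴ)
  rw [Matrix.conjTranspose_conjTranspose] at h3
  by_contra hb
  push Not at hb
  have h4 : (Matrix.trace (W * Wᴴ)).re = 0 := by nlinarith
  have h5 : Wᴴ = 0 := trace_star_eq_zero (by rw [Matrix.conjTranspose_conjTranspose]; exact h4)
  exact hW0 (by rw [← Matrix.conjTranspose_conjTranspose W, h5, Matrix.conjTranspose_zero])

theorem exists_comm {m : Submodule ℂ (Matrix ι ι ℂ)} (hm : StarLie m) (ha : Algebraic m) {x : ι → ℝ}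
    (hx : dg x ∈ m) {g : GL ι ℂ} (hg : Adm m g) (hgu : ((g : Matrix ι ι ℂ))ᴴ * (g : Matrix ι ι ℂ) = 1) :
    ∃ k ∈ Gp m, ((k : Matrix ι ι ℂ))ᴴ * (k : Matrix ι ι ℂ) = 1 ∧
      ((k * g : GL ι ℂ) : Matrix ι ι ℂ) * dg x = dg x * ((k * g : GL ι ℂ) : Matrix ι ι ℂ) := by
  obtain ⟨k, hk, hku, hkmax⟩ := exists_kmax m (dg x)
    ((g : Matrix ι ι ℂ) * dg x * ((g⁻¹ : GL ι ℂ) : Matrix ι ι ℂ))
  refine ⟨k, hk, hku, ?_⟩
  have hY0 := hg.norm _ hx
  -- the matrix of `k g`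
  set h : GL ι ℂ := k * g with hh
  have hhu : ((h : Matrix ι ι ℂ))ᴴ * (h : Matrix ι ι ℂ) = 1 := by
    rw [hh, Units.val_mul, Matrix.conjTranspose_mul, Matrix.mul_assoc, ← Matrix.mul_assoc _ _ (g : Matrix ι ι ℂ),
      hku, Matrix.one_mul, hgu]
  set Y : Matrix ι ι ℂ := (h : Matrix ι ι ℂ) * dg x * ((h⁻¹ : GL ι ℂ) : Matrix ι ι ℂ) with hYdef
  have hYk : Y = (k : Matrix ι ι ℂ) * ((g : Matrix ι ι ℂ) * dg x * ((g⁻¹ : GL ι ℂ) : Matrix ι ι ℂ)) *
      ((k⁻¹ : GL ι ℂ) : Matrix ι ι ℂ) := by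
    rw [hYdef, hh, _root_.mul_inv_rev, Units.val_mul, Units.val_mul]
    simp only [Matrix.mul_assoc]
  have hYm : Y ∈ m := by
    rw [hYk]
    exact Gp_norm ha hk hY0
  have hYH : Yᴴ = Y := by
    rw [hYdef, coe_inv_of_unitary hhu, Matrix.conjTranspose_mul, Matrix.conjTranspose_mul,
      Matrix.conjTranspose_conjTranspose, dg_star, Matrix.mul_assoc]
  have hhinv : ((h⁻¹ : GL ι ℂ) : Matrix ι ι ℂ) * (h : Matrix ι ι ℂ) = 1 := by
    rw [← Units.val_mul, inv_mul_cancel, Units.val_one]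
  have hYh : Y * (h : Matrix ι ι ℂ) = (h : Matrix ι ι ℂ) * dg x := by
    rw [hYdef, Matrix.mul_assoc, hhinv, Matrix.mul_one]
  have hmax : ∀ A ∈ m, Aᴴ = A → ∀ s : ℝ,
      (Matrix.trace ((expGL (Complex.I • A) (s : ℂ) : Matrix ι ι ℂ) * Y *
        (((expGL (Complex.I • A) (s : ℂ))⁻¹ : GL ι ℂ) : Matrix ι ι ℂ) * dg x)).re ≤
        (Matrix.trace (Y * dg x)).re := by
    intro A hA hAH s
    set B : GL ι ℂ := expGL (Complex.I • A) (s : ℂ) with hB
    have hBm : B ∈ Gp m := expGL_mem (m.smul_mem _ hA) _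
    have hBu : ((B : Matrix ι ι ℂ))ᴴ * (B : Matrix ι ι ℂ) = 1 := by
      rw [hB, expGL_star, Complex.conj_ofReal, Matrix.conjTranspose_smul, hAH, Complex.star_def,
        Complex.conj_I, neg_smul, ← expGL_inv', ← Units.val_mul, inv_mul_cancel, Units.val_one]
    have h1 := hkmax (B * k) (mul_mem hBm hk) (by
      rw [Units.val_mul, Matrix.conjTranspose_mul, Matrix.mul_assoc,
        ← Matrix.mul_assoc _ _ (k : Matrix ι ι ℂ), hBu, Matrix.one_mul, hku])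
    have e1 : ((B * k : GL ι ℂ) : Matrix ι ι ℂ) *
        ((g : Matrix ι ι ℂ) * dg x * ((g⁻¹ : GL ι ℂ) : Matrix ι ι ℂ)) *
        (((B * k)⁻¹ : GL ι ℂ) : Matrix ι ι ℂ) = (B : Matrix ι ι ℂ) * Y *
        ((B⁻¹ : GL ι ℂ) : Matrix ι ι ℂ) := by
      rw [hYk, _root_.mul_inv_rev, Units.val_mul, Units.val_mul]
      simp only [Matrix.mul_assoc]
    rw [e1, ← hYk] at h1
    exact h1
  obtain ⟨hXY, hpos⟩ := kcond hm hx (dg_star x) hYm hYH hmax
  -- simultaneous diagonalization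
  obtain ⟨U, hUu, hUF⟩ := exists_udiag (Submodule.span ℝ {dg x, Y}) (by
      intro A hA
      obtain ⟨a, b, rfl⟩ := Submodule.mem_span_pair.1 hA
      rw [Matrix.conjTranspose_add, Matrix.conjTranspose_smul, Matrix.conjTranspose_smul, dg_star,
        hYH, star_trivial, star_trivial]) (by
      intro A hA A' hA'
      obtain ⟨a, b, rfl⟩ := Submodule.mem_span_pair.1 hA
      obtain ⟨a', b', rfl⟩ := Submodule.mem_span_pair.1 hA'
      simp only [Matrix.add_mul, Matrix.mul_add, Matrix.smul_mul, Matrix.mul_smul, hXY, smul_add]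
      rw [smul_comm a a', smul_comm b b', smul_comm a b', smul_comm b a']
      abel)
  obtain ⟨x', hx'⟩ := hUF (dg x) (Submodule.subset_span (by simp))
  obtain ⟨y, hy⟩ := hUF Y (Submodule.subset_span (by simp))
  have hUU : (U : Matrix ι ι ℂ) * ((U⁻¹ : GL ι ℂ) : Matrix ι ι ℂ) = 1 := by
    rw [← Units.val_mul, mul_inv_cancel, Units.val_one]
  have hUU' : ((U⁻¹ : GL ι ℂ) : Matrix ι ι ℂ) * (U : Matrix ι ι ℂ) = 1 := by
    rw [← Units.val_mul, inv_mul_cancel, Units.val_one]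
  have c1 : ∀ A : Matrix ι ι ℂ, (U : Matrix ι ι ℂ) * (((U⁻¹ : GL ι ℂ) : Matrix ι ι ℂ) * A) = A := by
    intro A
    rw [← Matrix.mul_assoc, hUU, Matrix.one_mul]
  have c2 : ∀ A : Matrix ι ι ℂ, ((U⁻¹ : GL ι ℂ) : Matrix ι ι ℂ) * ((U : Matrix ι ι ℂ) * A) = A := by
    intro A
    rw [← Matrix.mul_assoc, hUU', Matrix.one_mul]
  have hXx : dg x = (U : Matrix ι ι ℂ) * dg x' * ((U⁻¹ : GL ι ℂ) : Matrix ι ι ℂ) := by
    rw [← hx']
    simp only [Matrix.mul_assoc, hUU, Matrix.mul_one, c1]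
  have hYy : Y = (U : Matrix ι ι ℂ) * dg y * ((U⁻¹ : GL ι ℂ) : Matrix ι ι ℂ) := by
    rw [← hy]
    simp only [Matrix.mul_assoc, hUU, Matrix.mul_one, c1]
  have hm' := cj_starLie hm hUu
  have hadm' := cj_adm ((Adm.ofGp ha hk).mul hg) U
  have hxm : dg x' ∈ cj U m := by
    change (U : Matrix ι ι ℂ) * dg x' * ((U⁻¹ : GL ι ℂ) : Matrix ι ι ℂ) ∈ m
    rw [← hXx]
    exact hx
  have hym : dg y ∈ cj U m := by
    change (U : Matrix ι ι ℂ) * dg y * ((U⁻¹ : GL ι ℂ) : Matrix ι ι ℂ) ∈ m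
    rw [← hYy]
    exact hYm
  have hgx : ((U⁻¹ * h * U : GL ι ℂ) : Matrix ι ι ℂ) * dg x' =
      dg y * ((U⁻¹ * h * U : GL ι ℂ) : Matrix ι ι ℂ) := by
    rw [Units.val_mul, Units.val_mul, ← hx', ← hy]
    simp only [Matrix.mul_assoc, c1]
    congr 1
    rw [← Matrix.mul_assoc Y, hYh, Matrix.mul_assoc]
  have hconj : ∀ (V : Matrix ι ι ℂ) (z : ι → ℝ) (Z : Matrix ι ι ℂ) (c : ℝ),
      Z = (U : Matrix ι ι ℂ) * dg z * ((U⁻¹ : GL ι ℂ) : Matrix ι ι ℂ) →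
      dg z * V - V * dg z = (c : ℂ) • V →
      Z * ((U : Matrix ι ι ℂ) * V * ((U⁻¹ : GL ι ℂ) : Matrix ι ι ℂ)) -
        ((U : Matrix ι ι ℂ) * V * ((U⁻¹ : GL ι ℂ) : Matrix ι ι ℂ)) * Z =
        (c : ℂ) • ((U : Matrix ι ι ℂ) * V * ((U⁻¹ : GL ι ℂ) : Matrix ι ι ℂ)) := by
    intro V z Z c hZ hc
    rw [hZ]
    have e : (U : Matrix ι ι ℂ) * dg z * ((U⁻¹ : GL ι ℂ) : Matrix ι ι ℂ) *
        ((U : Matrix ι ι ℂ) * V * ((U⁻¹ : GL ι ℂ) : Matrix ι ι ℂ)) -
        ((U : Matrix ι ι ℂ) * V * ((U⁻¹ : GL ι ℂ) : Matrix ι ι ℂ)) *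
        ((U : Matrix ι ι ℂ) * dg z * ((U⁻¹ : GL ι ℂ) : Matrix ι ι ℂ)) =
        (U : Matrix ι ι ℂ) * (dg z * V - V * dg z) * ((U⁻¹ : GL ι ℂ) : Matrix ι ι ℂ) := by
      simp only [Matrix.mul_assoc, c2, Matrix.mul_sub, Matrix.sub_mul]
    rw [e, hc, Matrix.mul_smul, Matrix.smul_mul]
  have hP : ∀ W ∈ cj U m, ∀ i j, W i j ≠ 0 → x' i < x' j → y i ≤ y j := by
    intro W hW i j hij hlt
    set c : ℝ := x' j - x' i with hc
    set b : ℝ := y j - y i with hb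
    have hc0 : 0 < c := by rw [hc]; linarith
    have h1 := proj_mem hm' hxm c hW
    have h2 := proj_mem hm' hym b h1
    set W2 : Matrix ι ι ℂ := Matrix.of fun i j => (if y j - y i = b then (1 : ℂ) else 0) *
      (Matrix.of fun i j => (if x' j - x' i = c then (1 : ℂ) else 0) * W i j) i j with hW2
    have hV := hm'.st _ h2
    have hV0 : (U : Matrix ι ι ℂ) * W2ᴴ * ((U⁻¹ : GL ι ℂ) : Matrix ι ι ℂ) ≠ 0 := by
      intro h0
      have h3 : W2ᴴ = 0 := by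
        have : ((U⁻¹ : GL ι ℂ) : Matrix ι ι ℂ) * ((U : Matrix ι ι ℂ) * W2ᴴ *
            ((U⁻¹ : GL ι ℂ) : Matrix ι ι ℂ)) * (U : Matrix ι ι ℂ) = W2ᴴ := by
          simp only [Matrix.mul_assoc, hUU', Matrix.mul_one, c2]
        rw [← this, h0, Matrix.mul_zero, Matrix.zero_mul]
      have h4 : W2 = 0 := by rw [← Matrix.conjTranspose_conjTranspose W2, h3, Matrix.conjTranspose_zero]
      have h5 : W2 i j = W i j := by
        rw [hW2]
        simp [hc, hb]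
      rw [h4] at h5
      exact hij h5.symm
    have hX2 : dg x' * W2ᴴ - W2ᴴ * dg x' = (c : ℂ) • W2ᴴ := by
      rw [dg_comm]
      ext k l
      rw [Matrix.of_apply, Matrix.smul_apply, smul_eq_mul]
      by_cases h3 : x' k - x' l = c
      · rw [h3]
      · have h4 : W2ᴴ k l = 0 := by
          rw [Matrix.conjTranspose_apply, hW2]
          simp [h3]
        rw [h4, mul_zero, mul_zero]
    have hY2 : dg y * W2ᴴ - W2ᴴ * dg y = (b : ℂ) • W2ᴴ := by
      rw [dg_comm]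
      ext k l
      rw [Matrix.of_apply, Matrix.smul_apply, smul_eq_mul]
      by_cases h3 : y k - y l = b
      · rw [h3]
      · have h4 : W2ᴴ k l = 0 := by
          rw [Matrix.conjTranspose_apply, hW2]
          simp [h3]
        rw [h4, mul_zero, mul_zero]
    have h6 := eig_ineq hpos hV hV0 hc0 (hconj _ _ _ _ hXx hX2) (hconj _ _ _ _ hYy hY2)
    rw [hb] at h6
    linarith
  have hfin := flag_eq hm' hxm hadm' hgx hP
  have hXeqY : dg x = Y := by rw [hXx, hYy, hfin]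
  rw [← hYh, ← hXeqY]

end Pool.Agent.Work.MP_0da4e0_ag.Ex
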