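import Mathlib

/-! MP_0da4e0_ag, exact criterion, module GenX: a generic vector of a real space of vectors.

PROOF. For every (i, j, k, l) let K(i,j,k,l) be the subspace of all a in F with a i - a j = a k - a l. Let
Q be the finite set of quadruples for which K is a proper subspace of F. A vector space over an infinite
field is not a finite union of proper subspaces (Mathlib: Subspace.biUnion_ne_univ_of_top_notMem or
Subspace.top_mem_of_biUnion_eq_univ in Mathlib/GroupTheory/CosetCover.lean; search there), so there is x in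
F outside all K(q), q in Q. If x i - x j = x k - x l then x is in K(i,j,k,l), so K(i,j,k,l) = F. -/

namespace Pool.Agent.Work.MP_0da4e0_ag.Ex

variable {ι : Type} [Fintype ι] [DecidableEq ι]

private def linf (q : ι × ι × ι × ι) : (ι → ℝ) →ₗ[ℝ] ℝ :=
  ((LinearMap.proj q.1 : (ι → ℝ) →ₗ[ℝ] ℝ) - LinearMap.proj q.2.1) -
    ((LinearMap.proj q.2.2.1 : (ι → ℝ) →ₗ[ℝ] ℝ) - LinearMap.proj q.2.2.2)

omit [Fintype ι] [DecidableEq ι] in
private theorem linf_apply (q : ι × ι × ι × ι) (a : ι → ℝ) :
    linf q a = (a q.1 - a q.2.1) - (a q.2.2.1 - a q.2.2.2) := by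
  simp [linf]

theorem exists_generic (F : Submodule ℝ (ι → ℝ)) : ∃ x ∈ F, ∀ i j k l, x i - x j = x k - x l →
    ∀ a ∈ F, a i - a j = a k - a l := by
  classical
  let K : ι × ι × ι × ι → Submodule ℝ F := fun q => LinearMap.ker ((linf q).comp F.subtype)
  let S : Finset (Submodule ℝ F) := (Finset.univ.image K).filter (fun M => M ≠ ⊤)
  have hS : (⊤ : Submodule ℝ F) ∉ S := by
    intro h
    exact (Finset.mem_filter.mp h).2 rfl
  have hne := Subspace.biUnion_ne_univ_of_top_notMem (k := ℝ) (E := F) hS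
  rw [Set.ne_univ_iff_exists_notMem] at hne
  obtain ⟨x, hx⟩ := hne
  refine ⟨x, x.2, fun i j k l h a ha => ?_⟩
  by_contra hcon
  apply hx
  rw [Set.mem_iUnion₂]
  refine ⟨K (i, j, k, l), ?_, ?_⟩
  · refine Finset.mem_filter.mpr ⟨Finset.mem_image.mpr ⟨_, Finset.mem_univ _, rfl⟩, fun htop => ?_⟩
    have : (⟨a, ha⟩ : F) ∈ K (i, j, k, l) := by rw [htop]; trivial
    have h2 : linf (i, j, k, l) a = 0 := this
    rw [linf_apply] at h2
    exact hcon (by simpa [sub_eq_zero] using h2)
  · have h2 : linf (i, j, k, l) (x : ι → ℝ) = 0 := by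
      rw [linf_apply]
      simpa [sub_eq_zero] using h
    exact h2

end Pool.Agent.Work.MP_0da4e0_ag.Ex
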