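import Pool.Agent.Work.MP_0da4e0_ag.Ex.Defs

/-! MP_0da4e0_ag, exact criterion, module MaxAb: a maximal space of commuting Hermitian elements of m.

PROOF. Consider the real subspaces F of the (finite dimensional real) space of matrices which satisfy the
first two properties; the zero subspace is one, and the dimensions are bounded by the finite real
dimension of the space of matrices. Choose F with maximal Module.finrank ℝ F (for instance Nat.find on
the complement, or Nat.findGreatest, or well-foundedness of the order on submodules of a Noetherian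
module: exists a maximal element). If A in m is Hermitian and commutes with all elements of F, then
F ⊔ span ℝ {A} satisfies the first two properties (its elements are B + r • A with B in F and r real:
m is closed under real scalars since it is a complex subspace; (r • A)ᴴ = r • A; products commute
bilinearly), hence by maximality it equals F and A is in F. -/

open Matrix

namespace Pool.Agent.Work.MP_0da4e0_ag.Ex

variable {ι : Type} [Fintype ι] [DecidableEq ι]

omit [Fintype ι] [DecidableEq ι] in
private theorem smul_mem_c (m : Submodule ℂ (Matrix ι ι ℂ)) (r : ℝ) (A : Matrix ι ι ℂ) (h : A ∈ m) :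
    r • A ∈ m := by
  have : r • A = (r : ℂ) • A := by
    ext i j
    simp
  rw [this]
  exact m.smul_mem _ h

theorem exists_maxab (m : Submodule ℂ (Matrix ι ι ℂ)) : ∃ F : Submodule ℝ (Matrix ι ι ℂ),
    (∀ A ∈ F, A ∈ m ∧ Aᴴ = A) ∧ (∀ A ∈ F, ∀ B ∈ F, A * B = B * A) ∧
    ∀ A ∈ m, Aᴴ = A → (∀ B ∈ F, A * B = B * A) → A ∈ F := by
  have hfd : Module.Finite ℝ (Matrix ι ι ℂ) := inferInstance
  have hno : IsNoetherian ℝ (Matrix ι ι ℂ) := inferInstance
  have hwf : WellFoundedGT (Submodule ℝ (Matrix ι ι ℂ)) := inferInstance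
  obtain ⟨F, ⟨hF1, hF2⟩, hmax⟩ := hwf.wf.has_min
    {F : Submodule ℝ (Matrix ι ι ℂ) | (∀ A ∈ F, A ∈ m ∧ Aᴴ = A) ∧ (∀ A ∈ F, ∀ B ∈ F, A * B = B * A)}
    ⟨⊥, by
      refine ⟨fun A hA => ?_, fun A hA B hB => ?_⟩
      · rw [Submodule.mem_bot] at hA
        subst hA
        exact ⟨m.zero_mem, by simp⟩
      · rw [Submodule.mem_bot] at hA hB
        subst hA; subst hB; rfl⟩
  refine ⟨F, hF1, hF2, fun A hAm hAh hAc => ?_⟩
  by_contra hAF
  apply hmax (F ⊔ Submodule.span ℝ {A})
  · refine ⟨fun X hX => ?_, fun X hX Y hY => ?_⟩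
    · obtain ⟨B, hB, C, hC, rfl⟩ := Submodule.mem_sup.mp hX
      obtain ⟨r, rfl⟩ := Submodule.mem_span_singleton.mp hC
      refine ⟨m.add_mem (hF1 B hB).1 (smul_mem_c m r A hAm), ?_⟩
      rw [conjTranspose_add, conjTranspose_smul, hAh, (hF1 B hB).2]
      simp
    · obtain ⟨B, hB, C, hC, rfl⟩ := Submodule.mem_sup.mp hX
      obtain ⟨r, rfl⟩ := Submodule.mem_span_singleton.mp hC
      obtain ⟨B', hB', C', hC', rfl⟩ := Submodule.mem_sup.mp hY
      obtain ⟨r', rfl⟩ := Submodule.mem_span_singleton.mp hC'
      simp only [add_mul, mul_add, smul_mul_assoc, mul_smul_comm, hF2 B hB B' hB', hAc B hB,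
        hAc B' hB']
      simp only [smul_add]
      rw [smul_comm r' r]
      abel
  · refine lt_of_le_of_ne le_sup_left ?_
    intro h
    apply hAF
    rw [h]
    exact Submodule.mem_sup_right (Submodule.mem_span_singleton_self A)

end Pool.Agent.Work.MP_0da4e0_ag.Ex
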