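import Pool.Agent.Work.MP_0da4e0_ag.Ex.CjLem
import Pool.Agent.Work.MP_0da4e0_ag.Ex.MaxAb
import Pool.Agent.Work.MP_0da4e0_ag.Ex.UDiag
import Pool.Agent.Work.MP_0da4e0_ag.Ex.GenX

/-! MP_0da4e0_ag, exact criterion, module ExReg: after a unitary change of basis there is a regular
diagonal element.

PROOF. F from exists_maxab, U from exists_udiag for F. Let
F' = {a : ι → ℝ | U (dg a) U⁻¹ ∈ F}, a real subspace of ι → ℝ (dg is real linear). Take x from
exists_generic F'. Then x in F', so U (dg x) U⁻¹ in F, in m: mem.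
gen: first let H in cj U m be Hermitian with H (dg x) = (dg x) H. Entrywise H i j * x j = x i * H i j, so
H i j = 0 or x i = x j, and x i = x j implies a i = a j for all a in F' (property of x for (i, j, i, i)).
Hence H commutes with dg a for all a in F'. Every B in F is U (dg a) U⁻¹ with a in F' (exists_udiag), so
the Hermitian matrix U H U⁻¹ (U⁻¹ = Uᴴ) of m commutes with all B in F, so it is in F (maximality), so
H = U⁻¹ (U H U⁻¹) U = dg h with h in F'. Now let A in cj U m commute with dg x. Aᴴ is in cj U m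
(cj_starLie) and commutes with dg x. H1 = A + Aᴴ and H2 = Complex.I • (A - Aᴴ) are Hermitian, in cj U m,
commute with dg x: H1 = dg h1, H2 = dg h2, and A = (1/2) • (H1 - Complex.I • H2) is diagonal with entries
a i = (h1 i - I * h2 i) / 2, and the relations follow from those of h1 and h2, which are in F'. -/

open Matrix

namespace Pool.Agent.Work.MP_0da4e0_ag.Ex

variable {ι : Type} [Fintype ι] [DecidableEq ι]

theorem exists_reg {m : Submodule ℂ (Matrix ι ι ℂ)} (hm : StarLie m) :
    ∃ (U : GL ι ℂ) (x : ι → ℝ), ((U : Matrix ι ι ℂ))ᴴ * (U : Matrix ι ι ℂ) = 1 ∧ Reg (cj U m) x := by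
  obtain ⟨F, hF1, hF2, hF3⟩ := exists_maxab m
  obtain ⟨U, hU, hUF⟩ := exists_udiag F (fun A hA => (hF1 A hA).2) hF2
  have hUi : ((U⁻¹ : GL ι ℂ) : Matrix ι ι ℂ) * (U : Matrix ι ι ℂ) = 1 := by
    rw [← Units.val_mul, inv_mul_cancel, Units.val_one]
  have hUi' : (U : Matrix ι ι ℂ) * ((U⁻¹ : GL ι ℂ) : Matrix ι ι ℂ) = 1 := by
    rw [← Units.val_mul, mul_inv_cancel, Units.val_one]
  have hUs : ((U⁻¹ : GL ι ℂ) : Matrix ι ι ℂ) = ((U : Matrix ι ι ℂ))ᴴ := by
    calc ((U⁻¹ : GL ι ℂ) : Matrix ι ι ℂ) = (((U : Matrix ι ι ℂ))ᴴ * (U : Matrix ι ι ℂ)) *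
          ((U⁻¹ : GL ι ℂ) : Matrix ι ι ℂ) := by rw [hU, Matrix.one_mul]
      _ = _ := by rw [Matrix.mul_assoc, hUi', Matrix.mul_one]
  set u : Matrix ι ι ℂ := (U : Matrix ι ι ℂ) with hu
  set w : Matrix ι ι ℂ := ((U⁻¹ : GL ι ℂ) : Matrix ι ι ℂ) with hw
  have huw : ∀ X : Matrix ι ι ℂ, w * (u * X * w) * u = X := by
    intro X
    calc w * (u * X * w) * u = (w * u) * X * (w * u) := by simp only [Matrix.mul_assoc]
      _ = X := by rw [hUi, Matrix.one_mul, Matrix.mul_one]
  have hwu : ∀ X : Matrix ι ι ℂ, u * (w * X * u) * w = X := by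
    intro X
    calc u * (w * X * u) * w = (u * w) * X * (u * w) := by simp only [Matrix.mul_assoc]
      _ = X := by rw [hUi', Matrix.one_mul, Matrix.mul_one]
  let F' : Submodule ℝ (ι → ℝ) :=
    { carrier := {a | u * dg a * w ∈ F}
      add_mem' := by
        intro a b ha hb
        change u * dg (a + b) * w ∈ F
        have h1 : dg (a + b) = dg a + dg b := by
          simp only [dg, Matrix.diagonal_add]
          congr 1
          funext i
          simp
        rw [h1, Matrix.mul_add, Matrix.add_mul]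
        exact F.add_mem ha hb
      zero_mem' := by
        change u * dg 0 * w ∈ F
        have h1 : dg (0 : ι → ℝ) = 0 := by
          simp [dg]
        rw [h1, Matrix.mul_zero, Matrix.zero_mul]
        exact F.zero_mem
      smul_mem' := by
        intro c a ha
        change u * dg (c • a) * w ∈ F
        have h1 : dg (c • a) = c • dg a := by
          ext i j
          simp only [dg, Matrix.diagonal_apply, Matrix.smul_apply]
          split_ifs with h
          · simp
          · simp
        rw [h1, Matrix.mul_smul, Matrix.smul_mul]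
        exact F.smul_mem c ha }
  obtain ⟨x, hx, hxg⟩ := exists_generic F'
  have hmemF' : ∀ a : ι → ℝ, a ∈ F' ↔ u * dg a * w ∈ F := fun a => Iff.rfl
  refine ⟨U, x, hU, (hF1 _ ((hmemF' x).1 hx)).1, ?_⟩
  -- Hermitian elements
  have key : ∀ H ∈ cj U m, Hᴴ = H → H * dg x = dg x * H → ∃ h ∈ F', H = dg h := by
    intro H hH hHs hHx
    have hHm : u * H * w ∈ m := hH
    have hent : ∀ i j, H i j ≠ 0 → x i = x j := by
      intro i j hij
      have h1 := congrFun (congrFun hHx i) j
      rw [dg, Matrix.mul_diagonal, Matrix.diagonal_mul, mul_comm] at h1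
      exact_mod_cast (mul_right_cancel₀ hij h1).symm
    have hcomm : ∀ a ∈ F', H * dg a = dg a * H := by
      intro a ha
      ext i j
      rw [dg, Matrix.mul_diagonal, Matrix.diagonal_mul]
      by_cases hij : H i j = 0
      · rw [hij, zero_mul, mul_zero]
      · have h1 := hxg i j i i (by rw [hent i j hij, sub_self]) a ha
        rw [sub_self, sub_eq_zero] at h1
        rw [h1, mul_comm]
    have hFH : u * H * w ∈ F := by
      apply hF3 _ hHm
      · rw [hUs, Matrix.conjTranspose_mul, Matrix.conjTranspose_mul,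
          Matrix.conjTranspose_conjTranspose, hHs, Matrix.mul_assoc]
      · intro B hB
        obtain ⟨a, ha⟩ := hUF B hB
        have hB' : B = u * dg a * w := by
          rw [← ha, hwu]
        have haF : a ∈ F' := by
          rw [hmemF', ← hB']
          exact hB
        rw [hB']
        calc u * H * w * (u * dg a * w) = u * H * (w * u) * dg a * w := by
              simp only [Matrix.mul_assoc]
          _ = u * (H * dg a) * w := by rw [hUi, Matrix.mul_one]; simp only [Matrix.mul_assoc]
          _ = u * (dg a * H) * w := by rw [hcomm a haF]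
          _ = u * dg a * (w * u) * H * w := by
              rw [hUi, Matrix.mul_one]; simp only [Matrix.mul_assoc]
          _ = u * dg a * w * (u * H * w) := by simp only [Matrix.mul_assoc]
    obtain ⟨h, hh⟩ := hUF _ hFH
    rw [huw] at hh
    refine ⟨h, ?_, hh⟩
    rw [hmemF', ← hh]
    exact hFH
  have hmst := cj_starLie hm hU
  intro A hA hAx
  have hdx : (dg x)ᴴ = dg x := by
    rw [dg, Matrix.diagonal_conjTranspose]
    congr 1
    funext i
    simp
  have hAs : Aᴴ * dg x = dg x * Aᴴ := by
    have h1 := congrArg Matrix.conjTranspose hAx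
    rw [Matrix.conjTranspose_mul, Matrix.conjTranspose_mul, hdx] at h1
    exact h1.symm
  obtain ⟨h1, h1F, h1e⟩ := key (A + Aᴴ) ((cj U m).add_mem hA (hmst.st A hA))
    (by rw [Matrix.conjTranspose_add, Matrix.conjTranspose_conjTranspose, add_comm])
    (by rw [Matrix.add_mul, Matrix.mul_add, hAx, hAs])
  obtain ⟨h2, h2F, h2e⟩ := key (Complex.I • (A - Aᴴ))
    ((cj U m).smul_mem _ ((cj U m).sub_mem hA (hmst.st A hA)))
    (by
      rw [Matrix.conjTranspose_smul, Matrix.conjTranspose_sub, Matrix.conjTranspose_conjTranspose,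
        Complex.star_def, Complex.conj_I, neg_smul, ← smul_neg, neg_sub])
    (by rw [Matrix.smul_mul, Matrix.mul_smul, Matrix.sub_mul, Matrix.mul_sub, hAx, hAs])
  refine ⟨fun i => ((h1 i : ℂ) - Complex.I * (h2 i : ℂ)) / 2, ?_, ?_⟩
  · have h3 : A = (1 / 2 : ℂ) • ((A + Aᴴ) - Complex.I • (Complex.I • (A - Aᴴ))) := by
      rw [smul_smul, Complex.I_mul_I, neg_smul, one_smul]
      have h4 : A + Aᴴ - -(A - Aᴴ) = (2 : ℂ) • A := by
        rw [two_smul]
        abel
      rw [h4, smul_smul]
      norm_num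
    rw [h1e, h2e] at h3
    rw [h3]
    ext i j
    simp only [dg, Matrix.smul_apply, Matrix.sub_apply, Matrix.diagonal_apply, smul_eq_mul]
    split_ifs with h
    · ring
    · ring
  · intro i j k l hijkl
    have e1 := hxg i j k l hijkl h1 h1F
    have e2 := hxg i j k l hijkl h2 h2F
    have e1' : ((h1 i : ℂ) - h1 j) = (h1 k : ℂ) - h1 l := by exact_mod_cast e1
    have e2' : ((h2 i : ℂ) - h2 j) = (h2 k : ℂ) - h2 l := by exact_mod_cast e2
    linear_combination (1 / 2 : ℂ) * e1' - (Complex.I / 2) * e2'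

end Pool.Agent.Work.MP_0da4e0_ag.Ex
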