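import Pool.Agent.Work.MP_0da4e0_ag.Ex.Defs

/-! MP_0da4e0_ag, exact criterion, module DiagAct: the action of diagonal matrices on tensors.

PROOF. Expand act and dact (dmat) for a diagonal matrix: only f = e contributes. The inverse of diagonal d in
GL is diagonal d⁻¹ (Matrix.inv_diagonal or uniqueness of the inverse). For dact one can also differentiate
(expGL of a diagonal matrix), or simply expand: in dmat every summand for j has the factors
(1 : Matrix) (e.1 i) (f.1 i) for i ≠ j and a (e.1 j) * [e.1 j = f.1 j]. -/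

open Matrix

namespace Pool.Agent.Work.MP_0da4e0_ag.Ex

variable {ι : Type} [Fintype ι] [DecidableEq ι]

omit [Fintype ι] in
private theorem sum_off {p : ℕ} (a : ι → ℂ) {u v : Fin p → ι} (h : u ≠ v) :
    (∑ j, (∏ i ∈ Finset.univ.erase j, (1 : Matrix ι ι ℂ) (u i) (v i)) *
      (Matrix.diagonal a) (u j) (v j)) = 0 := by
  obtain ⟨k, hk⟩ : ∃ k, u k ≠ v k := by
    by_contra hc
    push Not at hc
    exact h (funext hc)
  apply Finset.sum_eq_zero
  intro j _
  by_cases hj : j = k
  · subst hj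
    rw [Matrix.diagonal_apply_ne _ hk, mul_zero]
  · have h1 : ∏ i ∈ Finset.univ.erase j, (1 : Matrix ι ι ℂ) (u i) (v i) = 0 :=
      Finset.prod_eq_zero (i := k) (Finset.mem_erase.2 ⟨fun h => hj h.symm, Finset.mem_univ k⟩)
        (Matrix.one_apply_ne hk)
    rw [h1, zero_mul]

omit [Fintype ι] in
private theorem prod_off {p : ℕ} (a : ι → ℂ) {u v : Fin p → ι} (h : u ≠ v) :
    (∏ j, (Matrix.diagonal a) (u j) (v j)) = 0 := by
  obtain ⟨k, hk⟩ : ∃ k, u k ≠ v k := by
    by_contra hc
    push Not at hc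
    exact h (funext hc)
  exact Finset.prod_eq_zero (Finset.mem_univ k) (Matrix.diagonal_apply_ne _ hk)

omit [Fintype ι] in
private theorem sum_on {p : ℕ} (a : ι → ℂ) (u : Fin p → ι) :
    (∑ j, (∏ i ∈ Finset.univ.erase j, (1 : Matrix ι ι ℂ) (u i) (u i)) *
      (Matrix.diagonal a) (u j) (u j)) = ∑ j, a (u j) := by
  apply Finset.sum_congr rfl
  intro j _
  rw [Finset.prod_eq_one (fun i _ => Matrix.one_apply_eq _), one_mul, Matrix.diagonal_apply_eq]

omit [Fintype ι] in
private theorem one_off {p : ℕ} {u v : Fin p → ι} (h : u ≠ v) :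
    (∏ j, (1 : Matrix ι ι ℂ) (u j) (v j)) = 0 := by
  have := prod_off (fun _ => (1 : ℂ)) h
  rwa [Matrix.diagonal_one] at this

theorem dact_diagonal {p q : ℕ} (a : ι → ℂ) (t : Tens ι p q ℂ) (e : (Fin p → ι) × (Fin q → ι)) :
    dact (Matrix.diagonal a) t e = ((∑ j, a (e.1 j)) - ∑ j, a (e.2 j)) * t e := by
  unfold dact
  rw [Matrix.mulVec, dotProduct, Finset.sum_eq_single e]
  · congr 1
    unfold dmat
    rw [sum_on, sum_on, Finset.prod_eq_one (fun i _ => Matrix.one_apply_eq _),
      Finset.prod_eq_one (fun i _ => Matrix.one_apply_eq _), mul_one, one_mul]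
  · intro f _ hf
    have h : dmat p q (Matrix.diagonal a) e f = 0 := by
      unfold dmat
      by_cases h1 : e.1 = f.1
      · have h2 : f.2 ≠ e.2 := fun h2 => hf (Prod.ext h1.symm h2)
        rw [one_off h2, sum_off a h2, mul_zero, mul_zero, sub_zero]
      · rw [one_off h1, sum_off a h1, zero_mul, zero_mul, sub_zero]
    rw [h, zero_mul]
  · intro h
    exact absurd (Finset.mem_univ e) h

theorem act_diagonal {p q : ℕ} (g : GL ι ℂ) (d : ι → ℂ) (hg : (g : Matrix ι ι ℂ) = Matrix.diagonal d)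
    (t : Tens ι p q ℂ) (e : (Fin p → ι) × (Fin q → ι)) :
    act g t e = ((∏ j, d (e.1 j)) * ∏ j, (d (e.2 j))⁻¹) * t e := by
  have h0 : (g : Matrix ι ι ℂ) * ((g⁻¹ : GL ι ℂ) : Matrix ι ι ℂ) = 1 := by
    rw [← Units.val_mul, mul_inv_cancel, Units.val_one]
  have h1 : ∀ i j, d i * ((g⁻¹ : GL ι ℂ) : Matrix ι ι ℂ) i j = (1 : Matrix ι ι ℂ) i j := by
    intro i j
    rw [← h0, hg, Matrix.diagonal_mul]
  have h2 : ∀ i, d i ≠ 0 := by
    intro i hi
    have := h1 i i
    rw [hi, zero_mul, Matrix.one_apply_eq] at this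
    exact zero_ne_one this
  have h3 : ((g⁻¹ : GL ι ℂ) : Matrix ι ι ℂ) = Matrix.diagonal (fun i => (d i)⁻¹) := by
    ext i j
    have h4 := h1 i j
    by_cases hij : i = j
    · subst hij
      rw [Matrix.one_apply_eq] at h4
      rw [Matrix.diagonal_apply_eq]
      exact eq_inv_of_mul_eq_one_right h4
    · rw [Matrix.one_apply_ne hij] at h4
      rw [Matrix.diagonal_apply_ne _ hij]
      exact (mul_eq_zero.1 h4).resolve_left (h2 i)
  unfold act
  rw [hg, h3, Finset.sum_eq_single e]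
  · simp only [Matrix.diagonal_apply_eq]
  · intro f _ hf
    by_cases h4 : e.1 = f.1
    · have h5 : f.2 ≠ e.2 := fun h5 => hf (Prod.ext h4.symm h5)
      rw [prod_off _ h5, mul_zero, zero_mul]
    · rw [prod_off _ h4, zero_mul, zero_mul]
  · intro h
    exact absurd (Finset.mem_univ e) h

end Pool.Agent.Work.MP_0da4e0_ag.Ex
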