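import Mathlib

/-! MP_0da4e0_ag, exact criterion, module ExtCh: extension of a character to the lattice of weights.

PROOF. First, for p in R the multiset {p, (p.2, p.1)} has sum zero, so χ p * χ (p.2, p.1) = 1 and χ p ≠ 0.
Let A = ι → ℤ, N = {n ∈ A | ∀ a ∈ H, ∑ n i a i = 0} (AddSubgroup), Q = A ⧸ N, M = Additive ℂˣ. Let Γ be the
subgroup of Q × M generated by the elements (class of e_(p.1) - e_(p.2), χ p), p in R (e_i = Pi.single i 1,
χ p as a unit). Claim: (0, z) in Γ implies z = 0. An element of Γ is a finite sum of generators and their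
negatives (AddSubgroup.closure_induction, or AddSubgroup.mem_closure and lists), and the negative of the
generator of p is the generator of (p.2, p.1) (which is in R by hR). So Γ is the additive monoid generated by
the generators: an element is given by a multiset r of elements of R; its first component is 0 iff for all
a in H the sum over r of (a p.1 - a p.2) is 0, and then the second component is the product of the χ p,
which is 1 by hz.
So the projection of Γ to Q is injective, with image S: there is a homomorphism φ : S → M with φ (class of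
e_(p.1) - e_(p.2)) = χ p. M is divisible (roots exist in ℂ: IsAlgClosed / Complex.cpow), so φ extends to a
homomorphism Q → M (divisible groups are injective: Mathlib Module.Baer for ℤ, e.g. Module.Baer.of_divisible,
AddCommGrpCat injectivity, or AddCommGroup extension lemmas; alternatively do the extension by hand: A is
finitely generated, so one can extend one generator at a time, or use Zorn). Compose with A → Q to get
ψ : A → M which is trivial on N. Put d i = ψ e_i (a unit of ℂ). Then ∏ d i ^ n i = ψ n = 1 for n in N, and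
d p.1 = χ p * d p.2. -/

namespace Pool.Agent.Work.MP_0da4e0_ag.Ex

variable {ι : Type} [Fintype ι] [DecidableEq ι]

private theorem unit_root (n : ℤ) (hn : n ≠ 0) (u : ℂˣ) : ∃ w : ℂˣ, w ^ n = u := by
  have h : 0 < n.natAbs := Int.natAbs_pos.2 hn
  rcases Int.natAbs_eq n with h1 | h1
  · obtain ⟨z, hz⟩ := IsAlgClosed.exists_pow_nat_eq (u : ℂ) h
    have hz0 : z ≠ 0 := by
      rintro rfl
      rw [zero_pow h.ne'] at hz
      exact u.ne_zero hz.symm
    refine ⟨Units.mk0 z hz0, ?_⟩
    rw [h1, zpow_natCast]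
    apply Units.ext
    rw [Units.val_pow_eq_pow_val, Units.val_mk0]
    exact hz
  · obtain ⟨z, hz⟩ := IsAlgClosed.exists_pow_nat_eq ((u⁻¹ : ℂˣ) : ℂ) h
    have hz0 : z ≠ 0 := by
      rintro rfl
      rw [zero_pow h.ne'] at hz
      exact (u⁻¹).ne_zero hz.symm
    refine ⟨Units.mk0 z hz0, ?_⟩
    rw [h1, zpow_neg, zpow_natCast, inv_eq_iff_eq_inv]
    apply Units.ext
    rw [Units.val_pow_eq_pow_val, Units.val_mk0]
    exact hz

private theorem prod_swap {R : Set (ι × ι)} {χ : ι × ι → ℂ}
    (hχ : ∀ p ∈ R, χ p * χ (p.2, p.1) = 1) (r : Multiset (ι × ι)) (hr : ∀ p ∈ r, p ∈ R) :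
    (r.map fun p => χ (p.2, p.1)).prod * (r.map χ).prod = 1 := by
  induction r using Multiset.induction_on with
  | empty => simp
  | cons p r ih =>
    rw [Multiset.map_cons, Multiset.map_cons, Multiset.prod_cons, Multiset.prod_cons]
    have h1 := hχ p (hr p (Multiset.mem_cons_self _ _))
    have h2 := ih fun q hq => hr q (Multiset.mem_cons_of_mem hq)
    calc χ (p.2, p.1) * (r.map fun p => χ (p.2, p.1)).prod * (χ p * (r.map χ).prod) =
        (χ p * χ (p.2, p.1)) * ((r.map fun p => χ (p.2, p.1)).prod * (r.map χ).prod) := by ring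
      _ = 1 := by rw [h1, h2, one_mul]

private theorem sum_swap (a : ι → ℂ) (r : Multiset (ι × ι)) :
    (r.map fun p => a p.2 - a p.1).sum = -(r.map fun p => a p.1 - a p.2).sum := by
  induction r using Multiset.induction_on with
  | empty => simp
  | cons p r ih =>
    rw [Multiset.map_cons, Multiset.map_cons, Multiset.sum_cons, Multiset.sum_cons, ih]
    ring

/-- the graph of the character -/
private def Gam (H : Set (ι → ℂ)) (R : Set (ι × ι)) (hR : ∀ p ∈ R, (p.2, p.1) ∈ R)
    (χ : ι × ι → ℂ) (hχ : ∀ p ∈ R, χ p * χ (p.2, p.1) = 1) :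
    AddSubgroup ((ι → ℤ) × Additive ℂˣ) where
  carrier := {q | ∃ r : Multiset (ι × ι), (∀ p ∈ r, p ∈ R) ∧
    (∀ a ∈ H, ∑ i, (q.1 i : ℂ) * a i = (r.map (fun p => a p.1 - a p.2)).sum) ∧
    ((Additive.toMul q.2 : ℂˣ) : ℂ) = (r.map χ).prod}
  add_mem' := by
    rintro q q' ⟨r, h1, h2, h3⟩ ⟨r', h1', h2', h3'⟩
    refine ⟨r + r', fun p hp => ?_, fun a ha => ?_, ?_⟩
    · rcases Multiset.mem_add.1 hp with hp | hp
      · exact h1 p hp
      · exact h1' p hp
    · rw [Multiset.map_add, Multiset.sum_add, ← h2 a ha, ← h2' a ha, ← Finset.sum_add_distrib]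
      refine Finset.sum_congr rfl fun i _ => ?_
      show ((q.1 i + q'.1 i : ℤ) : ℂ) * a i = _
      push_cast
      ring
    · rw [Multiset.map_add, Multiset.prod_add, ← h3, ← h3']
      rfl
  zero_mem' := by
    refine ⟨0, fun p hp => absurd hp (Multiset.notMem_zero p), fun a ha => ?_, ?_⟩
    · simp
    · simp
  neg_mem' := by
    rintro q ⟨r, h1, h2, h3⟩
    refine ⟨r.map fun p => (p.2, p.1), fun p hp => ?_, fun a ha => ?_, ?_⟩
    · obtain ⟨p', hp', rfl⟩ := Multiset.mem_map.1 hp
      exact hR p' (h1 p' hp')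
    · rw [Multiset.map_map]
      show _ = (r.map fun p => a p.2 - a p.1).sum
      rw [sum_swap, ← h2 a ha, ← Finset.sum_neg_distrib]
      refine Finset.sum_congr rfl fun i _ => ?_
      show ((-q.1 i : ℤ) : ℂ) * a i = _
      push_cast
      ring
    · rw [Multiset.map_map]
      show ((Additive.toMul q.2 : ℂˣ)⁻¹ : ℂˣ).val = (r.map fun p => χ (p.2, p.1)).prod
      rw [Units.val_inv_eq_inv_val, h3]
      exact (eq_inv_of_mul_eq_one_left (prod_swap hχ r h1)).symm

theorem exists_char (H : Set (ι → ℂ)) (R : Set (ι × ι)) (hR : ∀ p ∈ R, (p.2, p.1) ∈ R)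
    (χ : ι × ι → ℂ)
    (hz : ∀ r : Multiset (ι × ι), (∀ p ∈ r, p ∈ R) →
      (∀ a ∈ H, (r.map (fun p => a p.1 - a p.2)).sum = 0) → (r.map χ).prod = 1) :
    ∃ d : ι → ℂ, (∀ i, d i ≠ 0) ∧ (∀ p ∈ R, d p.1 = χ p * d p.2) ∧
      ∀ n : ι → ℤ, (∀ a ∈ H, ∑ i, (n i : ℂ) * a i = 0) → ∏ i, d i ^ n i = 1 := by
  have hχ : ∀ p ∈ R, χ p * χ (p.2, p.1) = 1 := by
    intro p hp
    have h := hz {p, (p.2, p.1)} (fun q hq => by
      rw [Multiset.insert_eq_cons, Multiset.mem_cons, Multiset.mem_singleton] at hq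
      rcases hq with rfl | rfl
      · exact hp
      · exact hR p hp) (fun a _ => by simp)
    simpa using h
  have hχ0 : ∀ p ∈ R, χ p ≠ 0 := fun p hp h0 => by
    have := hχ p hp
    rw [h0, zero_mul] at this
    exact zero_ne_one this
  have hdiv : DivisibleBy (Additive ℂˣ) ℤ := divisibleByOfSMulRightSurj _ _ fun {n} hn x => by
    obtain ⟨w, hw⟩ := unit_root n hn (Additive.toMul x)
    exact ⟨Additive.ofMul w, congrArg Additive.ofMul hw⟩
  let Γ := Gam H R hR χ hχ
  let f : Γ →+ (ι → ℤ) := (AddMonoidHom.fst _ _).comp Γ.subtype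
  let g : Γ →+ Additive ℂˣ := (AddMonoidHom.snd _ _).comp Γ.subtype
  have hf : Function.Injective f := by
    rw [injective_iff_map_eq_zero]
    rintro ⟨⟨n, z⟩, r, h1, h2, h3⟩ h0
    have hn : n = 0 := h0
    subst hn
    have h4 := hz r h1 fun a ha => by
      rw [← h2 a ha]
      simp
    rw [h4] at h3
    have hz0 : z = 0 := by
      have h5 : (Additive.toMul z : ℂˣ) = 1 := Units.ext h3
      exact congrArg Additive.ofMul h5
    subst hz0
    rfl
  obtain ⟨h, hh⟩ := (Module.Baer.of_divisible (Additive ℂˣ)).extension_property_addMonoidHom f hf g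
  have hhq : ∀ (n : ι → ℤ) (z : Additive ℂˣ), (n, z) ∈ Γ → h n = z := fun n z hm =>
    DFunLike.congr_fun hh (⟨(n, z), hm⟩ : Γ)
  refine ⟨fun i => ((Additive.toMul (h (Pi.single i 1)) : ℂˣ) : ℂ), fun i => Units.ne_zero _,
    fun p hp => ?_, fun n hn => ?_⟩
  · have hm : ((Pi.single p.1 1 - Pi.single p.2 1 : ι → ℤ),
        Additive.ofMul (Units.mk0 (χ p) (hχ0 p hp))) ∈ Γ := by
      refine ⟨{p}, fun q hq => ?_, fun a _ => ?_, ?_⟩
      · rw [Multiset.mem_singleton] at hq
        rw [hq]
        exact hp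
      · simp only [Multiset.map_singleton, Multiset.sum_singleton, Pi.sub_apply, Int.cast_sub,
          sub_mul, Finset.sum_sub_distrib]
        congr 1 <;>
        · rw [Finset.sum_eq_single_of_mem _ (Finset.mem_univ _) (fun j _ hj => by
            rw [Pi.single_eq_of_ne hj, Int.cast_zero, zero_mul])]
          rw [Pi.single_eq_same, Int.cast_one, one_mul]
      · simp
    have h1 := hhq _ _ hm
    rw [map_sub] at h1
    have h2 : h (Pi.single p.1 1) = Additive.ofMul (Units.mk0 (χ p) (hχ0 p hp)) +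
        h (Pi.single p.2 1) := by
      rw [← h1, sub_add_cancel]
    show ((Additive.toMul (h (Pi.single p.1 1)) : ℂˣ) : ℂ) = _
    rw [h2]
    rfl
  · have hm : (n, (0 : Additive ℂˣ)) ∈ Γ := by
      refine ⟨0, fun p hp => absurd hp (Multiset.notMem_zero p), fun a ha => ?_, ?_⟩
      · show ∑ i, (n i : ℂ) * a i = _
        rw [hn a ha]
        simp
      · simp
    have h1 := hhq _ _ hm
    have h2 : n = ∑ i, n i • (Pi.single i 1 : ι → ℤ) := by
      funext j
      rw [Finset.sum_apply, Finset.sum_eq_single_of_mem j (Finset.mem_univ _) (fun k _ hk => by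
        rw [Pi.smul_apply, Pi.single_eq_of_ne (Ne.symm hk), smul_zero])]
      rw [Pi.smul_apply, Pi.single_eq_same, smul_eq_mul, mul_one]
    rw [h2, map_sum] at h1
    simp only [map_zsmul] at h1
    have h3 : (∏ i, (Additive.toMul (h (Pi.single i 1)) : ℂˣ) ^ n i : ℂˣ) = 1 :=
      congrArg Additive.toMul h1
    have h4 := congrArg (Units.val) h3
    rw [Units.coe_prod] at h4
    simpa [Units.val_zpow_eq_zpow_val] using h4

end Pool.Agent.Work.MP_0da4e0_ag.Ex
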