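import Pool.Agent.Work.MP_0da4e0_ag.Ex.Defs

/-! MP_0da4e0_ag, exact criterion, module RootH: the coroot [e, eᴴ] of an eigenvector e of ad (dg x).

Notation: W has weight c if W i j ≠ 0 implies x i - x j = c.
PROOFS.
(1) E = e eᴴ - eᴴ e is in m and commutes with dg x: (e eᴴ) i j = ∑ k, e i k * conj (e j k), nonzero terms have
x i - x k = c = x j - x k, so x i = x j; the same for eᴴ e. By hreg.gen, E = diagonal a with the relations. E
is Hermitian, so a is real: a = (fun i => (b i : ℂ)), b i = (a i).re. So E = dg b.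
Positivity: for (p, q) with x p - x q = c, b p - b q = β does not depend on (p, q) by the relations, and
[E, e] = β e, as e i j ≠ 0 implies x i - x j = c. tr ([E, e] eᴴ) = tr (E (e eᴴ - eᴴ e)) = tr (E E) (cyclicity),
so β tr (eᴴ e) = tr (Eᴴ E) (real numbers). If c ≠ 0 then E ≠ 0: tr ((dg x) E) = tr ([dg x, e] eᴴ) =
c tr (e eᴴ) ≠ 0. So β > 0.
(2) if x i = x j implies a i = a j then g, which commutes with dg x, commutes with diagonal a: g i j * x j =
x i * g i j, so g i j ≠ 0 implies x i = x j. -/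

open Matrix

namespace Pool.Agent.Work.MP_0da4e0_ag.Ex

variable {ι : Type} [Fintype ι] [DecidableEq ι]

private theorem weight_sum (y : ι → ℝ) (e : Matrix ι ι ℂ) :
    ∑ i, y i * (∑ k, Complex.normSq (e i k) - ∑ k, Complex.normSq (e k i)) =
      ∑ i, ∑ k, (y i - y k) * Complex.normSq (e i k) := by
  have h1 : ∑ i, y i * ∑ k, Complex.normSq (e k i) = ∑ i, ∑ k, y k * Complex.normSq (e i k) := by
    rw [Finset.sum_comm]
    apply Finset.sum_congr rfl
    intro i _
    rw [Finset.mul_sum]
  simp only [mul_sub, Finset.sum_sub_distrib, sub_mul, h1]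
  congr 1
  apply Finset.sum_congr rfl
  intro i _
  rw [Finset.mul_sum]

theorem exists_coroot {m : Submodule ℂ (Matrix ι ι ℂ)} (hm : StarLie m) {x : ι → ℝ} (hreg : Reg m x)
    {c : ℝ} (hc : c ≠ 0) {e : Matrix ι ι ℂ} (he : e ∈ m) (he0 : e ≠ 0)
    (hec : ∀ i j, e i j ≠ 0 → x i - x j = c) :
    ∃ b : ι → ℝ, e * eᴴ - eᴴ * e = dg b ∧ dg b ∈ m ∧
      (∀ i j k l, x i - x j = x k - x l → b i - b j = b k - b l) ∧
      ∀ i j, x i - x j = c → 0 < b i - b j := by
  have hEm : e * eᴴ - eᴴ * e ∈ m := hm.br e he _ (hm.st e he)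
  have hw1 : ∀ i j, (e * eᴴ) i j ≠ 0 → x i = x j := by
    intro i j hij
    rw [Matrix.mul_apply] at hij
    obtain ⟨k, _, hk⟩ := Finset.exists_ne_zero_of_sum_ne_zero hij
    rw [Matrix.conjTranspose_apply] at hk
    have h1 := hec i k (left_ne_zero_of_mul hk)
    have h2 := hec j k (fun h => right_ne_zero_of_mul hk (by rw [h, star_zero]))
    linarith
  have hw2 : ∀ i j, (eᴴ * e) i j ≠ 0 → x i = x j := by
    intro i j hij
    rw [Matrix.mul_apply] at hij
    obtain ⟨k, _, hk⟩ := Finset.exists_ne_zero_of_sum_ne_zero hij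
    rw [Matrix.conjTranspose_apply] at hk
    have h1 := hec k j (right_ne_zero_of_mul hk)
    have h2 := hec k i (fun h => left_ne_zero_of_mul hk (by rw [h, star_zero]))
    linarith
  have hw : ∀ i j, (e * eᴴ - eᴴ * e) i j ≠ 0 → x i = x j := by
    intro i j hij
    by_contra hne
    apply hij
    have h1 : (e * eᴴ) i j = 0 := by
      by_contra h
      exact hne (hw1 i j h)
    have h2 : (eᴴ * e) i j = 0 := by
      by_contra h
      exact hne (hw2 i j h)
    rw [Matrix.sub_apply, h1, h2, sub_zero]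
  have hcomm : (e * eᴴ - eᴴ * e) * dg x = dg x * (e * eᴴ - eᴴ * e) := by
    ext i j
    rw [dg, Matrix.mul_diagonal, Matrix.diagonal_mul]
    by_cases h : (e * eᴴ - eᴴ * e) i j = 0
    · rw [h, zero_mul, mul_zero]
    · rw [hw i j h, mul_comm]
  obtain ⟨a, ha, hrel⟩ := hreg.gen _ hEm hcomm
  set b : ι → ℝ := fun i => ∑ k, Complex.normSq (e i k) - ∑ k, Complex.normSq (e k i) with hb
  have hab : ∀ i, a i = (b i : ℂ) := by
    intro i
    have h1 := congrFun (congrFun ha i) i
    rw [Matrix.diagonal_apply_eq, Matrix.sub_apply, Matrix.mul_apply, Matrix.mul_apply] at h1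
    rw [← h1, hb]
    push_cast
    congr 1
    · apply Finset.sum_congr rfl
      intro k _
      rw [Matrix.conjTranspose_apply, Complex.star_def, Complex.mul_conj]
    · apply Finset.sum_congr rfl
      intro k _
      rw [Matrix.conjTranspose_apply, Complex.star_def, mul_comm, Complex.mul_conj]
  have hEb : e * eᴴ - eᴴ * e = dg b := by
    rw [ha, dg]
    congr 1
    funext i
    exact hab i
  have hbrel : ∀ i j k l, x i - x j = x k - x l → b i - b j = b k - b l := by
    intro i j k l h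
    have h1 := hrel i j k l h
    rw [hab, hab, hab, hab] at h1
    exact_mod_cast h1
  refine ⟨b, hEb, hEb ▸ hEm, hbrel, ?_⟩
  -- a nonzero entry
  have hex : ∃ p q, e p q ≠ 0 := by
    by_contra hcon
    push Not at hcon
    apply he0
    ext p q
    exact hcon p q
  obtain ⟨p, q, hpq⟩ := hex
  have hN : 0 < ∑ i, ∑ k, Complex.normSq (e i k) := by
    refine Finset.sum_pos' (fun i _ => Finset.sum_nonneg fun k _ => Complex.normSq_nonneg _)
      ⟨p, Finset.mem_univ _, ?_⟩
    exact Finset.sum_pos' (fun k _ => Complex.normSq_nonneg _)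
      ⟨q, Finset.mem_univ _, Complex.normSq_pos.2 hpq⟩
  have key : ∀ (y : ι → ℝ) (β : ℝ), (∀ i k, e i k ≠ 0 → y i - y k = β) →
      ∑ i, y i * b i = β * ∑ i, ∑ k, Complex.normSq (e i k) := by
    intro y β hy
    have h1 := weight_sum y e
    rw [hb, h1, Finset.mul_sum]
    apply Finset.sum_congr rfl
    intro i _
    rw [Finset.mul_sum]
    apply Finset.sum_congr rfl
    intro k _
    by_cases h : e i k = 0
    · rw [h, map_zero, mul_zero, mul_zero]
    · rw [hy i k h]
  have h1 := key x c hec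
  have h2 := key b (b p - b q) (fun i k hik => hbrel i k p q (by rw [hec i k hik, hec p q hpq]))
  have hbne : ∃ i, b i ≠ 0 := by
    by_contra hcon
    push Not at hcon
    have : ∑ i, x i * b i = 0 := Finset.sum_eq_zero fun i _ => by rw [hcon i, mul_zero]
    rw [this] at h1
    exact (mul_ne_zero hc hN.ne') h1.symm
  obtain ⟨i0, hi0⟩ := hbne
  have h3 : 0 < ∑ i, b i * b i :=
    Finset.sum_pos' (fun i _ => mul_self_nonneg _) ⟨i0, Finset.mem_univ _, mul_self_pos.2 hi0⟩
  rw [h2] at h3
  have h4 : 0 < b p - b q := (pos_iff_pos_of_mul_pos h3).2 hN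
  intro i j hij
  rw [hbrel i j p q (by rw [hij, hec p q hpq])]
  exact h4

theorem comm_diag {x : ι → ℝ} {a : ι → ℂ} (ha : ∀ i j, x i = x j → a i = a j) {g : Matrix ι ι ℂ}
    (hg : g * dg x = dg x * g) : g * Matrix.diagonal a = Matrix.diagonal a * g := by
  ext i j
  have h1 := congrFun (congrFun hg i) j
  rw [dg, Matrix.mul_diagonal, Matrix.diagonal_mul] at h1
  rw [Matrix.mul_diagonal, Matrix.diagonal_mul]
  by_cases h : g i j = 0
  · rw [h, zero_mul, mul_zero]
  · have h2 : (x i : ℂ) = (x j : ℂ) := by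
      rw [mul_comm (g i j)] at h1
      exact (mul_right_cancel₀ h h1).symm
    have h3 : x i = x j := by exact_mod_cast h2
    rw [ha i j h3, mul_comm]

end Pool.Agent.Work.MP_0da4e0_ag.Ex
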