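import Pool.Agent.Work.MP_0da4e0_ag.Ex.BrNe
import Pool.Agent.Work.MP_0da4e0_ag.Ex.RootH

/-! MP_0da4e0_ag, exact criterion, module RootSc: conjugation by g is a scalar on every root space.

Let m_c be the subspace of the W in m of weight c (W i j ≠ 0 → x i - x j = c), T W = g W g⁻¹. T maps m_c
to m_c (hgn; g commutes with dg x, so [dg x, T W] = T [dg x, W] = c T W, which means weight c).
PROOF. If c = 0: W in m_0 commutes with dg x, so W = diagonal a by hreg.gen with x i = x j → a i = a j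
(relation for (i, j, j, j)), so T W = W by comm_diag: χ = 1. If m_c = 0: χ = 1. Let c ≠ 0, m_c ≠ 0. T has an
eigenvector e in m_c (Module.End.exists_eigenvalue on the finite dimensional space m_c over ℂ), T e = χ e,
e ≠ 0. g is unitary (g⁻¹ = gᴴ), so T preserves tr (Wᴴ W) and T (Wᴴ) = (T W)ᴴ; hence |χ| = 1, i.e.
χ * conj χ = 1, χ ≠ 0. Let v in m_c. The matrix [e, vᴴ] is in m (hm), has weight c - c = 0, so T fixes it
(case c = 0): [e, vᴴ] = T [e, vᴴ] = [T e, (T v)ᴴ] = χ [e, (T v)ᴴ], and v' = conj χ • T v - v satisfies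
[e, v'ᴴ] = χ [e, (T v)ᴴ] - [e, vᴴ] = 0. Suppose v' ≠ 0. exists_coroot for e: b with E = [e, eᴴ] = dg b and
b i - b j > 0 when x i - x j = c; all these numbers are equal to one number β > 0 (relations). v'ᴴ has weight
-c: (v'ᴴ) i j ≠ 0 implies x j - x i = c, so [dg b, v'ᴴ] = -β v'ᴴ. bracket_ne with -β < 0: [e, v'ᴴ] ≠ 0,
contradiction. So v' = 0: v = conj χ • T v, and T v = χ v. -/

open Matrix

namespace Pool.Agent.Work.MP_0da4e0_ag.Ex

variable {ι : Type} [Fintype ι] [DecidableEq ι]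

private theorem wt_iff {x : ι → ℝ} {c : ℝ} {W : Matrix ι ι ℂ} :
    (∀ i j, W i j ≠ 0 → x i - x j = c) ↔ dg x * W - W * dg x = (c : ℂ) • W := by
  constructor
  · intro h
    ext i j
    rw [Matrix.sub_apply, dg, Matrix.diagonal_mul, Matrix.mul_diagonal, Matrix.smul_apply, smul_eq_mul]
    by_cases h0 : W i j = 0
    · rw [h0, mul_zero, zero_mul, mul_zero, sub_zero]
    · rw [← h i j h0]
      push_cast
      ring
  · intro h i j hij
    have h1 := congrFun (congrFun h i) j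
    rw [Matrix.sub_apply, dg, Matrix.diagonal_mul, Matrix.mul_diagonal, Matrix.smul_apply,
      smul_eq_mul] at h1
    have h2 : ((x i - x j : ℝ) : ℂ) = (c : ℂ) := by
      apply mul_right_cancel₀ hij
      rw [← h1]
      push_cast
      ring
    exact_mod_cast h2

private theorem dg_star (x : ι → ℝ) : (dg x)ᴴ = dg x := by
  rw [dg, Matrix.diagonal_conjTranspose]
  congr 1
  funext i
  exact Complex.conj_ofReal _

theorem root_scalar {m : Submodule ℂ (Matrix ι ι ℂ)} (hm : StarLie m) {x : ι → ℝ} (hreg : Reg m x)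
    {g : GL ι ℂ} (hgn : ∀ X ∈ m, (g : Matrix ι ι ℂ) * X * ((g⁻¹ : GL ι ℂ) : Matrix ι ι ℂ) ∈ m)
    (hgu : ((g : Matrix ι ι ℂ))ᴴ * (g : Matrix ι ι ℂ) = 1)
    (hgx : (g : Matrix ι ι ℂ) * dg x = dg x * (g : Matrix ι ι ℂ)) (c : ℝ) :
    ∃ χ : ℂ, χ ≠ 0 ∧ ∀ W ∈ m, (∀ i j, W i j ≠ 0 → x i - x j = c) →
      (g : Matrix ι ι ℂ) * W * ((g⁻¹ : GL ι ℂ) : Matrix ι ι ℂ) = χ • W := by
  have hgi : (g : Matrix ι ι ℂ) * ((g⁻¹ : GL ι ℂ) : Matrix ι ι ℂ) = 1 := by
    rw [← Units.val_mul, mul_inv_cancel, Units.val_one]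
  have hig : ((g⁻¹ : GL ι ℂ) : Matrix ι ι ℂ) * (g : Matrix ι ι ℂ) = 1 := by
    rw [← Units.val_mul, inv_mul_cancel, Units.val_one]
  have hinv : ((g⁻¹ : GL ι ℂ) : Matrix ι ι ℂ) = (g : Matrix ι ι ℂ)ᴴ := by
    calc ((g⁻¹ : GL ι ℂ) : Matrix ι ι ℂ) =
        ((g : Matrix ι ι ℂ)ᴴ * (g : Matrix ι ι ℂ)) * ((g⁻¹ : GL ι ℂ) : Matrix ι ι ℂ) := by
          rw [hgu, Matrix.one_mul]
      _ = _ := by rw [Matrix.mul_assoc, hgi, Matrix.mul_one]
  have hix : ((g⁻¹ : GL ι ℂ) : Matrix ι ι ℂ) * dg x = dg x * ((g⁻¹ : GL ι ℂ) : Matrix ι ι ℂ) := by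
    have h := congrArg Matrix.conjTranspose hgx
    rw [Matrix.conjTranspose_mul, Matrix.conjTranspose_mul, dg_star, ← hinv] at h
    exact h.symm
  set T : Matrix ι ι ℂ → Matrix ι ι ℂ :=
    fun W => (g : Matrix ι ι ℂ) * W * ((g⁻¹ : GL ι ℂ) : Matrix ι ι ℂ) with hT
  have hTm : ∀ A B, T (A * B) = T A * T B := by
    intro A B
    calc (g : Matrix ι ι ℂ) * (A * B) * ((g⁻¹ : GL ι ℂ) : Matrix ι ι ℂ) =
        (g : Matrix ι ι ℂ) * A * 1 * (B * ((g⁻¹ : GL ι ℂ) : Matrix ι ι ℂ)) := by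
          simp only [Matrix.mul_assoc, Matrix.mul_one, Matrix.one_mul]
      _ = _ := by
          rw [← hig]
          simp only [hT, Matrix.mul_assoc]
  have hTs : ∀ A B, T (A - B) = T A - T B := fun A B => by
    simp only [hT, Matrix.mul_sub, Matrix.sub_mul]
  have hTst : ∀ A, T Aᴴ = (T A)ᴴ := by
    intro A
    simp only [hT]
    rw [hinv, Matrix.conjTranspose_mul, Matrix.conjTranspose_mul, Matrix.conjTranspose_conjTranspose,
      Matrix.mul_assoc]
  have hTsm : ∀ (a : ℂ) A, T (a • A) = a • T A := fun a A => by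
    simp only [hT, Matrix.mul_smul, Matrix.smul_mul]
  have hTx : T (dg x) = dg x := by
    simp only [hT]
    rw [hgx, Matrix.mul_assoc, hgi, Matrix.mul_one]
  have hTw : ∀ (c : ℝ) A, dg x * A - A * dg x = (c : ℂ) • A →
      dg x * T A - T A * dg x = (c : ℂ) • T A := by
    intro c A hA
    rw [← hTsm, ← hA, hTs, hTm, hTm, hTx]
  have hfix : ∀ A ∈ m, A * dg x = dg x * A → T A = A := by
    intro A hA hAx
    obtain ⟨a, rfl, ha⟩ := hreg.gen A hA hAx
    have h1 := comm_diag (a := a) (fun i j hij => by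
      have h2 := ha i j j j (by rw [hij])
      rw [sub_self] at h2
      exact sub_eq_zero.1 h2) hgx
    simp only [hT]
    rw [h1, Matrix.mul_assoc, hgi, Matrix.mul_one]
  by_cases hc : c = 0
  · subst hc
    refine ⟨1, one_ne_zero, fun W hW hWt => ?_⟩
    have h1 := wt_iff.1 hWt
    rw [Complex.ofReal_zero, zero_smul] at h1
    rw [one_smul]
    exact hfix W hW (sub_eq_zero.1 h1).symm
  by_cases hn : ∀ W ∈ m, (∀ i j, W i j ≠ 0 → x i - x j = c) → W = 0
  · refine ⟨1, one_ne_zero, fun W hW hWt => ?_⟩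
    rw [hn W hW hWt, Matrix.mul_zero, Matrix.zero_mul, smul_zero]
  push Not at hn
  obtain ⟨W0, hW0, hW0t, hW00⟩ := hn
  let mc : Submodule ℂ (Matrix ι ι ℂ) :=
    { carrier := {W | W ∈ m ∧ dg x * W - W * dg x = (c : ℂ) • W}
      add_mem' := by
        rintro A B ⟨hA, hA'⟩ ⟨hB, hB'⟩
        refine ⟨m.add_mem hA hB, ?_⟩
        rw [Matrix.mul_add, Matrix.add_mul, smul_add, ← hA', ← hB']
        abel
      zero_mem' := ⟨m.zero_mem, by rw [Matrix.mul_zero, Matrix.zero_mul, smul_zero, sub_zero]⟩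
      smul_mem' := by
        rintro a A ⟨hA, hA'⟩
        refine ⟨m.smul_mem a hA, ?_⟩
        rw [Matrix.mul_smul, Matrix.smul_mul, ← smul_sub, hA', smul_comm] }
  let Tl : Matrix ι ι ℂ →ₗ[ℂ] Matrix ι ι ℂ :=
    { toFun := T
      map_add' := fun A B => by simp only [hT, Matrix.mul_add, Matrix.add_mul]
      map_smul' := fun a A => hTsm a A }
  have hTmc : ∀ W ∈ mc, Tl W ∈ mc := fun W hW => ⟨hgn W hW.1, hTw c W hW.2⟩
  have hnt : Nontrivial mc := ⟨⟨W0, hW0, wt_iff.1 hW0t⟩, 0, fun h => hW00 (congrArg Subtype.val h)⟩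
  obtain ⟨χ, hχ⟩ := Module.End.exists_eigenvalue (Tl.restrict hTmc)
  obtain ⟨⟨e, hem, het⟩, hev⟩ := hχ.exists_hasEigenvector
  have heT : T e = χ • e := congrArg Subtype.val hev.apply_eq_smul
  have he0 : e ≠ 0 := fun h => hev.2 (Subtype.ext h)
  have hχ1 : (starRingEnd ℂ) χ * χ = 1 := by
    have h1 : Matrix.trace ((T e)ᴴ * T e) = Matrix.trace (eᴴ * e) := by
      rw [← hTst, ← hTm]
      simp only [hT]
      rw [Matrix.trace_mul_comm, ← Matrix.mul_assoc, hig, Matrix.one_mul]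
    rw [heT, Matrix.conjTranspose_smul, Matrix.smul_mul, Matrix.mul_smul, smul_smul,
      Matrix.trace_smul, smul_eq_mul] at h1
    have h2 : Matrix.trace (eᴴ * e) ≠ 0 := fun h => he0 (trace_star_eq_zero (by rw [h]; rfl))
    exact mul_right_cancel₀ h2 (by rw [one_mul]; exact h1)
  have hχ0 : χ ≠ 0 := fun h => by
    rw [h, mul_zero] at hχ1
    exact zero_ne_one hχ1
  obtain ⟨b, hb1, hb2, hb3, hb4⟩ := exists_coroot hm hreg hc hem he0 (wt_iff.2 het)
  have hpq : ∃ p q, e p q ≠ 0 := by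
    by_contra h
    push Not at h
    exact he0 (by ext i j; exact h i j)
  obtain ⟨p, q, hpq⟩ := hpq
  have hpqc : x p - x q = c := wt_iff.2 het p q hpq
  have hβ : 0 < b p - b q := hb4 p q hpqc
  refine ⟨χ, hχ0, fun v hv hvt => ?_⟩
  have hvw := wt_iff.1 hvt
  have hvs : dg x * vᴴ = vᴴ * dg x - (c : ℂ) • vᴴ := by
    have h := congrArg Matrix.conjTranspose hvw
    rw [Matrix.conjTranspose_sub, Matrix.conjTranspose_mul, Matrix.conjTranspose_mul, dg_star,
      Matrix.conjTranspose_smul, Complex.star_def, Complex.conj_ofReal] at h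
    rw [← h]
    abel
  have hes : dg x * e = e * dg x + (c : ℂ) • e := by
    rw [← het]
    abel
  have hB : e * vᴴ - vᴴ * e ∈ m := hm.br e hem _ (hm.st v hv)
  have hBx : (e * vᴴ - vᴴ * e) * dg x = dg x * (e * vᴴ - vᴴ * e) := by
    have h1 : dg x * (e * vᴴ) = e * vᴴ * dg x := by
      rw [← Matrix.mul_assoc, hes, Matrix.add_mul, Matrix.mul_assoc, hvs, Matrix.mul_sub,
        Matrix.smul_mul, Matrix.mul_smul, Matrix.mul_assoc]
      abel
    have h2 : dg x * (vᴴ * e) = vᴴ * e * dg x := by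
      rw [← Matrix.mul_assoc, hvs, Matrix.sub_mul, Matrix.mul_assoc, hes, Matrix.mul_add,
        Matrix.smul_mul, Matrix.mul_smul, Matrix.mul_assoc]
      abel
    rw [Matrix.sub_mul, Matrix.mul_sub, h1, h2]
  have hTB := hfix _ hB hBx
  rw [hTs, hTm, hTm, hTst, heT, Matrix.smul_mul, Matrix.mul_smul, ← smul_sub] at hTB
  by_contra hne
  have hTv : T v ∈ m := hgn v hv
  set w : Matrix ι ι ℂ := χ • (T v)ᴴ - vᴴ with hw
  have hw0 : w ≠ 0 := by
    intro h
    apply hne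
    have h1 : v = (starRingEnd ℂ) χ • T v := by
      have h2 := congrArg Matrix.conjTranspose (sub_eq_zero.1 h)
      rw [Matrix.conjTranspose_smul, Matrix.conjTranspose_conjTranspose,
        Matrix.conjTranspose_conjTranspose] at h2
      exact h2.symm
    calc T v = ((starRingEnd ℂ) χ * χ) • T v := by rw [hχ1, one_smul]
      _ = χ • ((starRingEnd ℂ) χ • T v) := by rw [smul_smul, mul_comm]
      _ = χ • v := by rw [← h1]
  have hwt : dg b * w - w * dg b = ((-(b p - b q) : ℝ) : ℂ) • w := by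
    apply wt_iff.1
    intro i j hij
    have hTvt := wt_iff.2 (hTw c v hvw)
    have h1 : x j - x i = c := by
      by_cases h2 : v j i = 0
      · apply hTvt j i
        intro h3
        apply hij
        rw [hw, Matrix.sub_apply, Matrix.smul_apply, Matrix.conjTranspose_apply,
          Matrix.conjTranspose_apply, h2, h3, star_zero, smul_zero, sub_zero]
      · exact hvt j i h2
    have h2 := hb3 j i p q (by rw [h1, hpqc])
    linarith
  have hwe : e * w - w * e = 0 := by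
    rw [hw, Matrix.mul_sub, Matrix.sub_mul, Matrix.mul_smul, Matrix.smul_mul]
    calc χ • (e * (T v)ᴴ) - e * vᴴ - (χ • ((T v)ᴴ * e) - vᴴ * e) =
        χ • (e * (T v)ᴴ - (T v)ᴴ * e) - (e * vᴴ - vᴴ * e) := by
          rw [smul_sub]
          abel
      _ = 0 := by rw [hTB, sub_self]
  exact bracket_ne (β := -(b p - b q)) (by linarith) (by rw [hb1]; exact hwt) hw0 hwe

end Pool.Agent.Work.MP_0da4e0_ag.Ex
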