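import Pool.Agent.Work.MP_0da4e0_ag.Ex.BrNe
import Pool.Agent.Work.MP_0da4e0_ag.Ex.RootH

/-! MP_0da4e0_ag, exact criterion, module ZeroSum: the scalars on the root spaces are multiplicative along
zero sums of roots.

PROOF. Strong induction on the cardinality of r. r = 0: the empty product is 1. Otherwise take p in r. If
x p.1 - x p.2 = 0: there is W in m, W ≠ 0 of weight 0; it is diagonal a with x i = x j → a i = a j
(hreg.gen), so g W g⁻¹ = W (comm_diag), and = χ 0 • W: χ 0 = 1. Also for every diagonal a in m,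
a p.1 - a p.2 = 0 (hreg.gen for diagonal a, which commutes with dg x, relation (p.1, p.2, p.1, p.1); the
diagonal entries of the matrix determine a). Remove p and use the induction hypothesis.
If c = x p.1 - x p.2 ≠ 0: let e in m, e ≠ 0 of weight c. exists_coroot: dg b = [e, eᴴ] in m,
b p.1 - b p.2 > 0. hsum for a = b: the sum over r of (b q.1 - b q.2) is 0, so there is q in r - p (another
element of the multiset) with β = b q.1 - b q.2 < 0. Let v in m, v ≠ 0 of weight d = x q.1 - x q.2. By
the relations of b, [dg b, v] = β v. bracket_ne: w = [e, v] ≠ 0; w is in m and has weight c + d (entries of e v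
and v e). Choose (i, j) with w i j ≠ 0: x i - x j = c + d. g w g⁻¹ = [g e g⁻¹, g v g⁻¹] = χ c χ d w, and
= χ (c + d) w, so χ (x i - x j) = χ c * χ d. Put r' = (i, j) ::ₘ (r - p - q), of smaller cardinality. hr
holds for (i, j) with W = w. hsum for r': for diagonal a in m we need
a i - a j = (a p.1 - a p.2) + (a q.1 - a q.2): by the relations for a (hreg.gen), [diagonal a, e] =
(a p.1 - a p.2) e and [diagonal a, v] = (a q.1 - a q.2) v, so [diagonal a, w] = (sum) w (Jacobi), whose
(i, j) entry is (a i - a j) w i j. The product over r' equals that over r. Induction. -/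

open Matrix

namespace Pool.Agent.Work.MP_0da4e0_ag.Ex

variable {ι : Type} [Fintype ι] [DecidableEq ι]

omit [DecidableEq ι] in
private theorem br_entry {e v : Matrix ι ι ℂ} {i j : ι} (h : (e * v - v * e) i j ≠ 0) :
    (∃ k, e i k ≠ 0 ∧ v k j ≠ 0) ∨ (∃ k, v i k ≠ 0 ∧ e k j ≠ 0) := by
  by_contra hcon
  rw [not_or] at hcon
  obtain ⟨h1, h2⟩ := hcon
  apply h
  rw [Matrix.sub_apply, Matrix.mul_apply, Matrix.mul_apply, Finset.sum_eq_zero, Finset.sum_eq_zero,
    sub_zero]
  · intro k _
    by_contra h3
    exact h2 ⟨k, left_ne_zero_of_mul h3, right_ne_zero_of_mul h3⟩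
  · intro k _
    by_contra h3
    exact h1 ⟨k, left_ne_zero_of_mul h3, right_ne_zero_of_mul h3⟩

private theorem comm_wt {x : ι → ℝ} {a : ι → ℂ}
    (ha : ∀ i j k l, x i - x j = x k - x l → a i - a j = a k - a l) {W : Matrix ι ι ℂ} {i0 j0 : ι}
    (hW : ∀ i j, W i j ≠ 0 → x i - x j = x i0 - x j0) :
    Matrix.diagonal a * W - W * Matrix.diagonal a = (a i0 - a j0) • W := by
  ext i j
  rw [Matrix.sub_apply, Matrix.diagonal_mul, Matrix.mul_diagonal, Matrix.smul_apply, smul_eq_mul]
  by_cases h : W i j = 0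
  · rw [h]; ring
  · rw [← ha i j i0 j0 (hW i j h)]; ring

private theorem rel_of_mem {m : Submodule ℂ (Matrix ι ι ℂ)} {x : ι → ℝ} (hreg : Reg m x)
    {a : ι → ℂ} (ha : Matrix.diagonal a ∈ m) :
    ∀ i j k l, x i - x j = x k - x l → a i - a j = a k - a l := by
  have hc : Matrix.diagonal a * dg x = dg x * Matrix.diagonal a := by
    rw [dg, Matrix.diagonal_mul_diagonal, Matrix.diagonal_mul_diagonal]
    congr 1
    funext i
    ring
  obtain ⟨a', h1, h2⟩ := hreg.gen _ ha hc
  have h3 : a = a' := Matrix.diagonal_injective h1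
  rw [h3]
  exact h2

theorem zero_sum {m : Submodule ℂ (Matrix ι ι ℂ)} (hm : StarLie m) {x : ι → ℝ} (hreg : Reg m x)
    {g : GL ι ℂ} (hgx : (g : Matrix ι ι ℂ) * dg x = dg x * (g : Matrix ι ι ℂ)) (χ : ℝ → ℂ)
    (hχ : ∀ c : ℝ, ∀ W ∈ m, (∀ i j, W i j ≠ 0 → x i - x j = c) →
      (g : Matrix ι ι ℂ) * W * ((g⁻¹ : GL ι ℂ) : Matrix ι ι ℂ) = χ c • W)
    (r : Multiset (ι × ι))
    (hr : ∀ p ∈ r, ∃ W ∈ m, W ≠ 0 ∧ ∀ i j, W i j ≠ 0 → x i - x j = x p.1 - x p.2)
    (hsum : ∀ a : ι → ℂ, Matrix.diagonal a ∈ m → (r.map (fun p => a p.1 - a p.2)).sum = 0) :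
    (r.map (fun p => χ (x p.1 - x p.2))).prod = 1 := by
  classical
  suffices H : ∀ n : ℕ, ∀ r : Multiset (ι × ι), Multiset.card r = n →
      (∀ p ∈ r, ∃ W ∈ m, W ≠ 0 ∧ ∀ i j, W i j ≠ 0 → x i - x j = x p.1 - x p.2) →
      (∀ a : ι → ℂ, Matrix.diagonal a ∈ m → (r.map (fun p => a p.1 - a p.2)).sum = 0) →
      (r.map (fun p => χ (x p.1 - x p.2))).prod = 1 from H _ r rfl hr hsum
  clear hr hsum
  clear r
  intro n
  induction n using Nat.strong_induction_on with
  | _ n ih =>
    intro r hn hr hsum
    rcases Multiset.empty_or_exists_mem r with h0 | ⟨p, hp⟩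
    · subst h0; simp
    obtain ⟨r1, rfl⟩ := Multiset.exists_cons_of_mem hp
    obtain ⟨e, hem, he0, hec⟩ := hr p hp
    by_cases hc : x p.1 - x p.2 = 0
    · have hcomm : e * dg x = dg x * e := by
        ext i j
        rw [dg, Matrix.mul_diagonal, Matrix.diagonal_mul]
        by_cases h : e i j = 0
        · rw [h]; ring
        · have h1 := hec i j h
          rw [hc] at h1
          have h2 : x i = x j := by linarith
          rw [h2]; ring
      obtain ⟨a, rfl, ha⟩ := hreg.gen e hem hcomm
      have hga : (g : Matrix ι ι ℂ) * Matrix.diagonal a = Matrix.diagonal a * (g : Matrix ι ι ℂ) := by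
        apply comm_diag (x := x) _ hgx
        intro i j hij
        have h1 := ha i j i i (by rw [hij])
        rw [sub_self] at h1
        exact sub_eq_zero.mp h1
      have h3 := hχ (x p.1 - x p.2) _ hem hec
      rw [hga, Matrix.mul_assoc, ← Units.val_mul, mul_inv_cancel, Units.val_one, Matrix.mul_one] at h3
      have h4 : χ (x p.1 - x p.2) = 1 := by
        have h5 : (χ (x p.1 - x p.2) - 1) • Matrix.diagonal a = 0 := by
          rw [sub_smul, one_smul, ← h3, sub_self]
        rcases smul_eq_zero.mp h5 with h6 | h6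
        · exact sub_eq_zero.mp h6
        · exact absurd h6 he0
      rw [Multiset.map_cons, Multiset.prod_cons, h4, one_mul]
      refine ih (Multiset.card r1) ?_ r1 rfl (fun q hq => hr q (Multiset.mem_cons_of_mem hq)) ?_
      · rw [← hn, Multiset.card_cons]; omega
      · intro a' ha'
        have h5 := hsum a' ha'
        rw [Multiset.map_cons, Multiset.sum_cons] at h5
        have h6 := rel_of_mem hreg ha' p.1 p.2 p.1 p.1 (by rw [hc, sub_self])
        rw [sub_self] at h6
        rw [h6, zero_add] at h5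
        exact h5
    · obtain ⟨b, hb1, hb2, hb3, hb4⟩ := exists_coroot hm hreg hc hem he0 hec
      have hbp := hb4 p.1 p.2 rfl
      have hs := hsum (fun i => (b i : ℂ)) hb2
      have hq : ∃ q ∈ r1, b q.1 - b q.2 < 0 := by
        by_contra hcon
        push Not at hcon
        have h1 : 0 ≤ (r1.map (fun q => b q.1 - b q.2)).sum := by
          apply Multiset.sum_nonneg
          intro y hy
          obtain ⟨q, hq, rfl⟩ := Multiset.mem_map.mp hy
          exact hcon q hq
        have h2 : (((p ::ₘ r1).map (fun q => b q.1 - b q.2)).sum : ℝ) = 0 := by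
          have h3 : ((((p ::ₘ r1).map (fun q => b q.1 - b q.2)).sum : ℝ) : ℂ) = 0 := by
            rw [← hs, ← Complex.ofRealHom_eq_coe, map_multiset_sum, Multiset.map_map]
            congr 1
            apply Multiset.map_congr rfl
            intro q _
            simp
          exact_mod_cast h3
        rw [Multiset.map_cons, Multiset.sum_cons] at h2
        linarith
      obtain ⟨q, hq1, hq2⟩ := hq
      obtain ⟨r2, rfl⟩ := Multiset.exists_cons_of_mem hq1
      obtain ⟨v, hvm, hv0, hvd⟩ := hr q (Multiset.mem_cons_of_mem hq1)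
      have hbr : (e * eᴴ - eᴴ * e) * v - v * (e * eᴴ - eᴴ * e) = ((b q.1 - b q.2 : ℝ) : ℂ) • v := by
        rw [hb1, dg, comm_wt (rel_of_mem hreg hb2) hvd]
        push_cast
        rfl
      have hw0 : e * v - v * e ≠ 0 := bracket_ne hq2 hbr hv0
      have hwm : e * v - v * e ∈ m := hm.br e hem v hvm
      have hwt : ∀ i j, (e * v - v * e) i j ≠ 0 →
          x i - x j = (x p.1 - x p.2) + (x q.1 - x q.2) := by
        intro i j h
        rcases br_entry h with ⟨k, h1, h2⟩ | ⟨k, h1, h2⟩
        · rw [← hec i k h1, ← hvd k j h2]; ring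
        · rw [← hvd i k h1, ← hec k j h2]; ring
      have hex : ∃ i j, (e * v - v * e) i j ≠ 0 := by
        by_contra hcon
        push Not at hcon
        apply hw0
        ext i j
        exact hcon i j
      obtain ⟨i, j, hij⟩ := hex
      have hwt' := hwt i j hij
      have hmul : χ (x i - x j) = χ (x p.1 - x p.2) * χ (x q.1 - x q.2) := by
        have h1 := hχ (x i - x j) _ hwm (fun i' j' h => by rw [hwt i' j' h, hwt'])
        have h2 := hχ (x p.1 - x p.2) _ hem hec
        have h3 := hχ (x q.1 - x q.2) _ hvm hvd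
        have hgg : ((g⁻¹ : GL ι ℂ) : Matrix ι ι ℂ) * (g : Matrix ι ι ℂ) = 1 := by
          rw [← Units.val_mul, inv_mul_cancel, Units.val_one]
        have key : ∀ A B : Matrix ι ι ℂ,
            (g : Matrix ι ι ℂ) * (A * B) * ((g⁻¹ : GL ι ℂ) : Matrix ι ι ℂ) =
            ((g : Matrix ι ι ℂ) * A * ((g⁻¹ : GL ι ℂ) : Matrix ι ι ℂ)) *
            ((g : Matrix ι ι ℂ) * B * ((g⁻¹ : GL ι ℂ) : Matrix ι ι ℂ)) := by
          intro A B
          calc (g : Matrix ι ι ℂ) * (A * B) * ((g⁻¹ : GL ι ℂ) : Matrix ι ι ℂ)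
              = (g : Matrix ι ι ℂ) * A * (1 : Matrix ι ι ℂ) * B * ((g⁻¹ : GL ι ℂ) : Matrix ι ι ℂ) := by
                rw [Matrix.mul_one]; simp only [Matrix.mul_assoc]
            _ = _ := by
                rw [← hgg]; simp only [Matrix.mul_assoc]
        rw [Matrix.mul_sub, Matrix.sub_mul, key, key, h2, h3] at h1
        have h4 : (χ (x p.1 - x p.2) * χ (x q.1 - x q.2) - χ (x i - x j)) • (e * v - v * e) = 0 := by
          rw [sub_smul, ← h1]
          simp only [Matrix.smul_mul, Matrix.mul_smul, smul_smul, smul_sub]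
          rw [mul_comm (χ (x q.1 - x q.2)) (χ (x p.1 - x p.2)), sub_self]
        rcases smul_eq_zero.mp h4 with h6 | h6
        · exact (sub_eq_zero.mp h6).symm
        · exact absurd h6 hw0
      have hih := ih (Multiset.card r2 + 1) (by
          rw [← hn, Multiset.card_cons, Multiset.card_cons]; omega) ((i, j) ::ₘ r2)
          (Multiset.card_cons _ _) (by
            intro q' hq'
            rcases Multiset.mem_cons.mp hq' with h | h
            · subst h
              exact ⟨_, hwm, hw0, fun i' j' h => by rw [hwt i' j' h]; exact hwt'.symm⟩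
            · exact hr q' (Multiset.mem_cons_of_mem (Multiset.mem_cons_of_mem h))) (by
            intro a ha
            have h5 := hsum a ha
            have hrel := rel_of_mem hreg ha
            rw [Multiset.map_cons, Multiset.sum_cons, Multiset.map_cons, Multiset.sum_cons] at h5
            rw [Multiset.map_cons, Multiset.sum_cons]
            have h6 : a i - a j = (a p.1 - a p.2) + (a q.1 - a q.2) := by
              rcases br_entry hij with ⟨k, h1, h2⟩ | ⟨k, h1, h2⟩
              · rw [← hrel i k p.1 p.2 (hec i k h1), ← hrel k j q.1 q.2 (hvd k j h2)]; ring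
              · rw [← hrel i k q.1 q.2 (hvd i k h1), ← hrel k j p.1 p.2 (hec k j h2)]; ring
            show (a i - a j) + _ = 0
            rw [h6, add_assoc]
            exact h5)
      rw [Multiset.map_cons, Multiset.prod_cons] at hih
      rw [Multiset.map_cons, Multiset.prod_cons, Multiset.map_cons, Multiset.prod_cons, ← mul_assoc,
        ← hmul]
      exact hih

end Pool.Agent.Work.MP_0da4e0_ag.Ex
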