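import Pool.Agent.Work.MP_0da4e0_ag.Ex.Fc
import Pool.Agent.Work.MP_0da4e0_ag.Ex.RootSc
import Pool.Agent.Work.MP_0da4e0_ag.Ex.ZeroSum
import Pool.Agent.Work.MP_0da4e0_ag.Ex.ExtCh
import Pool.Agent.Work.MP_0da4e0_ag.Ex.DiagAct

/-! MP_0da4e0_ag, exact criterion, module TorusT: a matrix commuting with the regular element is the
product of a diagonal element of Gp m and an element of cen m.

PROOF. χ from root_scalar (choose, χ c ≠ 0). R = {p | ∃ W ∈ m, W ≠ 0 of weight x p.1 - x p.2} (weight c: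
W i j ≠ 0 → x i - x j = c); R is symmetric: Wᴴ. H = {a | diagonal a ∈ m}. zero_sum gives the hypothesis hz of
exists_char for χ' p = χ (x p.1 - x p.2). Get d, and t = diagonal d in GL (d i ≠ 0; inverse diagonal d⁻¹).
t in Gp m: let s be a tensor killed by m, e an index with s e ≠ 0. For a in H, dact_diagonal gives
∑ j, a (e.1 j) = ∑ j, a (e.2 j). With n i = #{j | e.1 j = i} - #{j | e.2 j = i} this is ∑ n i a i = 0, so
∏ d i ^ n i = 1, i.e. (∏ j, d (e.1 j)) * ∏ j, (d (e.2 j))⁻¹ = 1 (Finset.prod_fiberwise type identities),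
so act t s e = s e by act_diagonal; if s e = 0 both sides are 0.
c = t⁻¹ g. For W in m: t W t⁻¹ = g W g⁻¹: W is the finite sum over the values c of x i - x j of the
matrices W_c = (if x i - x j = c then W i j else 0), which are in m by Fc.fc (t i j = x i - x j, and
((x i - x j) W i j) = dg x W - W dg x is in m), and have weight c. If W_c ≠ 0 and W_c i j ≠ 0, then
(i, j) in R and x i - x j = c, so d i = χ c * d j, and (t W_c t⁻¹) i j = d i * W_c i j * (d j)⁻¹ =
χ c * W_c i j; so t W_c t⁻¹ = χ c • W_c = g W_c g⁻¹. Summing, t W t⁻¹ = g W g⁻¹, i.e. c = t⁻¹ g commutes with W: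
Com m c. If Com m C: g C = C g (hgc) and t C = C t (Gp_com), so c C = C c. So c in cen m and g = t c. -/

open Matrix

namespace Pool.Agent.Work.MP_0da4e0_ag.Ex

variable {ι : Type} [Fintype ι] [DecidableEq ι]

/-- the number of indices with the value `i` -/
private def cnt {p : ℕ} (u : Fin p → ι) (i : ι) : ℕ := (Finset.univ.filter (fun j => u j = i)).card

private theorem sum_cnt {p : ℕ} (a : ι → ℂ) (u : Fin p → ι) :
    ∑ j, a (u j) = ∑ i, (cnt u i : ℂ) * a i := by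
  rw [← Finset.sum_fiberwise Finset.univ u]
  apply Finset.sum_congr rfl
  intro i _
  rw [Finset.sum_congr rfl (g := fun _ => a i) (fun j hj => by
    rw [(Finset.mem_filter.1 hj).2]), Finset.sum_const, nsmul_eq_mul]
  rfl

private theorem prod_cnt {p : ℕ} (a : ι → ℂ) (u : Fin p → ι) :
    ∏ j, a (u j) = ∏ i, a i ^ cnt u i := by
  rw [← Finset.prod_fiberwise Finset.univ u]
  apply Finset.prod_congr rfl
  intro i _
  rw [Finset.prod_congr rfl (g := fun _ => a i) (fun j hj => by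
    rw [(Finset.mem_filter.1 hj).2]), Finset.prod_const]
  rfl

/-- the component of weight `c` -/
private noncomputable def comp (x : ι → ℝ) (c : ℝ) (W : Matrix ι ι ℂ) : Matrix ι ι ℂ :=
  Matrix.of fun i j => (if x i - x j = c then 1 else 0) * W i j

private theorem comp_mem {m : Submodule ℂ (Matrix ι ι ℂ)} (hm : StarLie m) {x : ι → ℝ}
    (hreg : Reg m x) (c : ℝ) {W : Matrix ι ι ℂ} (hW : W ∈ m) : comp x c W ∈ m := by
  refine fc m (fun i j => ((x i - x j : ℝ) : ℂ)) (fun i j => if x i - x j = c then 1 else 0)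
    (fun X hX => ?_) (fun i j k l h => ?_) W hW
  · have h1 := hm.br _ hreg.mem _ hX
    have h2 : dg x * X - X * dg x = Matrix.of fun i j => ((x i - x j : ℝ) : ℂ) * X i j := by
      ext i j
      rw [Matrix.sub_apply, dg, Matrix.diagonal_mul, Matrix.mul_diagonal, Matrix.of_apply]
      push_cast
      ring
    rwa [h2] at h1
  · have h' : x i - x j = x k - x l := Complex.ofReal_injective h
    rw [h']

omit [DecidableEq ι] in
private theorem comp_sum (x : ι → ℝ) (W : Matrix ι ι ℂ) :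
    W = ∑ c ∈ Finset.univ.image (fun p : ι × ι => x p.1 - x p.2), comp x c W := by
  ext i j
  rw [Matrix.sum_apply]
  simp only [comp, Matrix.of_apply, ite_mul, one_mul, zero_mul]
  rw [Finset.sum_ite_eq, if_pos]
  exact Finset.mem_image.2 ⟨(i, j), Finset.mem_univ _, rfl⟩

theorem exists_torus_elt {m : Submodule ℂ (Matrix ι ι ℂ)} (hm : StarLie m) {x : ι → ℝ} (hreg : Reg m x)
    {g : GL ι ℂ} (hgn : ∀ X ∈ m, (g : Matrix ι ι ℂ) * X * ((g⁻¹ : GL ι ℂ) : Matrix ι ι ℂ) ∈ m)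
    (hgu : ((g : Matrix ι ι ℂ))ᴴ * (g : Matrix ι ι ℂ) = 1)
    (hgx : (g : Matrix ι ι ℂ) * dg x = dg x * (g : Matrix ι ι ℂ))
    (hgc : ∀ C, Com m C → (g : Matrix ι ι ℂ) * C = C * (g : Matrix ι ι ℂ)) :
    ∃ t ∈ Gp m, ∃ c : GL ι ℂ, (c : Matrix ι ι ℂ) ∈ cen m ∧ g = t * c := by
  choose χ hχ0 hχ using root_scalar hm hreg hgn hgu hgx
  obtain ⟨d, hd0, hdR, hdn⟩ := exists_char {a : ι → ℂ | Matrix.diagonal a ∈ m}
    {p : ι × ι | ∃ W ∈ m, W ≠ 0 ∧ ∀ i j, W i j ≠ 0 → x i - x j = x p.1 - x p.2}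
    (by
      rintro p ⟨W, hW, hW0, hWx⟩
      refine ⟨Wᴴ, hm.st W hW, fun h => hW0 ?_, fun i j hij => ?_⟩
      · exact Matrix.conjTranspose_eq_zero.1 h
      · have h1 : W j i ≠ 0 := by
          intro h0
          apply hij
          rw [Matrix.conjTranspose_apply, h0, star_zero]
        have := hWx j i h1
        show x i - x j = x p.2 - x p.1
        linarith)
    (fun p => χ (x p.1 - x p.2))
    (fun r hr hs => zero_sum hm hreg hgx χ hχ r hr hs)
  have hdd : Matrix.diagonal d * Matrix.diagonal (fun i => (d i)⁻¹) = (1 : Matrix ι ι ℂ) := by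
    rw [Matrix.diagonal_mul_diagonal, ← Matrix.diagonal_one]
    congr 1
    funext i
    exact mul_inv_cancel₀ (hd0 i)
  have hdd' : Matrix.diagonal (fun i => (d i)⁻¹) * Matrix.diagonal d = (1 : Matrix ι ι ℂ) := by
    rw [Matrix.diagonal_mul_diagonal, ← Matrix.diagonal_one]
    congr 1
    funext i
    exact inv_mul_cancel₀ (hd0 i)
  let t : GL ι ℂ := ⟨Matrix.diagonal d, Matrix.diagonal (fun i => (d i)⁻¹), hdd, hdd'⟩
  have ht1 : (t : Matrix ι ι ℂ) = Matrix.diagonal d := rfl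
  have ht2 : ((t⁻¹ : GL ι ℂ) : Matrix ι ι ℂ) = Matrix.diagonal (fun i => (d i)⁻¹) := rfl
  -- t is in the group
  have htG : t ∈ Gp m := by
    intro a b s hs
    funext e
    rw [act_diagonal t d ht1]
    by_cases hse : s e = 0
    · rw [hse, mul_zero]
    have h1 := hdn (fun i => (cnt e.1 i : ℤ) - (cnt e.2 i : ℤ)) (fun y hy => by
      have h2 := congrFun (hs _ hy) e
      rw [dact_diagonal] at h2
      have h3 := (mul_eq_zero.1 h2).resolve_right hse
      rw [sum_cnt, sum_cnt, ← Finset.sum_sub_distrib] at h3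
      rw [← h3]
      apply Finset.sum_congr rfl
      intro i _
      push_cast
      ring)
    have h4 : (∏ j, d (e.1 j)) * ∏ j, (d (e.2 j))⁻¹ = 1 := by
      rw [← h1, prod_cnt, prod_cnt (fun i => (d i)⁻¹), ← Finset.prod_mul_distrib]
      apply Finset.prod_congr rfl
      intro i _
      rw [zpow_sub₀ (hd0 i), zpow_natCast, zpow_natCast, inv_pow, div_eq_mul_inv]
    rw [h4, one_mul]
  -- t and g act in the same way
  have key : ∀ W ∈ m, (t : Matrix ι ι ℂ) * W * ((t⁻¹ : GL ι ℂ) : Matrix ι ι ℂ) =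
      (g : Matrix ι ι ℂ) * W * ((g⁻¹ : GL ι ℂ) : Matrix ι ι ℂ) := by
    intro W hW
    have h1 : ∀ c, (t : Matrix ι ι ℂ) * comp x c W * ((t⁻¹ : GL ι ℂ) : Matrix ι ι ℂ) =
        (g : Matrix ι ι ℂ) * comp x c W * ((g⁻¹ : GL ι ℂ) : Matrix ι ι ℂ) := by
      intro c
      have hw : ∀ i j, comp x c W i j ≠ 0 → x i - x j = c := by
        intro i j hij
        by_contra hc
        apply hij
        rw [comp, Matrix.of_apply, if_neg hc, zero_mul]
      rw [hχ c _ (comp_mem hm hreg c hW) hw]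
      ext i j
      rw [ht1, ht2, Matrix.mul_diagonal, Matrix.diagonal_mul, Matrix.smul_apply, smul_eq_mul]
      by_cases h0 : comp x c W i j = 0
      · rw [h0, mul_zero, zero_mul, mul_zero]
      · have hij := hw i j h0
        have h2 := hdR (i, j) ⟨comp x c W, comp_mem hm hreg c hW, fun h => h0 (by rw [h]; rfl),
          fun k l hkl => (hw k l hkl).trans hij.symm⟩
        dsimp only at h2
        rw [h2, hij]
        have := hd0 j
        field_simp
    rw [comp_sum x W, Finset.mul_sum, Finset.sum_mul, Finset.mul_sum, Finset.sum_mul]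
    exact Finset.sum_congr rfl fun c _ => h1 c
  have htt : (t : Matrix ι ι ℂ) * ((t⁻¹ : GL ι ℂ) : Matrix ι ι ℂ) = 1 := hdd
  have htt' : ((t⁻¹ : GL ι ℂ) : Matrix ι ι ℂ) * (t : Matrix ι ι ℂ) = 1 := hdd'
  have hgg' : ((g⁻¹ : GL ι ℂ) : Matrix ι ι ℂ) * (g : Matrix ι ι ℂ) = 1 := by
    rw [← Units.val_mul, inv_mul_cancel, Units.val_one]
  refine ⟨t, htG, t⁻¹ * g, ⟨fun X hX => ?_, fun C hC => ?_⟩, by rw [mul_inv_cancel_left]⟩
  · have h1 := key X hX
    rw [Units.val_mul]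
    calc X * (((t⁻¹ : GL ι ℂ) : Matrix ι ι ℂ) * (g : Matrix ι ι ℂ))
        = (((t⁻¹ : GL ι ℂ) : Matrix ι ι ℂ) * (t : Matrix ι ι ℂ)) * X *
          (((t⁻¹ : GL ι ℂ) : Matrix ι ι ℂ) * (g : Matrix ι ι ℂ)) := by rw [htt', Matrix.one_mul]
      _ = ((t⁻¹ : GL ι ℂ) : Matrix ι ι ℂ) * ((t : Matrix ι ι ℂ) * X *
          ((t⁻¹ : GL ι ℂ) : Matrix ι ι ℂ)) * (g : Matrix ι ι ℂ) := by
          simp only [Matrix.mul_assoc]
      _ = ((t⁻¹ : GL ι ℂ) : Matrix ι ι ℂ) * (g : Matrix ι ι ℂ) * X *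
          (((g⁻¹ : GL ι ℂ) : Matrix ι ι ℂ) * (g : Matrix ι ι ℂ)) := by
          rw [h1]
          simp only [Matrix.mul_assoc]
      _ = _ := by rw [hgg', Matrix.mul_one]
  · have h1 := Gp_com htG hC
    have h2 := hgc C hC
    have h3 : ((t⁻¹ : GL ι ℂ) : Matrix ι ι ℂ) * C = C * ((t⁻¹ : GL ι ℂ) : Matrix ι ι ℂ) := by
      calc ((t⁻¹ : GL ι ℂ) : Matrix ι ι ℂ) * C
          = ((t⁻¹ : GL ι ℂ) : Matrix ι ι ℂ) * C *
            ((t : Matrix ι ι ℂ) * ((t⁻¹ : GL ι ℂ) : Matrix ι ι ℂ)) := by rw [htt, Matrix.mul_one]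
        _ = ((t⁻¹ : GL ι ℂ) : Matrix ι ι ℂ) * (C * (t : Matrix ι ι ℂ)) *
            ((t⁻¹ : GL ι ℂ) : Matrix ι ι ℂ) := by simp only [Matrix.mul_assoc]
        _ = (((t⁻¹ : GL ι ℂ) : Matrix ι ι ℂ) * (t : Matrix ι ι ℂ)) * C *
            ((t⁻¹ : GL ι ℂ) : Matrix ι ι ℂ) := by
            rw [← h1]
            simp only [Matrix.mul_assoc]
        _ = _ := by rw [htt', Matrix.one_mul]
    rw [Units.val_mul, ← Matrix.mul_assoc, ← h3, Matrix.mul_assoc, Matrix.mul_assoc, h2]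

end Pool.Agent.Work.MP_0da4e0_ag.Ex
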