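import Pool.Agent.Work.MP_0da4e0_ag.Ex.Polar
import Pool.Agent.Work.MP_0da4e0_ag.Ex.ExReg
import Pool.Agent.Work.MP_0da4e0_ag.Ex.ExComm
import Pool.Agent.Work.MP_0da4e0_ag.Ex.TorusT

/-! MP_0da4e0_ag, exact criterion, module Core: an admissible matrix is the product of an element of Gp m
and an element of cen m.

PROOF. exists_polar: g = u (expGL Y 1 * expGL Z 1), u unitary, Adm m u. exists_reg hm: U unitary, x, Reg m' x
for m' = cj U m, which is StarLie (cj_starLie) and Algebraic (cj_algebraic). u' = U⁻¹ u U: Adm m' u' (cj_adm),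
unitary (U⁻¹ = Uᴴ). exists_comm for m', u': k in Gp m' unitary with g' = k u' commuting with dg x. g' is
unitary, normalizes m' and commutes with the commutant of m' (Adm.mul (Adm.ofGp ..) ..). exists_torus_elt:
g' = t c', t in Gp m', c' in cen m'. So u' = (k⁻¹ t) c', u = [U (k⁻¹ t) U⁻¹] [U c' U⁻¹] = v c1 with v in Gp m
(cj_Gp) and c1 in cen m (cj_cen). Then g = v c1 (expGL Y 1) (expGL Z 1) = (v * expGL Y 1) * (c1 * expGL Z 1),
since c1 commutes with Y in m, hence with expGL Y 1 (expGL_commute). v * expGL Y 1 in Gp m (expGL_mem).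
c1 * expGL Z 1 is in cen m: expGL Z 1 commutes with m and with every C with Com m C (expGL_commute from
hZ.1, hZ.2), and the product of two such matrices too. -/

open Matrix

namespace Pool.Agent.Work.MP_0da4e0_ag.Ex

variable {ι : Type} [Fintype ι] [DecidableEq ι]

private theorem uni_mul {g h : GL ι ℂ} (hg : ((g : Matrix ι ι ℂ))ᴴ * (g : Matrix ι ι ℂ) = 1)
    (hh : ((h : Matrix ι ι ℂ))ᴴ * (h : Matrix ι ι ℂ) = 1) :
    (((g * h : GL ι ℂ) : Matrix ι ι ℂ))ᴴ * ((g * h : GL ι ℂ) : Matrix ι ι ℂ) = 1 := by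
  rw [Units.val_mul, Matrix.conjTranspose_mul]
  calc (h : Matrix ι ι ℂ)ᴴ * (g : Matrix ι ι ℂ)ᴴ * ((g : Matrix ι ι ℂ) * (h : Matrix ι ι ℂ)) =
      (h : Matrix ι ι ℂ)ᴴ * ((g : Matrix ι ι ℂ)ᴴ * (g : Matrix ι ι ℂ)) * (h : Matrix ι ι ℂ) := by
        simp only [Matrix.mul_assoc]
    _ = 1 := by rw [hg, Matrix.mul_one, hh]

private theorem uni_inv {g : GL ι ℂ} (hg : ((g : Matrix ι ι ℂ))ᴴ * (g : Matrix ι ι ℂ) = 1) :
    (((g⁻¹ : GL ι ℂ) : Matrix ι ι ℂ))ᴴ * ((g⁻¹ : GL ι ℂ) : Matrix ι ι ℂ) = 1 := by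
  have h1 : ((g⁻¹ : GL ι ℂ) : Matrix ι ι ℂ) = (g : Matrix ι ι ℂ)ᴴ := by
    calc ((g⁻¹ : GL ι ℂ) : Matrix ι ι ℂ) =
        ((g : Matrix ι ι ℂ)ᴴ * (g : Matrix ι ι ℂ)) * ((g⁻¹ : GL ι ℂ) : Matrix ι ι ℂ) := by
          rw [hg, Matrix.one_mul]
      _ = _ := by
          rw [Matrix.mul_assoc, ← Units.val_mul, mul_inv_cancel, Units.val_one, Matrix.mul_one]
  rw [h1, Matrix.conjTranspose_conjTranspose, ← h1, ← Units.val_mul, mul_inv_cancel, Units.val_one]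

theorem core {m : Submodule ℂ (Matrix ι ι ℂ)} (hm : StarLie m) (ha : Algebraic m) (g : GL ι ℂ)
    (hg : Adm m g) : ∃ u ∈ Gp m, ∃ c : GL ι ℂ, (c : Matrix ι ι ℂ) ∈ cen m ∧ g = u * c := by
  obtain ⟨u, hu, huu, Y, hY, Z, hZ, hgu⟩ := exists_polar hm ha g hg
  obtain ⟨U, x, hU, hreg⟩ := exists_reg hm
  have hm' : StarLie (cj U m) := cj_starLie hm hU
  have ha' : Algebraic (cj U m) := cj_algebraic ha U
  have hu' : Adm (cj U m) (U⁻¹ * u * U) := cj_adm hu U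
  have hu'u := uni_mul (uni_mul (uni_inv hU) huu) hU
  obtain ⟨k, hk, hku, hkx⟩ := exists_comm hm' ha' hreg.mem hu' hu'u
  have hg' : Adm (cj U m) (k * (U⁻¹ * u * U)) := (Adm.ofGp ha' hk).mul hu'
  obtain ⟨t, ht, c', hc', h1⟩ := exists_torus_elt hm' hreg hg'.norm (uni_mul hku hu'u) hkx hg'.com
  have hv : U * (k⁻¹ * t) * U⁻¹ ∈ Gp m := cj_Gp.1 (mul_mem (inv_mem hk) ht)
  have hc1 : ((U * c' * U⁻¹ : GL ι ℂ) : Matrix ι ι ℂ) ∈ cen m := by
    rw [Units.val_mul, Units.val_mul]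
    exact cj_cen.1 hc'
  have hu1 : u = U * (k⁻¹ * t) * U⁻¹ * (U * c' * U⁻¹) := by
    calc u = U * (k⁻¹ * (k * (U⁻¹ * u * U))) * U⁻¹ := by group
      _ = U * (k⁻¹ * (t * c')) * U⁻¹ := by rw [h1]
      _ = _ := by group
  generalize U * (k⁻¹ * t) * U⁻¹ = v at hv hu1
  generalize U * c' * U⁻¹ = c1 at hc1 hu1
  refine ⟨v * expGL Y 1, mul_mem hv (expGL_mem hY 1), c1 * expGL Z 1, ⟨fun X hX => ?_, fun C hC => ?_⟩, ?_⟩
  · rw [Units.val_mul]
    calc X * ((c1 : Matrix ι ι ℂ) * (expGL Z 1 : Matrix ι ι ℂ)) =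
        (X * (c1 : Matrix ι ι ℂ)) * (expGL Z 1 : Matrix ι ι ℂ) := by rw [Matrix.mul_assoc]
      _ = (c1 : Matrix ι ι ℂ) * (X * (expGL Z 1 : Matrix ι ι ℂ)) := by
        rw [hc1.1 X hX, Matrix.mul_assoc]
      _ = (c1 : Matrix ι ι ℂ) * (expGL Z 1 : Matrix ι ι ℂ) * X := by
        rw [← expGL_commute (hZ.1 X hX).symm 1, Matrix.mul_assoc]
  · rw [Units.val_mul]
    calc C * ((c1 : Matrix ι ι ℂ) * (expGL Z 1 : Matrix ι ι ℂ)) =
        (C * (c1 : Matrix ι ι ℂ)) * (expGL Z 1 : Matrix ι ι ℂ) := by rw [Matrix.mul_assoc]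
      _ = (c1 : Matrix ι ι ℂ) * (C * (expGL Z 1 : Matrix ι ι ℂ)) := by
        rw [hc1.2 C hC, Matrix.mul_assoc]
      _ = (c1 : Matrix ι ι ℂ) * (expGL Z 1 : Matrix ι ι ℂ) * C := by
        rw [← expGL_commute (hZ.2 C hC).symm 1, Matrix.mul_assoc]
  · have h2 : expGL Y 1 * c1 = c1 * expGL Y 1 := by
      apply Units.ext
      rw [Units.val_mul, Units.val_mul]
      exact expGL_commute (hc1.1 Y hY) 1
    rw [hgu, hu1]
    calc v * c1 * (expGL Y 1 * expGL Z 1) = v * (c1 * expGL Y 1) * expGL Z 1 := by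
          simp only [mul_assoc]
      _ = v * expGL Y 1 * (c1 * expGL Z 1) := by
          rw [← h2]
          simp only [mul_assoc]

end Pool.Agent.Work.MP_0da4e0_ag.Ex
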