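import Pool.Agent.Work.MP_0da4e0_ag.LieAct
import Pool.Agent.Work.MP_0da4e0_ag.EffTens

/-! MP_0da4e0_ag, exact criterion: spaces of matrices closed under commutators and conjugate transposes,
and the matrices which are compatible with them. -/

open Matrix

namespace Pool.Agent.Work.MP_0da4e0_ag.Ex

variable {ι : Type} [Fintype ι] [DecidableEq ι]

/-- a complex space of matrices closed under commutators and conjugate transposes -/
structure StarLie (m : Submodule ℂ (Matrix ι ι ℂ)) : Prop where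
  br : ∀ X ∈ m, ∀ Y ∈ m, X * Y - Y * X ∈ m
  st : ∀ X ∈ m, Xᴴ ∈ m

/-- the tensor `t` is killed by all elements of `m` -/
def Killed (m : Submodule ℂ (Matrix ι ι ℂ)) {a b : ℕ} (t : Tens ι a b ℂ) : Prop :=
  ∀ X ∈ m, dact X t = 0

/-- `m` consists of all matrices which kill the tensors killed by `m` -/
def Algebraic (m : Submodule ℂ (Matrix ι ι ℂ)) : Prop :=
  ∀ Y : Matrix ι ι ℂ, (∀ (a b : ℕ) (t : Tens ι a b ℂ), Killed m t → dact Y t = 0) → Y ∈ m

/-- the group of all invertible matrices fixing the tensors killed by `m` -/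
def Gp (m : Submodule ℂ (Matrix ι ι ℂ)) : Subgroup (GL ι ℂ) where
  carrier := {g | ∀ (a b : ℕ) (t : Tens ι a b ℂ), Killed m t → act g t = t}
  mul_mem' := by
    intro g h hg hh a b t ht
    rw [act_mul, hh a b t ht, hg a b t ht]
  one_mem' := fun a b t _ => act_one t
  inv_mem' := by
    intro g hg a b t ht
    calc act g⁻¹ t = act g⁻¹ (act g t) := by rw [hg a b t ht]
      _ = t := act_inv_act g t

/-- `C` commutes with all elements of `m` -/
def Com (m : Submodule ℂ (Matrix ι ι ℂ)) (C : Matrix ι ι ℂ) : Prop := ∀ X ∈ m, X * C = C * X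

/-- the matrices commuting with `m` and with all matrices commuting with `m` -/
def cen (m : Submodule ℂ (Matrix ι ι ℂ)) : Submodule ℂ (Matrix ι ι ℂ) where
  carrier := {Z | Com m Z ∧ ∀ C, Com m C → C * Z = Z * C}
  add_mem' := by
    rintro Z W ⟨h1, h2⟩ ⟨h3, h4⟩
    refine ⟨fun X hX => ?_, fun C hC => ?_⟩
    · rw [Matrix.mul_add, Matrix.add_mul, h1 X hX, h3 X hX]
    · rw [Matrix.mul_add, Matrix.add_mul, h2 C hC, h4 C hC]
  zero_mem' := ⟨fun X _ => by rw [Matrix.mul_zero, Matrix.zero_mul],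
    fun C _ => by rw [Matrix.mul_zero, Matrix.zero_mul]⟩
  smul_mem' := by
    rintro c Z ⟨h1, h2⟩
    refine ⟨fun X hX => ?_, fun C hC => ?_⟩
    · rw [Matrix.mul_smul, Matrix.smul_mul, h1 X hX]
    · rw [Matrix.mul_smul, Matrix.smul_mul, h2 C hC]

/-- a tensor with `f` upper and `f` lower indices which is alternating in the upper indices and in the
lower indices: an endomorphism of the `f`-th exterior power -/
def Alt2 {f : ℕ} {R : Type} [CommRing R] (t : Tens ι f f R) : Prop :=
  (∀ (p : Equiv.Perm (Fin f)) (e e' : Fin f → ι),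
    t (e ∘ p, e') = ((Equiv.Perm.sign p : ℤ) : R) * t (e, e')) ∧
  (∀ (p : Equiv.Perm (Fin f)) (e e' : Fin f → ι),
    t (e, e' ∘ p) = ((Equiv.Perm.sign p : ℤ) : R) * t (e, e'))

/-- `g` normalizes `m`, commutes with the commutant of `m`, and acts on the `f`-th exterior power,
`1 ≤ f ≤ n / 2`, as a matrix commuting with all endomorphisms which commute with `m` and `cen m` -/
structure Adm (m : Submodule ℂ (Matrix ι ι ℂ)) (g : GL ι ℂ) : Prop where
  norm : ∀ X ∈ m, (g : Matrix ι ι ℂ) * X * ((g⁻¹ : GL ι ℂ) : Matrix ι ι ℂ) ∈ m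
  com : ∀ C, Com m C → (g : Matrix ι ι ℂ) * C = C * (g : Matrix ι ι ℂ)
  alt : ∀ f : ℕ, 1 ≤ f → 2 * f ≤ Fintype.card ι → ∀ t : Tens ι f f ℂ, Alt2 t →
    Killed (m ⊔ cen m) t → act g t = t

/-- the conjugate space `U⁻¹ * m * U` -/
def cj (U : GL ι ℂ) (m : Submodule ℂ (Matrix ι ι ℂ)) : Submodule ℂ (Matrix ι ι ℂ) where
  carrier := {X | (U : Matrix ι ι ℂ) * X * ((U⁻¹ : GL ι ℂ) : Matrix ι ι ℂ) ∈ m}
  add_mem' := by
    intro X Y hX hY
    change (U : Matrix ι ι ℂ) * (X + Y) * ((U⁻¹ : GL ι ℂ) : Matrix ι ι ℂ) ∈ m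
    rw [Matrix.mul_add, Matrix.add_mul]
    exact m.add_mem hX hY
  zero_mem' := by
    change (U : Matrix ι ι ℂ) * 0 * ((U⁻¹ : GL ι ℂ) : Matrix ι ι ℂ) ∈ m
    rw [Matrix.mul_zero, Matrix.zero_mul]
    exact m.zero_mem
  smul_mem' := by
    intro c X hX
    change (U : Matrix ι ι ℂ) * (c • X) * ((U⁻¹ : GL ι ℂ) : Matrix ι ι ℂ) ∈ m
    rw [Matrix.mul_smul, Matrix.smul_mul]
    exact m.smul_mem c hX

/-- the real diagonal matrix with entries `x` -/
def dg (x : ι → ℝ) : Matrix ι ι ℂ := Matrix.diagonal (fun i => (x i : ℂ))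

/-- `dg x` is an element of `m` whose centralizer in `m` consists of diagonal matrices, such that every
diagonal matrix `a` in it satisfies all relations `a i - a j = a k - a l` satisfied by `x` -/
structure Reg (m : Submodule ℂ (Matrix ι ι ℂ)) (x : ι → ℝ) : Prop where
  mem : dg x ∈ m
  gen : ∀ A ∈ m, A * dg x = dg x * A → ∃ a : ι → ℂ, A = Matrix.diagonal a ∧
    ∀ i j k l, x i - x j = x k - x l → a i - a j = a k - a l

/-- the derivation of the `f`-th tensor power defined by a matrix -/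
def dtp (f : ℕ) (X : Matrix ι ι ℂ) : Matrix (Fin f → ι) (Fin f → ι) ℂ :=
  fun e e' => ∑ j, (∏ i ∈ Finset.univ.erase j, (1 : Matrix ι ι ℂ) (e i) (e' i)) * X (e j) (e' j)

/-- the exterior product of the vectors `u q` -/
def wd {f : ℕ} (u : Fin f → ι → ℂ) : (Fin f → ι) → ℂ :=
  fun e => Matrix.det (Matrix.of fun p q => u q (e p))

section exp
open NormedSpace
attribute [local instance] Matrix.linftyOpNormedRing Matrix.linftyOpNormedAlgebra

theorem expGL_add (X : Matrix ι ι ℂ) (s t : ℂ) : expGL X (s + t) = expGL X s * expGL X t := by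
  apply Units.ext
  simp only [expGL, Units.val_mul]
  rw [← Matrix.exp_add_of_commute _ _ (((Commute.refl X).smul_left s).smul_right t), add_smul]

theorem expGL_commute {X C : Matrix ι ι ℂ} (h : X * C = C * X) (s : ℂ) :
    (expGL X s : Matrix ι ι ℂ) * C = C * (expGL X s : Matrix ι ι ℂ) := by
  have h1 : Commute C (s • X) := (show Commute C X from h.symm).smul_right s
  exact (h1.exp_right).eq.symm

theorem expGL_add_of_commute {X Y : Matrix ι ι ℂ} (h : X * Y = Y * X) (s : ℂ) :
    expGL (X + Y) s = expGL X s * expGL Y s := by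
  apply Units.ext
  simp only [expGL, Units.val_mul, smul_add]
  exact Matrix.exp_add_of_commute _ _ (((show Commute X Y from h).smul_left s).smul_right s)

theorem expGL_star (X : Matrix ι ι ℂ) (s : ℂ) :
    ((expGL X s : Matrix ι ι ℂ))ᴴ = (expGL Xᴴ (starRingEnd ℂ s) : Matrix ι ι ℂ) := by
  change (exp (s • X))ᴴ = exp ((starRingEnd ℂ s) • Xᴴ)
  rw [← Matrix.exp_conjTranspose, Matrix.conjTranspose_smul]
  rfl

end exp

theorem expGL_neg_inv (X : Matrix ι ι ℂ) (s : ℂ) : (expGL X s)⁻¹ = expGL X (-s) := by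
  apply inv_eq_of_mul_eq_one_right
  rw [← expGL_add, add_neg_cancel, expGL_zero]

/-- derivative of the action of a one-parameter group at any point -/
theorem hasDerivAt_act_exp' {a b : ℕ} (X : Matrix ι ι ℂ) (t : Tens ι a b ℂ) (e : (Fin a → ι) × (Fin b → ι))
    (s : ℂ) : HasDerivAt (fun s => act (expGL X s) t e) (act (expGL X s) (dact X t) e) s := by
  have h1 : HasDerivAt (fun r => act (expGL X s) (act (expGL X r) t) e)
      (act (expGL X s) (dact X t) e) 0 := by
    simp only [act_eq (expGL X s), Matrix.mulVec, dotProduct]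
    apply HasDerivAt.fun_sum
    intro f _
    exact (hasDerivAt_act_exp X t f).const_mul _
  have h2 : (fun s' => act (expGL X s') t e) =
      (fun r => act (expGL X s) (act (expGL X r) t) e) ∘ (fun s' => s' - s) := by
    funext s'
    simp only [Function.comp_apply]
    rw [← act_mul, ← expGL_add, add_sub_cancel]
  rw [h2]
  have h3 : HasDerivAt (fun s' : ℂ => s' - s) 1 s := (hasDerivAt_id s).sub_const s
  have h4 : HasDerivAt (fun r => act (expGL X s) (act (expGL X r) t) e)
      (act (expGL X s) (dact X t) e) (s - s) := by rwa [sub_self]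
  have := HasDerivAt.comp (h := fun s' : ℂ => s' - s) s h4 h3
  simpa using this

/-- a tensor killed by X is fixed by the one-parameter group of X -/
theorem act_expGL_fix {a b : ℕ} {X : Matrix ι ι ℂ} {t : Tens ι a b ℂ} (h : dact X t = 0) (s : ℂ) :
    act (expGL X s) t = t := by
  funext e
  have h1 : ∀ s, HasDerivAt (fun s => act (expGL X s) t e) 0 s := by
    intro s
    have := hasDerivAt_act_exp' X t e s
    rw [h] at this
    have h2 : act (expGL X s) (0 : Tens ι a b ℂ) e = 0 := by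
      rw [act_eq, Matrix.mulVec_zero]; rfl
    rwa [h2] at this
  have h2 := is_const_of_deriv_eq_zero (f := fun s => act (expGL X s) t e)
    (fun s => (h1 s).differentiableAt) (fun s => (h1 s).deriv) s 0
  simp only [expGL_zero, act_one] at h2
  exact h2

theorem expGL_mem {m : Submodule ℂ (Matrix ι ι ℂ)} {X : Matrix ι ι ℂ} (hX : X ∈ m) (s : ℂ) :
    expGL X s ∈ Gp m := fun _ _ _ ht => act_expGL_fix (ht X hX) s

/-- the group `Gp m` normalizes `m` -/
theorem Gp_norm {m : Submodule ℂ (Matrix ι ι ℂ)} (ha : Algebraic m) {g : GL ι ℂ} (hg : g ∈ Gp m)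
    {X : Matrix ι ι ℂ} (hX : X ∈ m) :
    (g : Matrix ι ι ℂ) * X * ((g⁻¹ : GL ι ℂ) : Matrix ι ι ℂ) ∈ m := by
  apply ha
  intro a b t ht
  have h1 := act_dact g X t
  rw [ht X hX, hg a b t ht] at h1
  rw [← h1, act_eq, Matrix.mulVec_zero]

/-- an endomorphism as a tensor -/
def mT (A : Matrix ι ι ℂ) : Tens ι 1 1 ℂ := fun e => A (e.1 0) (e.2 0)

omit [Fintype ι] [DecidableEq ι] in
theorem mT_injective : Function.Injective (mT : Matrix ι ι ℂ → Tens ι 1 1 ℂ) := by
  intro S S' h
  ext i j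
  have := congrFun h (fun _ => i, fun _ => j)
  simpa [mT] using this

theorem act_mT (g : GL ι ℂ) (A : Matrix ι ι ℂ) :
    act g (mT A) = mT ((g : Matrix ι ι ℂ) * A * ((g⁻¹ : GL ι ℂ) : Matrix ι ι ℂ)) := by
  funext e
  simp only [act, mT, Fin.prod_univ_one]
  rw [Fintype.sum_prod_type, ← (Equiv.funUnique (Fin 1) ι).symm.sum_comp]
  simp only [Matrix.mul_apply, Finset.sum_mul]
  rw [Finset.sum_comm]
  rw [← (Equiv.funUnique (Fin 1) ι).symm.sum_comp]
  apply Finset.sum_congr rfl
  intro j _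
  apply Finset.sum_congr rfl
  intro i _
  simp only [Equiv.funUnique_symm_apply, uniqueElim_const]
  ring

theorem dact_mT (Y : Matrix ι ι ℂ) (A : Matrix ι ι ℂ) :
    dact Y (mT A) = mT (Y * A - A * Y) := by
  funext e
  have h1 := hasDerivAt_act_exp Y (mT A) e
  have h2 := hasDerivAt_conj Y A (e.1 0) (e.2 0)
  have h3 : (fun s => act (expGL Y s) (mT A) e) =
      fun s => ((expGL Y s : Matrix ι ι ℂ) * A * (((expGL Y s)⁻¹ : GL ι ℂ) : Matrix ι ι ℂ)) (e.1 0) (e.2 0) := by
    funext s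
    rw [act_mT]
    rfl
  rw [h3] at h1
  exact h1.unique h2

theorem killed_mT {m : Submodule ℂ (Matrix ι ι ℂ)} {C : Matrix ι ι ℂ} : Killed m (mT C) ↔ Com m C := by
  constructor
  · intro h X hX
    have h1 := h X hX
    rw [dact_mT] at h1
    have h2 : X * C - C * X = 0 := mT_injective (by rw [h1]; rfl)
    exact sub_eq_zero.1 h2
  · intro h X hX
    rw [dact_mT, h X hX, sub_self]
    rfl

/-- the group `Gp m` commutes with the commutant of `m` -/
theorem Gp_com {m : Submodule ℂ (Matrix ι ι ℂ)} {g : GL ι ℂ} (hg : g ∈ Gp m) {C : Matrix ι ι ℂ}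
    (hC : Com m C) : (g : Matrix ι ι ℂ) * C = C * (g : Matrix ι ι ℂ) := by
  have h1 := hg 1 1 (mT C) (killed_mT.2 hC)
  rw [act_mT] at h1
  have h2 := mT_injective h1
  calc (g : Matrix ι ι ℂ) * C = ((g : Matrix ι ι ℂ) * C * ((g⁻¹ : GL ι ℂ) : Matrix ι ι ℂ)) * (g : Matrix ι ι ℂ) := by
        rw [Matrix.mul_assoc, ← Units.val_mul, inv_mul_cancel, Units.val_one, Matrix.mul_one]
    _ = _ := by rw [h2]

omit [DecidableEq ι] in
theorem Com.star {m : Submodule ℂ (Matrix ι ι ℂ)} (hm : StarLie m) {C : Matrix ι ι ℂ} (hC : Com m C) :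
    Com m Cᴴ := by
  intro X hX
  have h1 := congrArg Matrix.conjTranspose (hC _ (hm.st X hX))
  rw [Matrix.conjTranspose_mul, Matrix.conjTranspose_mul, Matrix.conjTranspose_conjTranspose] at h1
  exact h1.symm

omit [DecidableEq ι] in
theorem cen_star {m : Submodule ℂ (Matrix ι ι ℂ)} (hm : StarLie m) {Z : Matrix ι ι ℂ} (hZ : Z ∈ cen m) :
    Zᴴ ∈ cen m := by
  refine ⟨hZ.1.star hm, fun C hC => ?_⟩
  have h1 := congrArg Matrix.conjTranspose (hZ.2 _ (hC.star hm))
  rw [Matrix.conjTranspose_mul, Matrix.conjTranspose_mul, Matrix.conjTranspose_conjTranspose] at h1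
  exact h1.symm

/-- `m ⊔ cen m` is closed under commutators and conjugate transposes -/
theorem starLie_sup {m : Submodule ℂ (Matrix ι ι ℂ)} (hm : StarLie m) : StarLie (m ⊔ cen m) := by
  constructor
  · intro X hX Y hY
    obtain ⟨A, hA, Z, hZ, rfl⟩ := Submodule.mem_sup.1 hX
    obtain ⟨B, hB, W, hW, rfl⟩ := Submodule.mem_sup.1 hY
    have h1 : (A + Z) * (B + W) - (B + W) * (A + Z) = A * B - B * A := by
      rw [Matrix.add_mul, Matrix.mul_add, Matrix.mul_add, Matrix.add_mul, Matrix.mul_add, Matrix.mul_add,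
        hW.1 A hA, ← hZ.1 B hB, hW.2 Z hZ.1]
      abel
    rw [h1]
    exact Submodule.mem_sup_left (hm.br A hA B hB)
  · intro X hX
    obtain ⟨A, hA, Z, hZ, rfl⟩ := Submodule.mem_sup.1 hX
    rw [Matrix.conjTranspose_add]
    exact Submodule.add_mem _ (Submodule.mem_sup_left (hm.st A hA))
      (Submodule.mem_sup_right (cen_star hm hZ))

omit [DecidableEq ι] in
/-- positivity of the trace form -/
theorem trace_star_re (X : Matrix ι ι ℂ) : 0 ≤ (Matrix.trace (Xᴴ * X)).re := by
  rw [Matrix.trace, Complex.re_sum]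
  apply Finset.sum_nonneg
  intro i _
  rw [Matrix.diag_apply, Matrix.mul_apply, Complex.re_sum]
  apply Finset.sum_nonneg
  intro j _
  rw [Matrix.conjTranspose_apply, Complex.star_def, ← Complex.normSq_eq_conj_mul_self]
  exact Complex.normSq_nonneg _

omit [DecidableEq ι] in
theorem trace_star_eq_zero {X : Matrix ι ι ℂ} (h : (Matrix.trace (Xᴴ * X)).re = 0) : X = 0 := by
  rw [Matrix.trace, Complex.re_sum] at h
  have h1 : ∀ i, 0 ≤ ((Xᴴ * X).diag i).re := by
    intro i
    rw [Matrix.diag_apply, Matrix.mul_apply, Complex.re_sum]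
    apply Finset.sum_nonneg
    intro j _
    rw [Matrix.conjTranspose_apply, Complex.star_def, ← Complex.normSq_eq_conj_mul_self]
    exact Complex.normSq_nonneg _
  have h2 := (Finset.sum_eq_zero_iff_of_nonneg (fun i _ => h1 i)).1 h
  ext j i
  have h3 := h2 i (Finset.mem_univ i)
  rw [Matrix.diag_apply, Matrix.mul_apply, Complex.re_sum] at h3
  have h4 := (Finset.sum_eq_zero_iff_of_nonneg (fun j _ => by
    rw [Matrix.conjTranspose_apply, Complex.star_def, ← Complex.normSq_eq_conj_mul_self]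
    exact Complex.normSq_nonneg _)).1 h3 j (Finset.mem_univ j)
  rw [Matrix.conjTranspose_apply, Complex.star_def, ← Complex.normSq_eq_conj_mul_self, Complex.ofReal_re,
    Complex.normSq_eq_zero] at h4
  rw [h4]
  rfl

end Pool.Agent.Work.MP_0da4e0_ag.Ex
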