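import Pool.Agent.Work.MP_0da4e0_ag.Ex.Defs

/-! MP_0da4e0_ag, exact criterion, module Dtp: the derivation of the tensor powers of a matrix.

PROOFS.
(apply) expand: (dtp f X *ᵥ w) e = ∑ e', ∑ j, (∏ i ≠ j, [e i = e' i]) * X (e j) (e' j) * w e'; for fixed j
the nonzero terms are e' = Function.update e j i, i in ι.
(add, smul): linearity in X. (star) dtp f Xᴴ e e' = conj (dtp f X e' e): the entries of 1 are symmetric and
real.
(bracket) from dact_bracket applied to tensors with f upper and 0 lower indices (for w : Tens ι f 0 ℂ,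
dact X w is dtp f X applied to w through the equivalence (Fin f → ι) × (Fin 0 → ι) ≃ (Fin f → ι)), or
directly from (apply): the terms with two different indices j cancel.
(killed) for t : Tens ι f f ℂ, toMat (dact X t) = dtp f X * toMat t - toMat t * dtp f X: expand the
definition of dmat.
(tpow) differentiate act_toMat / tpow_mul: tpow f (g * expGL X s) = tpow f (expGL (g X g⁻¹) s * g) at s = 0,
or directly: the (e, e') entry of tpow f g * dtp f X is ∑_j (∏_{i ≠ j} g (e i) (e' i)) * (g X) (e j) (e' j),
and that of dtp f Z * tpow f g is ∑_j (∏_{i ≠ j} g (e i) (e' i)) * (Z g) (e j) (e' j), and g X = Z g. -/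

open Matrix

namespace Pool.Agent.Work.MP_0da4e0_ag.Ex

variable {ι : Type} [Fintype ι] [DecidableEq ι]

/-- tensor product of a family of matrices -/
private def tp {f : ℕ} (A : Fin f → Matrix ι ι ℂ) : Matrix (Fin f → ι) (Fin f → ι) ℂ :=
  fun e e' => ∏ i, A i (e i) (e' i)

omit [DecidableEq ι] in
private theorem tp_mul {f : ℕ} (A B : Fin f → Matrix ι ι ℂ) : tp A * tp B = tp (fun i => A i * B i) := by
  ext e e'
  rw [Matrix.mul_apply]
  simp only [tp, Matrix.mul_apply]
  rw [Finset.prod_univ_sum]
  simp only [Fintype.piFinset_univ]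
  apply Finset.sum_congr rfl
  intro a _
  rw [Finset.prod_mul_distrib]

omit [Fintype ι] in
private theorem dtp_eq {f : ℕ} (X : Matrix ι ι ℂ) :
    dtp f X = ∑ j, tp (Function.update (fun _ => (1 : Matrix ι ι ℂ)) j X) := by
  ext e e'
  rw [Matrix.sum_apply]
  simp only [dtp, tp]
  apply Finset.sum_congr rfl
  intro j _
  rw [← Finset.mul_prod_erase Finset.univ _ (Finset.mem_univ j), mul_comm]
  congr 1
  · simp
  · apply Finset.prod_congr rfl
    intro i hi
    rw [Function.update_of_ne (Finset.ne_of_mem_erase hi)]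

omit [Fintype ι] [DecidableEq ι] in
private theorem tpow_eq {f : ℕ} (g : Matrix ι ι ℂ) [Fintype ι] : tpow f g = tp (fun _ => g) := rfl

theorem dtp_apply {f : ℕ} (X : Matrix ι ι ℂ) (w : (Fin f → ι) → ℂ) (e : Fin f → ι) :
    (dtp f X *ᵥ w) e = ∑ j, ∑ i, X (e j) i * w (Function.update e j i) := by
  simp only [Matrix.mulVec, dotProduct, dtp, Finset.sum_mul]
  rw [Finset.sum_comm]
  apply Finset.sum_congr rfl
  intro j _
  symm
  refine Finset.sum_of_injOn (fun i => Function.update e j i) ?_ (fun _ _ => Finset.mem_coe.2 (Finset.mem_univ _)) ?_ ?_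
  · intro a _ b _ hab
    have := congrFun hab j
    simpa using this
  · intro e' _ he'
    have : ∃ i ∈ Finset.univ.erase j, e i ≠ e' i := by
      by_contra hcon
      push Not at hcon
      apply he'
      refine ⟨e' j, Finset.mem_coe.2 (Finset.mem_univ _), ?_⟩
      funext i
      by_cases hi : i = j
      · subst hi; simp
      · change Function.update e j (e' j) i = e' i
        rw [Function.update_of_ne hi]
        exact hcon i (Finset.mem_erase.2 ⟨hi, Finset.mem_univ _⟩)
    obtain ⟨i, hi, hne⟩ := this
    have h0 : (∏ i ∈ Finset.univ.erase j, (1 : Matrix ι ι ℂ) (e i) (e' i)) = 0 :=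
      Finset.prod_eq_zero hi (Matrix.one_apply_ne hne)
    simp only [h0, zero_mul]
  · intro i _
    have h1 : (∏ k ∈ Finset.univ.erase j, (1 : Matrix ι ι ℂ) (e k) (Function.update e j i k)) = 1 := by
      apply Finset.prod_eq_one
      intro k hk
      rw [Function.update_of_ne (Finset.ne_of_mem_erase hk), Matrix.one_apply_eq]
    simp only [h1, Function.update_self, one_mul]

theorem dtp_add {f : ℕ} (X Y : Matrix ι ι ℂ) : dtp f (X + Y) = dtp f X + dtp f Y := by
  ext e e'
  simp only [dtp, Matrix.add_apply, mul_add, Finset.sum_add_distrib]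

theorem dtp_smul {f : ℕ} (c : ℂ) (X : Matrix ι ι ℂ) : dtp f (c • X) = c • dtp f X := by
  ext e e'
  simp only [dtp, Matrix.smul_apply, smul_eq_mul, Finset.mul_sum]
  apply Finset.sum_congr rfl
  intro j _
  ring

theorem dtp_star {f : ℕ} (X : Matrix ι ι ℂ) : dtp f Xᴴ = (dtp f X)ᴴ := by
  ext e e'
  rw [Matrix.conjTranspose_apply]
  simp only [dtp, star_sum, star_mul', star_prod, Matrix.conjTranspose_apply]
  apply Finset.sum_congr rfl
  intro j _
  congr 1
  apply Finset.prod_congr rfl
  intro i _
  rw [Matrix.one_apply, Matrix.one_apply]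
  by_cases h : e i = e' i
  · simp [h]
  · rw [if_neg h, if_neg (fun h' => h h'.symm), star_zero]

theorem dtp_bracket {f : ℕ} (X Y : Matrix ι ι ℂ) :
    dtp f (X * Y - Y * X) = dtp f X * dtp f Y - dtp f Y * dtp f X := by
  have hsub : dtp f (X * Y - Y * X) = dtp f (X * Y) - dtp f (Y * X) := by
    rw [sub_eq_add_neg, dtp_add, ← neg_one_smul ℂ (Y * X), dtp_smul, neg_one_smul, ← sub_eq_add_neg]
  have key : ∀ A B : Matrix ι ι ℂ, dtp f A * dtp f B = dtp f (A * B) +
      ∑ j, ∑ k ∈ Finset.univ.erase j, tp (fun i => if i = j then A else if i = k then B else (1 : Matrix ι ι ℂ)) := by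
    intro A B
    rw [dtp_eq, dtp_eq, dtp_eq, Finset.sum_mul, ← Finset.sum_add_distrib]
    apply Finset.sum_congr rfl
    intro j _
    rw [Finset.mul_sum, ← Finset.add_sum_erase Finset.univ _ (Finset.mem_univ j)]
    congr 1
    · rw [tp_mul]
      congr 1
      funext i
      by_cases hi : i = j
      · subst hi; simp
      · simp [Function.update_of_ne hi]
    · apply Finset.sum_congr rfl
      intro k hk
      rw [tp_mul]
      congr 1
      funext i
      have hkj := Finset.ne_of_mem_erase hk
      by_cases hi : i = j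
      · subst hi
        simp [Function.update_of_ne (Ne.symm hkj)]
      · by_cases hik : i = k
        · subst hik
          simp [hi]
        · simp [hi, hik]
  have hsym : (∑ j : Fin f, ∑ k ∈ Finset.univ.erase j,
        tp (fun i => if i = j then X else if i = k then Y else (1 : Matrix ι ι ℂ))) =
      ∑ j : Fin f, ∑ k ∈ Finset.univ.erase j,
        tp (fun i => if i = j then Y else if i = k then X else (1 : Matrix ι ι ℂ)) := by
    rw [Finset.sum_comm' (t' := Finset.univ) (s' := fun k => Finset.univ.erase k)]
    · apply Finset.sum_congr rfl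
      intro k _
      apply Finset.sum_congr rfl
      intro j hj
      congr 1
      funext i
      have hjk := Finset.ne_of_mem_erase hj
      by_cases hi : i = k
      · subst hi
        simp [Ne.symm hjk]
      · simp [hi]
    · intro j k
      simp [eq_comm]
  rw [hsub, key, key, hsym]
  abel

theorem dact_iff {f : ℕ} (X : Matrix ι ι ℂ) (t : Tens ι f f ℂ) :
    dact X t = 0 ↔ dtp f X * toMat t = toMat t * dtp f X := by
  have h1 : ∀ (a b : Fin f → ι), (∏ j, (1 : Matrix ι ι ℂ) (a j) (b j)) =
      (1 : Matrix (Fin f → ι) (Fin f → ι) ℂ) a b := by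
    intro a b
    rw [← tpow_one (ι := ι) (R := ℂ) f]
    rfl
  have h2 : toMat (dact X t) = dtp f X * toMat t - toMat t * dtp f X := by
    ext e e'
    rw [Matrix.sub_apply, Matrix.mul_apply, Matrix.mul_apply]
    simp only [toMat, dact, Matrix.mulVec, dotProduct, dmat, h1]
    rw [Fintype.sum_prod_type]
    simp only [sub_mul, Finset.sum_sub_distrib]
    congr 1
    · apply Finset.sum_congr rfl
      intro a _
      rw [Finset.sum_eq_single e']
      · rw [Matrix.one_apply_eq, mul_one]
        rfl
      · intro b _ hb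
        rw [Matrix.one_apply_ne hb, mul_zero, zero_mul]
      · intro h
        exact absurd (Finset.mem_univ _) h
    · rw [Finset.sum_eq_single e]
      · apply Finset.sum_congr rfl
        intro b _
        rw [Matrix.one_apply_eq, one_mul, mul_comm]
        rfl
      · intro a _ ha
        apply Finset.sum_eq_zero
        intro b _
        rw [Matrix.one_apply_ne (Ne.symm ha), zero_mul, zero_mul]
      · intro h
        exact absurd (Finset.mem_univ _) h
  constructor
  · intro h
    rw [h] at h2
    exact (sub_eq_zero.1 h2.symm)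
  · intro h
    rw [h, sub_self] at h2
    exact toMat_injective h2

theorem tpow_dtp {f : ℕ} {g X Z : Matrix ι ι ℂ} (h : g * X = Z * g) :
    tpow f g * dtp f X = dtp f Z * tpow f g := by
  rw [dtp_eq, dtp_eq, tpow_eq, Finset.mul_sum, Finset.sum_mul]
  apply Finset.sum_congr rfl
  intro j _
  rw [tp_mul, tp_mul]
  congr 1
  funext i
  by_cases hi : i = j
  · subst hi
    simp [h]
  · simp [Function.update_of_ne hi]

end Pool.Agent.Work.MP_0da4e0_ag.Ex
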