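import Pool.Agent.Work.MP_0da4e0_ag.Ex.Defs

/-! MP_0da4e0_ag, exact criterion, module Fc: functional calculus for diagonal operators on a space of
matrices.

PROOF. Let T be the linear map X ↦ (t i j * X i j) of the space of matrices. For every polynomial q,
(aeval T q) X = (eval (t i j) q * X i j) (induction on q, or write q as a sum of monomials), and aeval T q
maps m to m since T does (ht) and m is a subspace. The values t i j form a finite set, and s is a
function of t on it by hs: Lagrange interpolation (Lagrange.interpolate on the finite set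
Finset.univ.image (fun p : ι × ι => t p.1 p.2), with id as nodes) gives q with eval (t i j) q = s i j
for all i, j. -/

open Matrix

namespace Pool.Agent.Work.MP_0da4e0_ag.Ex

variable {ι : Type} [Fintype ι] [DecidableEq ι]

omit [Fintype ι] [DecidableEq ι] in
private theorem fc_poly (m : Submodule ℂ (Matrix ι ι ℂ)) (t : ι → ι → ℂ)
    (ht : ∀ X ∈ m, (Matrix.of fun i j => t i j * X i j) ∈ m) (q : Polynomial ℂ) :
    ∀ X ∈ m, (Matrix.of fun i j => q.eval (t i j) * X i j) ∈ m := by
  induction q using Polynomial.induction_on with
  | C a =>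
    intro X hX
    have h := m.smul_mem a hX
    convert h using 1
    ext i j
    simp [Matrix.smul_apply]
  | add p q hp hq =>
    intro X hX
    have h := m.add_mem (hp X hX) (hq X hX)
    convert h using 1
    ext i j
    simp [Matrix.add_apply, add_mul]
  | monomial n a h =>
    intro X hX
    have h := ht _ (h X hX)
    convert h using 1
    ext i j
    simp only [Matrix.of_apply, Polynomial.eval_mul, Polynomial.eval_C, Polynomial.eval_pow,
      Polynomial.eval_X, pow_succ]
    ring

theorem fc (m : Submodule ℂ (Matrix ι ι ℂ)) (t s : ι → ι → ℂ)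
    (ht : ∀ X ∈ m, (Matrix.of fun i j => t i j * X i j) ∈ m)
    (hs : ∀ i j k l, t i j = t k l → s i j = s k l) :
    ∀ X ∈ m, (Matrix.of fun i j => s i j * X i j) ∈ m := by
  classical
  let S : Finset ℂ := Finset.univ.image (fun p : ι × ι => t p.1 p.2)
  let r : ℂ → ℂ := fun z => if h : ∃ p : ι × ι, t p.1 p.2 = z then s h.choose.1 h.choose.2 else 0
  have hr : ∀ i j, r (t i j) = s i j := by
    intro i j
    have h : ∃ p : ι × ι, t p.1 p.2 = t i j := ⟨(i, j), rfl⟩
    show (if h : ∃ p : ι × ι, t p.1 p.2 = t i j then s h.choose.1 h.choose.2 else 0) = s i j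
    rw [dif_pos h]
    exact hs _ _ _ _ h.choose_spec
  have hq : ∀ i j, (Lagrange.interpolate S id r).eval (t i j) = s i j := by
    intro i j
    have h1 : t i j ∈ S := Finset.mem_image.2 ⟨(i, j), Finset.mem_univ _, rfl⟩
    have h2 := Lagrange.eval_interpolate_at_node (v := id) r (Set.injOn_id _) h1
    rw [← hr i j]
    exact h2
  intro X hX
  have h := fc_poly m t ht (Lagrange.interpolate S id r) X hX
  simp only [hq] at h
  exact h

end Pool.Agent.Work.MP_0da4e0_ag.Ex
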