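import Pool.Agent.Work.MP_0da4e0_ag.Ex.Dtp

/-! MP_0da4e0_ag, exact criterion, module LowGen: the subspace generated by a highest vector.

PROOF. Let U be the intersection of all subspaces N' which contain ω and are stable under dtp f W for all W
in lo (sInf). N is one of them, so U ≤ N; U contains ω and is stable under dtp f W, W in lo. Let
U' = {w ∈ U | ∀ X ∈ l, dtp f X *ᵥ w ∈ U}, a subspace. It contains ω by hω. It is stable under dtp f W,
W in lo: for w in U', dtp f W w is in U, and for X in l, by dtp_bracket,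
dtp X (dtp W w) = dtp W (dtp X w) + dtp (X W - W X) w; the first term is in U since dtp X w is in U and U is
stable under lo, the second since X W - W X is in l (hbr, hlo) and w in U'. So U ≤ U', i.e. U is stable
under l. -/

open Matrix

namespace Pool.Agent.Work.MP_0da4e0_ag.Ex

variable {ι : Type} [Fintype ι] [DecidableEq ι]

theorem low_gen (l lo : Submodule ℂ (Matrix ι ι ℂ)) (hbr : ∀ X ∈ l, ∀ Y ∈ l, X * Y - Y * X ∈ l)
    (hlo : lo ≤ l) {f : ℕ} (ω : (Fin f → ι) → ℂ)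
    (hω : ∀ X ∈ l, ∃ W ∈ lo, ∃ c : ℂ, dtp f X *ᵥ ω = dtp f W *ᵥ ω + c • ω)
    (N : Submodule ℂ ((Fin f → ι) → ℂ)) (hN1 : ω ∈ N) (hN2 : ∀ W ∈ lo, ∀ w ∈ N, dtp f W *ᵥ w ∈ N) :
    ∃ U : Submodule ℂ ((Fin f → ι) → ℂ), ω ∈ U ∧ U ≤ N ∧ ∀ X ∈ l, ∀ w ∈ U, dtp f X *ᵥ w ∈ U := by
  let S : Set (Submodule ℂ ((Fin f → ι) → ℂ)) :=
    {N' | ω ∈ N' ∧ ∀ W ∈ lo, ∀ w ∈ N', dtp f W *ᵥ w ∈ N'}
  let U : Submodule ℂ ((Fin f → ι) → ℂ) := sInf S
  have h1 : ω ∈ U := Submodule.mem_sInf.2 fun N' hN' => hN'.1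
  have h2 : ∀ W ∈ lo, ∀ w ∈ U, dtp f W *ᵥ w ∈ U := fun W hW w hw =>
    Submodule.mem_sInf.2 fun N' hN' => hN'.2 W hW w (Submodule.mem_sInf.1 hw N' hN')
  let U' : Submodule ℂ ((Fin f → ι) → ℂ) :=
    { carrier := {w | w ∈ U ∧ ∀ X ∈ l, dtp f X *ᵥ w ∈ U}
      add_mem' := by
        rintro a b ⟨ha, ha'⟩ ⟨hb, hb'⟩
        refine ⟨U.add_mem ha hb, fun X hX => ?_⟩
        rw [mulVec_add]
        exact U.add_mem (ha' X hX) (hb' X hX)
      zero_mem' := ⟨U.zero_mem, fun X _ => by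
        rw [mulVec_zero]
        exact U.zero_mem⟩
      smul_mem' := by
        rintro c a ⟨ha, ha'⟩
        refine ⟨U.smul_mem c ha, fun X hX => ?_⟩
        rw [mulVec_smul]
        exact U.smul_mem c (ha' X hX) }
  have h3 : U' ∈ S := by
    refine ⟨⟨h1, fun X hX => ?_⟩, ?_⟩
    · obtain ⟨W, hW, c, hc⟩ := hω X hX
      rw [hc]
      exact U.add_mem (h2 W hW ω h1) (U.smul_mem c h1)
    · rintro W hW w ⟨hw, hw'⟩
      refine ⟨h2 W hW w hw, fun X hX => ?_⟩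
      have e : dtp f X *ᵥ (dtp f W *ᵥ w) =
          dtp f W *ᵥ (dtp f X *ᵥ w) + dtp f (X * W - W * X) *ᵥ w := by
        rw [dtp_bracket, sub_mulVec, mulVec_mulVec, mulVec_mulVec]
        abel
      rw [e]
      exact U.add_mem (h2 W hW _ (hw' X hX)) (hw' _ (hbr X hX W (hlo hW)))
  have h4 : U ≤ U' := sInf_le h3
  exact ⟨U, h1, sInf_le (show N ∈ S from ⟨hN1, hN2⟩), fun X hX w hw => (h4 hw).2 X hX⟩

end Pool.Agent.Work.MP_0da4e0_ag.Ex
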