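import Pool.Agent.Work.MP_0da4e0_ag.Ex.Dtp

/-! MP_0da4e0_ag, exact criterion, module Wd: exterior products of vectors.

PROOFS.
(alt) wd u (e ∘ p) is the determinant of the matrix with permuted rows: Matrix.det_permute.
(dtp) (dtp f X *ᵥ wd u) e = ∑_j ∑_i X (e j) i * wd u (Function.update e j i) (dtp_apply); the inner sum is
the determinant of the matrix (u q (e p)) with row j replaced by the row q ↦ (X *ᵥ u q) (e j) (linearity in
the row j: Matrix.det_updateRow_sum or expansion along the row). If X *ᵥ u q = ∑ r, P q r • u r then this row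
is (row j of M) * Pᵀ-type combination; alternatively use the sum over the columns: both ∑_j (row j replaced)
and ∑_q (column q replaced by (X u q)(e p)) are equal to
∑_j ∑_q cofactor(j, q) * (X *ᵥ u q) (e j) (expansion of the determinant with a replaced row / column:
Matrix.det_updateRow / Matrix.cramer / adjugate: det (M.updateRow j b) = ∑ q, b q * adjugate M q j and
det (M.updateCol q c) = ∑ p, adjugate M q p * c p). The determinant with column q replaced by the column
∑_r P q r • (column r) is P q q * det M (the other terms have two equal columns). Total: (∑ q, P q q) det M.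
(tpow) (tpow f g *ᵥ wd u) e = ∑_{e'} (∏_p g (e p) (e' p)) det (u q (e' p)) = det (∑_i g (e p) i * u q i):
expand the determinant (Matrix.det_apply) and use Finset.prod_univ_sum.
(ne_zero) wd u at e = v is det of (if v q = v p then 1 else 0) = det 1 = 1. -/

open Matrix

namespace Pool.Agent.Work.MP_0da4e0_ag.Ex

variable {ι : Type} [Fintype ι] [DecidableEq ι]

omit [Fintype ι] [DecidableEq ι] in
theorem wd_alt {f : ℕ} (u : Fin f → ι → ℂ) (p : Equiv.Perm (Fin f)) (e : Fin f → ι) :
    wd u (e ∘ p) = ((Equiv.Perm.sign p : ℤ) : ℂ) * wd u e :=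
  Matrix.det_permute p (Matrix.of fun p q => u q (e p))

omit [Fintype ι] in
private theorem wd_update {f : ℕ} (u : Fin f → ι → ℂ) (e : Fin f → ι) (j : Fin f) (i : ι) :
    wd u (Function.update e j i) =
      ∑ q, (Matrix.of fun p q => u q (e p)).adjugate q j * u q i := by
  have h1 : (Matrix.of fun p q => u q (Function.update e j i p)) =
      (Matrix.of fun p q => u q (e p)).updateRow j (fun q => u q i) := by
    ext p q
    by_cases hp : p = j
    · subst hp
      simp
    · rw [Matrix.updateRow_ne hp]
      simp [Function.update_of_ne hp]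
  rw [wd, h1, ← Matrix.cramer_transpose_apply, Matrix.cramer_eq_adjugate_mulVec,
    ← Matrix.adjugate_transpose]
  rfl

theorem dtp_wd {f : ℕ} (X : Matrix ι ι ℂ) (u : Fin f → ι → ℂ) (P : Fin f → Fin f → ℂ)
    (h : ∀ q, X *ᵥ u q = ∑ r, P q r • u r) : dtp f X *ᵥ wd u = (∑ q, P q q) • wd u := by
  funext e
  rw [dtp_apply, Pi.smul_apply, smul_eq_mul]
  set M : Matrix (Fin f) (Fin f) ℂ := Matrix.of fun p q => u q (e p) with hM
  have h1 : ∀ j : Fin f, (∑ i, X (e j) i * wd u (Function.update e j i)) =
      ∑ q, ∑ r, P q r * (M.adjugate q j * M j r) := by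
    intro j
    have h2 : ∀ q, (∑ i, X (e j) i * u q i) = ∑ r, P q r * u r (e j) := by
      intro q
      have := congrFun (h q) (e j)
      rw [Finset.sum_apply] at this
      exact this
    calc (∑ i, X (e j) i * wd u (Function.update e j i))
        = ∑ i, ∑ q, M.adjugate q j * (X (e j) i * u q i) := by
          apply Finset.sum_congr rfl
          intro i _
          rw [wd_update, Finset.mul_sum]
          apply Finset.sum_congr rfl
          intro q _
          rw [hM]
          ring
      _ = ∑ q, M.adjugate q j * ∑ i, (X (e j) i * u q i) := by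
          rw [Finset.sum_comm]
          apply Finset.sum_congr rfl
          intro q _
          rw [Finset.mul_sum]
      _ = _ := by
          apply Finset.sum_congr rfl
          intro q _
          rw [h2, Finset.mul_sum]
          apply Finset.sum_congr rfl
          intro r _
          have : M j r = u r (e j) := rfl
          rw [this]
          ring
  rw [Finset.sum_congr rfl (fun j _ => h1 j), Finset.sum_comm, Finset.sum_mul]
  apply Finset.sum_congr rfl
  intro q _
  rw [Finset.sum_comm]
  have h3 : ∀ r, (∑ j, P q r * (M.adjugate q j * M j r)) = P q r * (if q = r then M.det else 0) := by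
    intro r
    rw [← Finset.mul_sum]
    congr 1
    have := congrFun (congrFun (Matrix.adjugate_mul M) q) r
    rw [Matrix.mul_apply, Matrix.smul_apply, Matrix.one_apply] at this
    rw [this]
    split_ifs <;> simp
  rw [Finset.sum_congr rfl (fun r _ => h3 r)]
  simp only [mul_ite, mul_zero, Finset.sum_ite_eq, Finset.mem_univ, if_true]
  rfl

omit [DecidableEq ι] in
theorem tpow_wd {f : ℕ} (g : Matrix ι ι ℂ) (u : Fin f → ι → ℂ) :
    tpow f g *ᵥ wd u = wd (fun q => g *ᵥ u q) := by
  funext e
  have hdet : ∀ (v : Fin f → ι → ℂ) (e' : Fin f → ι), wd v e' =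
      ∑ σ : Equiv.Perm (Fin f), Equiv.Perm.sign σ • ∏ p, v (σ p) (e' p) := by
    intro v e'
    rw [wd, ← Matrix.det_transpose, Matrix.det_apply]
    rfl
  rw [hdet]
  simp only [Matrix.mulVec, dotProduct, hdet, tpow]
  simp only [Finset.mul_sum]
  rw [Finset.sum_comm]
  apply Finset.sum_congr rfl
  intro σ _
  rw [Finset.prod_univ_sum, Finset.smul_sum]
  simp only [Fintype.piFinset_univ]
  apply Finset.sum_congr rfl
  intro e' _
  rw [Finset.prod_mul_distrib, mul_smul_comm]

omit [Fintype ι] in
theorem wd_single_ne {f : ℕ} (v : Fin f → ι) (hv : Function.Injective v) :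
    wd (fun q => (Pi.single (v q) 1 : ι → ℂ)) ≠ 0 := by
  intro h
  have h1 := congrFun h v
  have h2 : wd (fun q => (Pi.single (v q) 1 : ι → ℂ)) v = 1 := by
    rw [wd, ← Matrix.det_one (n := Fin f) (R := ℂ)]
    congr 1
    ext p q
    rw [Matrix.of_apply, Matrix.one_apply, Pi.single_apply]
    by_cases hpq : p = q
    · subst hpq
      simp
    · rw [if_neg hpq, if_neg (fun h' => hpq (hv h'))]
  rw [h2] at h1
  exact one_ne_zero h1

end Pool.Agent.Work.MP_0da4e0_ag.Ex
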