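import Pool.Agent.Work.MP_0da4e0_ag.Ex.Fc
import Pool.Agent.Work.MP_0da4e0_ag.Ex.Wd
import Pool.Agent.Work.MP_0da4e0_ag.Ex.AdmSt
import Pool.Agent.Work.MP_0da4e0_ag.Ex.LowGen

/-! MP_0da4e0_ag, exact criterion, module FlagIn: the inequality for one step of the flag.

PROOF. Let f = S.card, v : Fin f → ι an injective enumeration of S (S.equivFin.symm), u q = Pi.single (v q) 1,
ω = wd u, A = ∑ i ∈ S, y i, l = m ⊔ cen m (starLie_sup hm).
(1) For Z in cen m, Z commutes with dg x, so Z i j ≠ 0 implies x i = x j. Hence for W in l (W = B + Z) with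
W i j ≠ 0 and x i < x j we have B i j ≠ 0, so y i ≤ y j by hP.
(2) lo = {W ∈ l | ∀ i j, W i j ≠ 0 → x i < x j} (a submodule). For X in l put X' = (if x i < x j then X i j
else 0), in l by Fc.fc for l with t i j = x i - x j (the matrix (x i - x j) X i j = (dg x) X - X (dg x) is
in l, as dg x in m) and s i j = if x i < x j then 1 else 0; so X' in lo. B = X - X' has B i j ≠ 0 only
if x j ≤ x i. So B *ᵥ u q = column v q of B is supported on the i with x (v q) ≤ x i, which are in S by hup
(if i ∉ S then x i < x (v q)); so B *ᵥ u q = ∑ r, B (v r) (v q) • u r, and dtp_wd gives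
dtp f B *ᵥ ω = c • ω. So dtp f X *ᵥ ω = dtp f X' *ᵥ ω + c • ω (dtp_add).
(3) N = {w | (∀ p e, w (e ∘ p) = sign p * w e) ∧ ∀ e, w e ≠ 0 → ∑ q, y (e q) ≤ A}, a submodule. ω in N: wd_alt;
if ω e ≠ 0 then the determinant of (if e p = v q then 1 else 0) is not zero, so e is v composed with a
permutation (every row is nonzero so e p = v (s p); s is injective as equal rows give determinant 0), and
∑ q, y (e q) = ∑ q, y (v q) = A. N is stable under dtp f W for W in lo: by dtp_apply, if (dtp f W *ᵥ w) e ≠ 0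
there are j, i with W (e j) i ≠ 0 and w (Function.update e j i) ≠ 0; then x (e j) < x i, y (e j) ≤ y i by
(1), and ∑ q, y (e q) = ∑ q, y (update e j i q) + y (e j) - y i ≤ A. Alternation:
Function.update (e ∘ p) j i = (Function.update e (p j) i) ∘ p.
(4) low_gen gives U with ω in U ≤ N stable under l. adm_stable (alternation from U ≤ N) gives
w0 = tpow f g *ᵥ ω in U ≤ N. w0 ≠ 0: tpow f g is invertible (tpow_mul, tpow_one with g⁻¹) and ω ≠ 0
(wd_single_ne). dtp f (dg x) *ᵥ ω = (∑ i ∈ S, x i) • ω (dtp_wd), and tpow_dtp with g * dg x = dg y * g: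
dtp f (dg y) *ᵥ w0 = (∑ i ∈ S, x i) • w0. By dtp_apply (dtp f (dg y) *ᵥ w0) e = (∑ q, y (e q)) * w0 e. Take e
with w0 e ≠ 0: ∑ i ∈ S, x i = ∑ q, y (e q) ≤ A. -/

open Matrix

namespace Pool.Agent.Work.MP_0da4e0_ag.Ex

variable {ι : Type} [Fintype ι] [DecidableEq ι]

omit [Fintype ι] in
/-- the entries of a matrix commuting with a real diagonal matrix -/
private theorem commute_dg_entry [Fintype ι] {x : ι → ℝ} {Z : Matrix ι ι ℂ} (h : dg x * Z = Z * dg x) {i j : ι}
    (hij : Z i j ≠ 0) : x i = x j := by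
  have h1 := congrFun (congrFun h i) j
  rw [dg, Matrix.diagonal_mul, Matrix.mul_diagonal, mul_comm] at h1
  have h2 := mul_left_cancel₀ hij h1
  exact_mod_cast h2

private theorem wd_support {f : ℕ} {v : Fin f → ι} {e : Fin f → ι}
    (h : wd (fun q => (Pi.single (v q) 1 : ι → ℂ)) e ≠ 0) (y : ι → ℝ) :
    ∑ q, y (e q) = ∑ q, y (v q) := by
  rw [wd, Matrix.det_apply] at h
  obtain ⟨σ, -, hσ⟩ := Finset.exists_ne_zero_of_sum_ne_zero h
  have h1 : ∏ i, (Matrix.of fun p q => (Pi.single (v q) 1 : ι → ℂ) (e p)) (σ i) i ≠ 0 := by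
    intro h2
    apply hσ
    rw [h2, smul_zero]
  have h2 : ∀ i, e (σ i) = v i := by
    intro i
    have h3 := Finset.prod_ne_zero_iff.1 h1 i (Finset.mem_univ i)
    rw [Matrix.of_apply] at h3
    by_contra h4
    exact h3 (Pi.single_eq_of_ne h4 _)
  calc ∑ q, y (e q) = ∑ q, y (e (σ q)) := (Equiv.sum_comp σ fun q => y (e q)).symm
    _ = ∑ q, y (v q) := Finset.sum_congr rfl fun q _ => by rw [h2]

private theorem sum_update_le {f : ℕ} (y : ι → ℝ) (e : Fin f → ι) (j : Fin f) (i : ι)
    (h : y (e j) ≤ y i) : ∑ q, y (e q) ≤ ∑ q, y (Function.update e j i q) := by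
  apply Finset.sum_le_sum
  intro q _
  by_cases hq : q = j
  · subst hq
    rw [Function.update_self]
    exact h
  · rw [Function.update_of_ne hq]

private theorem update_comp_perm {f : ℕ} (e : Fin f → ι) (p : Equiv.Perm (Fin f)) (j : Fin f)
    (i : ι) : Function.update (e ∘ p) j i = Function.update e (p j) i ∘ p := by
  funext q
  by_cases hq : q = j
  · subst hq
    rw [Function.update_self, Function.comp_apply, Function.update_self]
  · rw [Function.update_of_ne hq, Function.comp_apply, Function.comp_apply,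
      Function.update_of_ne (fun h => hq (p.injective h))]

theorem flag_in {m : Submodule ℂ (Matrix ι ι ℂ)} (hm : StarLie m) {x y : ι → ℝ} (hx : dg x ∈ m)
    {g : GL ι ℂ} (hg : Adm m g) (hgx : (g : Matrix ι ι ℂ) * dg x = dg y * (g : Matrix ι ι ℂ))
    (hP : ∀ W ∈ m, ∀ i j, W i j ≠ 0 → x i < x j → y i ≤ y j)
    (S : Finset ι) (hS0 : 1 ≤ S.card) (hS : 2 * S.card ≤ Fintype.card ι)
    (hup : ∀ i ∈ S, ∀ j ∉ S, x j < x i) :
    ∑ i ∈ S, x i ≤ ∑ i ∈ S, y i := by
  -- the enumeration of `S`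
  set v : Fin S.card → ι := fun q => (S.equivFin.symm q : ι) with hv
  have hvS : ∀ q, v q ∈ S := fun q => (S.equivFin.symm q).2
  have hvi : Function.Injective v := fun a b h =>
    S.equivFin.symm.injective (Subtype.ext h)
  have hsum : ∀ z : ι → ℝ, ∑ q, z (v q) = ∑ i ∈ S, z i := by
    intro z
    rw [← Finset.sum_coe_sort S z]
    exact Equiv.sum_comp S.equivFin.symm fun i : S => z i
  have hsurj : ∀ i ∈ S, ∃ q, v q = i := fun i hi =>
    ⟨S.equivFin ⟨i, hi⟩, by rw [hv]; simp⟩
  set ω : (Fin S.card → ι) → ℂ := wd (fun q => (Pi.single (v q) 1 : ι → ℂ)) with hω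
  have hl := starLie_sup hm
  have hxl : dg x ∈ m ⊔ cen m := Submodule.mem_sup_left hx
  -- (1)
  have h1 : ∀ W ∈ m ⊔ cen m, ∀ i j, W i j ≠ 0 → x i < x j → y i ≤ y j := by
    intro W hW i j hij hlt
    obtain ⟨B, hB, Z, hZ, rfl⟩ := Submodule.mem_sup.1 hW
    have hZ0 : Z i j = 0 := by
      by_contra h
      exact absurd (commute_dg_entry (hZ.1 _ hx) h) hlt.ne
    refine hP B hB i j ?_ hlt
    rw [Matrix.add_apply, hZ0, add_zero] at hij
    exact hij
  -- (2)
  let lo : Submodule ℂ (Matrix ι ι ℂ) :=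
    { carrier := {W | W ∈ m ⊔ cen m ∧ ∀ i j, W i j ≠ 0 → x i < x j}
      add_mem' := by
        rintro A B ⟨hA, hA'⟩ ⟨hB, hB'⟩
        refine ⟨Submodule.add_mem _ hA hB, fun i j hij => ?_⟩
        by_cases h : A i j = 0
        · by_cases h' : B i j = 0
          · exact absurd (by rw [Matrix.add_apply, h, h', add_zero]) hij
          · exact hB' i j h'
        · exact hA' i j h
      zero_mem' := ⟨Submodule.zero_mem _, fun i j hij => absurd rfl hij⟩
      smul_mem' := by
        rintro c A ⟨hA, hA'⟩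
        refine ⟨Submodule.smul_mem _ c hA, fun i j hij => hA' i j fun h => hij ?_⟩
        rw [Matrix.smul_apply, h, smul_zero] }
  have hlo : lo ≤ m ⊔ cen m := fun W hW => hW.1
  have hcut : ∀ X ∈ m ⊔ cen m, (Matrix.of fun i j => (if x i < x j then (1 : ℂ) else 0) * X i j) ∈
      m ⊔ cen m := by
    refine fc (m ⊔ cen m) (fun i j => ((x i - x j : ℝ) : ℂ)) _ ?_ ?_
    · intro X hX
      have h2 : (Matrix.of fun i j => ((x i - x j : ℝ) : ℂ) * X i j) = dg x * X - X * dg x := by
        ext i j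
        rw [Matrix.of_apply, Matrix.sub_apply, dg, Matrix.diagonal_mul, Matrix.mul_diagonal]
        push_cast
        ring
      rw [h2]
      exact hl.br _ hxl _ hX
    · intro i j k l h
      have h2 : x i - x j = x k - x l := by exact_mod_cast h
      have h3 : x i < x j ↔ x k < x l := by
        constructor <;> intro h4 <;> linarith
      by_cases h4 : x i < x j
      · rw [if_pos h4, if_pos (h3.1 h4)]
      · rw [if_neg h4, if_neg (fun h5 => h4 (h3.2 h5))]
  have hωl : ∀ X ∈ m ⊔ cen m, ∃ W ∈ lo, ∃ c : ℂ,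
      dtp S.card X *ᵥ ω = dtp S.card W *ᵥ ω + c • ω := by
    intro X hX
    refine ⟨_, ⟨hcut X hX, ?_⟩, ?_⟩
    · intro i j hij
      by_contra h
      apply hij
      rw [Matrix.of_apply, if_neg h, zero_mul]
    · set X' : Matrix ι ι ℂ := Matrix.of fun i j => (if x i < x j then (1 : ℂ) else 0) * X i j
        with hX'
      have hB : ∀ i j, x i < x j → (X - X') i j = 0 := by
        intro i j hij
        rw [Matrix.sub_apply, hX', Matrix.of_apply, if_pos hij, one_mul, sub_self]
      have hBu : ∀ q, (X - X') *ᵥ (Pi.single (v q) 1 : ι → ℂ) =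
          ∑ r, (X - X') (v r) (v q) • (Pi.single (v r) 1 : ι → ℂ) := by
        intro q
        funext i
        rw [Matrix.mulVec_single_one, Matrix.col_apply, Finset.sum_apply]
        by_cases hi : i ∈ S
        · obtain ⟨r, rfl⟩ := hsurj i hi
          rw [Finset.sum_eq_single r]
          · rw [Pi.smul_apply, Pi.single_eq_same, smul_eq_mul, mul_one]
          · intro b _ hb
            rw [Pi.smul_apply, Pi.single_eq_of_ne (fun h => hb (hvi h).symm), smul_zero]
          · intro h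
            exact absurd (Finset.mem_univ r) h
        · rw [hB i (v q) (hup _ (hvS q) _ hi), Finset.sum_eq_zero]
          intro r _
          rw [Pi.smul_apply, Pi.single_eq_of_ne (fun h => hi (by rw [h]; exact hvS r)), smul_zero]
      have h3 := dtp_wd (X - X') (fun q => (Pi.single (v q) 1 : ι → ℂ))
        (fun q r => (X - X') (v r) (v q)) hBu
      refine ⟨∑ q, (X - X') (v q) (v q), ?_⟩
      rw [← h3, ← Matrix.add_mulVec, ← dtp_add, add_sub_cancel]
  -- (3)
  let N : Submodule ℂ ((Fin S.card → ι) → ℂ) :=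
    { carrier := {w | (∀ (p : Equiv.Perm (Fin S.card)) (e : Fin S.card → ι),
        w (e ∘ p) = ((Equiv.Perm.sign p : ℤ) : ℂ) * w e) ∧
        ∀ e, w e ≠ 0 → ∑ q, y (e q) ≤ ∑ i ∈ S, y i}
      add_mem' := by
        rintro w w' ⟨h2, h3⟩ ⟨h4, h5⟩
        refine ⟨fun p e => ?_, fun e he => ?_⟩
        · rw [Pi.add_apply, Pi.add_apply, h2, h4]
          ring
        · by_cases h : w e = 0
          · by_cases h' : w' e = 0
            · exact absurd (by rw [Pi.add_apply, h, h', add_zero]) he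
            · exact h5 e h'
          · exact h3 e h
      zero_mem' := ⟨fun p e => by rw [Pi.zero_apply, Pi.zero_apply, mul_zero],
        fun e he => absurd rfl he⟩
      smul_mem' := by
        rintro c w ⟨h2, h3⟩
        refine ⟨fun p e => ?_, fun e he => h3 e fun h => he ?_⟩
        · rw [Pi.smul_apply, Pi.smul_apply, h2, smul_eq_mul, smul_eq_mul]
          ring
        · rw [Pi.smul_apply, h, smul_zero] }
  have hN1 : ω ∈ N := ⟨fun p e => wd_alt _ p e, fun e he => by
    rw [wd_support he y, hsum y]⟩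
  have hN2 : ∀ W ∈ lo, ∀ w ∈ N, dtp S.card W *ᵥ w ∈ N := by
    rintro W ⟨hW, hW'⟩ w ⟨h2, h3⟩
    refine ⟨fun p e => ?_, fun e he => ?_⟩
    · rw [dtp_apply, dtp_apply,
        ← Equiv.sum_comp p (fun j => ∑ i, W (e j) i * w (Function.update e j i)), Finset.mul_sum]
      refine Finset.sum_congr rfl fun j _ => ?_
      rw [Finset.mul_sum]
      refine Finset.sum_congr rfl fun i _ => ?_
      rw [update_comp_perm, h2, Function.comp_apply]
      ring
    · rw [dtp_apply] at he
      obtain ⟨j, -, hj⟩ := Finset.exists_ne_zero_of_sum_ne_zero he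
      obtain ⟨i, -, hi⟩ := Finset.exists_ne_zero_of_sum_ne_zero hj
      have h4 : W (e j) i ≠ 0 := left_ne_zero_of_mul hi
      have h5 : w (Function.update e j i) ≠ 0 := right_ne_zero_of_mul hi
      exact (sum_update_le y e j i (h1 W hW _ _ h4 (hW' _ _ h4))).trans (h3 _ h5)
  -- (4)
  obtain ⟨U, hU1, hU2, hU3⟩ := low_gen (m ⊔ cen m) lo hl.br hlo ω hωl N hN1 hN2
  have hU4 := adm_stable hm hg hS0 hS U (fun w hw => (hU2 hw).1) hU3
  set w0 := tpow S.card (g : Matrix ι ι ℂ) *ᵥ ω with hw0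
  have hw0N : w0 ∈ N := hU2 (hU4 ω hU1)
  have hω0 : ω ≠ 0 := wd_single_ne v hvi
  have hw00 : w0 ≠ 0 := by
    intro h
    apply hω0
    have h2 : tpow S.card ((g⁻¹ : GL ι ℂ) : Matrix ι ι ℂ) *ᵥ w0 = ω := by
      rw [hw0, Matrix.mulVec_mulVec, ← tpow_mul, ← Units.val_mul, inv_mul_cancel, Units.val_one,
        tpow_one, Matrix.one_mulVec]
    rw [← h2, h, Matrix.mulVec_zero]
  obtain ⟨e, he⟩ := Function.ne_iff.1 hw00
  have he' : w0 e ≠ 0 := he
  have hdx : dtp S.card (dg x) *ᵥ ω = ((∑ i ∈ S, x i : ℝ) : ℂ) • ω := by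
    have h2 := dtp_wd (dg x) (fun q => (Pi.single (v q) 1 : ι → ℂ))
      (fun q r => if r = q then ((x (v q) : ℝ) : ℂ) else 0) (by
        intro q
        funext i
        rw [Matrix.mulVec_single_one, Matrix.col_apply, Finset.sum_apply,
          Finset.sum_eq_single q]
        · rw [Pi.smul_apply, if_pos rfl, dg, Matrix.diagonal_apply, Pi.single_apply, smul_eq_mul]
          by_cases h : i = v q
          · rw [if_pos h, if_pos h, mul_one, h]
          · rw [if_neg h, if_neg h, mul_zero]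
        · intro b _ hb
          rw [Pi.smul_apply, if_neg hb, zero_smul]
        · intro h
          exact absurd (Finset.mem_univ q) h)
    rw [h2]
    congr 1
    rw [← hsum x, Complex.ofReal_sum]
    exact Finset.sum_congr rfl fun q _ => if_pos rfl
  have hdy : dtp S.card (dg y) *ᵥ w0 = ((∑ i ∈ S, x i : ℝ) : ℂ) • w0 := by
    rw [hw0, Matrix.mulVec_mulVec, ← tpow_dtp hgx, ← Matrix.mulVec_mulVec, hdx,
      Matrix.mulVec_smul]
  have hdy2 : (dtp S.card (dg y) *ᵥ w0) e = ((∑ q, y (e q) : ℝ) : ℂ) * w0 e := by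
    rw [dtp_apply, Complex.ofReal_sum, Finset.sum_mul]
    refine Finset.sum_congr rfl fun j _ => ?_
    rw [Finset.sum_eq_single (e j)]
    · rw [dg, Matrix.diagonal_apply_eq, Function.update_eq_self]
    · intro b _ hb
      rw [dg, Matrix.diagonal_apply_ne _ (Ne.symm hb), zero_mul]
    · intro h
      exact absurd (Finset.mem_univ _) h
  have h6 : ((∑ q, y (e q) : ℝ) : ℂ) * w0 e = ((∑ i ∈ S, x i : ℝ) : ℂ) * w0 e := by
    rw [← hdy2, hdy, Pi.smul_apply, smul_eq_mul]
  have h7 : (∑ q, y (e q) : ℝ) = ∑ i ∈ S, x i := by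
    have h8 := mul_right_cancel₀ he' h6
    exact_mod_cast h8
  rw [← h7]
  exact hw0N.2 e he'

end Pool.Agent.Work.MP_0da4e0_ag.Ex
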