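import Pool.Agent.Work.MP_0da4e0_ag.Ex.Core
import Pool.Agent.Work.MP_0da4e0_ag.WeilProj

/-! MP_0da4e0_ag, exact criterion, module GlA: the core theorem for the Lie algebra killing the Hodge
tensors.

PROOFS.
(mt_algebraic) The tensors ratT ℂ s, s a Hodge tensor, are killed by mtLieC h by definition of mtLieC. So if
Y kills all tensors killed by mtLieC h then Y is in mtLieC h.
(exists_star) hform h S is positive definite (hform_posDef hS), so hform h S = Qᴴ Q with Q invertible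
(CStarAlgebra.isStrictlyPositive_iff_eq_star_mul_self and Matrix.PosDef.isStrictlyPositive, as in the proof
of bicommutant in EffBic). Let P = Q⁻¹ in GL, so X in cj P (mtLieC h) means Q⁻¹ X Q in mtLieC h. br: from
bracket_mem_mt. st: Y = Q⁻¹ X Q in mtLieC h; dag h S Y = (Qᴴ Q)⁻¹ Yᴴ Qᴴ Q = Q⁻¹ Xᴴ Q is in mtLieC h by
dag_mem hS.
(core_mt) m' = cj P (mtLieC h) is StarLie, and Algebraic by cj_algebraic; g' = P⁻¹ g P is admissible (cj_adm).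
core: g' = u' c'. u = P u' P⁻¹ (cj_Gp), c = P c' P⁻¹ (cj_cen), g = u c. -/

open Matrix

namespace Pool.Agent.Work.MP_0da4e0_ag.Ex

variable {ι : Type} [Fintype ι] [DecidableEq ι]

theorem mt_algebraic (h : HodgeStr ι) : Algebraic (mtLieC h) := by
  intro Y hY a b t ht
  exact hY a b (ratT ℂ t) fun X hX => hX a b t ht

section
open scoped ComplexOrder MatrixOrder Matrix.Norms.L2Operator

private theorem exists_root {H : Matrix ι ι ℂ} (hH : H.PosDef) :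
    ∃ u : GL ι ℂ, H = ((u : Matrix ι ι ℂ))ᴴ * (u : Matrix ι ι ℂ) := by
  obtain ⟨B, ⟨u, rfl⟩, h⟩ := CStarAlgebra.isStrictlyPositive_iff_eq_star_mul_self.mp
    (Matrix.PosDef.isStrictlyPositive hH)
  exact ⟨u, h⟩

private theorem hform_unit {h : HodgeStr ι} {S : Matrix ι ι ℚ} (hS : Polarizes h S) :
    IsUnit (hform h S).det := (Matrix.isUnit_iff_isUnit_det _).1 (hform_posDef hS).isUnit

end

theorem exists_star {h : HodgeStr ι} {S : Matrix ι ι ℚ} (hS : Polarizes h S) :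
    ∃ P : GL ι ℂ, StarLie (cj P (mtLieC h)) := by
  obtain ⟨u, hu⟩ := exists_root (hform_posDef hS)
  have huu : (u : Matrix ι ι ℂ) * ((u⁻¹ : GL ι ℂ) : Matrix ι ι ℂ) = 1 := by
    rw [← Units.val_mul, mul_inv_cancel, Units.val_one]
  have huu' : ((u⁻¹ : GL ι ℂ) : Matrix ι ι ℂ) * (u : Matrix ι ι ℂ) = 1 := by
    rw [← Units.val_mul, inv_mul_cancel, Units.val_one]
  have huu2 : (((u⁻¹ : GL ι ℂ) : Matrix ι ι ℂ))ᴴ * ((u : Matrix ι ι ℂ))ᴴ = 1 := by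
    rw [← Matrix.conjTranspose_mul, huu, Matrix.conjTranspose_one]
  have hmem : ∀ X : Matrix ι ι ℂ, X ∈ cj u⁻¹ (mtLieC h) ↔
      ((u⁻¹ : GL ι ℂ) : Matrix ι ι ℂ) * X * (u : Matrix ι ι ℂ) ∈ mtLieC h := fun X => by
    change ((u⁻¹ : GL ι ℂ) : Matrix ι ι ℂ) * X * (((u⁻¹)⁻¹ : GL ι ℂ) : Matrix ι ι ℂ) ∈ mtLieC h ↔ _
    rw [inv_inv]
  refine ⟨u⁻¹, fun X hX Y hY => ?_, fun X hX => ?_⟩
  · rw [hmem] at hX hY ⊢
    have h1 := bracket_mem_mt hX hY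
    have h2 : ∀ X Y : Matrix ι ι ℂ, (((u⁻¹ : GL ι ℂ) : Matrix ι ι ℂ) * X * (u : Matrix ι ι ℂ)) *
        (((u⁻¹ : GL ι ℂ) : Matrix ι ι ℂ) * Y * (u : Matrix ι ι ℂ)) =
        ((u⁻¹ : GL ι ℂ) : Matrix ι ι ℂ) * (X * Y) * (u : Matrix ι ι ℂ) := fun X Y => by
      calc _ = ((u⁻¹ : GL ι ℂ) : Matrix ι ι ℂ) * X *
            ((u : Matrix ι ι ℂ) * ((u⁻¹ : GL ι ℂ) : Matrix ι ι ℂ)) * Y * (u : Matrix ι ι ℂ) := by
            simp only [Matrix.mul_assoc]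
        _ = _ := by rw [huu, Matrix.mul_one]; simp only [Matrix.mul_assoc]
    rw [h2, h2, ← Matrix.sub_mul, ← Matrix.mul_sub] at h1
    exact h1
  · rw [hmem] at hX ⊢
    have h1 := dag_mem hS hX
    have h2 : dag h S (((u⁻¹ : GL ι ℂ) : Matrix ι ι ℂ) * X * (u : Matrix ι ι ℂ)) =
        ((u⁻¹ : GL ι ℂ) : Matrix ι ι ℂ) * Xᴴ * (u : Matrix ι ι ℂ) := by
      have hu1 := hform_unit hS
      rw [dag, Matrix.mul_assoc]
      have h3 : (((u⁻¹ : GL ι ℂ) : Matrix ι ι ℂ) * X * (u : Matrix ι ι ℂ))ᴴ * hform h S =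
          hform h S * (((u⁻¹ : GL ι ℂ) : Matrix ι ι ℂ) * Xᴴ * (u : Matrix ι ι ℂ)) := by
        rw [hu, Matrix.conjTranspose_mul, Matrix.conjTranspose_mul]
        calc ((u : Matrix ι ι ℂ))ᴴ * (Xᴴ * (((u⁻¹ : GL ι ℂ) : Matrix ι ι ℂ))ᴴ) *
              (((u : Matrix ι ι ℂ))ᴴ * (u : Matrix ι ι ℂ))
            = ((u : Matrix ι ι ℂ))ᴴ * Xᴴ * ((((u⁻¹ : GL ι ℂ) : Matrix ι ι ℂ))ᴴ *
              ((u : Matrix ι ι ℂ))ᴴ) * (u : Matrix ι ι ℂ) := by simp only [Matrix.mul_assoc]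
          _ = ((u : Matrix ι ι ℂ))ᴴ * ((u : Matrix ι ι ℂ) * ((u⁻¹ : GL ι ℂ) : Matrix ι ι ℂ)) *
              Xᴴ * (u : Matrix ι ι ℂ) := by rw [huu2, huu, Matrix.mul_one, Matrix.mul_one]
          _ = _ := by simp only [Matrix.mul_assoc]
      rw [h3, ← Matrix.mul_assoc, Matrix.nonsing_inv_mul _ hu1, Matrix.one_mul]
    rw [h2] at h1
    exact h1

theorem core_mt {h : HodgeStr ι} {S : Matrix ι ι ℚ} (hS : Polarizes h S) (g : GL ι ℂ)
    (hg : Adm (mtLieC h) g) :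
    ∃ u ∈ Gp (mtLieC h), ∃ c : GL ι ℂ, (c : Matrix ι ι ℂ) ∈ cen (mtLieC h) ∧ g = u * c := by
  obtain ⟨P, hP⟩ := exists_star hS
  obtain ⟨u, hu, c, hc, he⟩ := core hP (cj_algebraic (mt_algebraic h) P) (P⁻¹ * g * P) (cj_adm hg P)
  refine ⟨P * u * P⁻¹, cj_Gp.1 hu, P * c * P⁻¹, ?_, ?_⟩
  · rw [Units.val_mul, Units.val_mul]
    exact cj_cen.1 hc
  · calc g = P * (P⁻¹ * g * P) * P⁻¹ := by group
      _ = P * (u * c) * P⁻¹ := by rw [he]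
      _ = _ := by group

end Pool.Agent.Work.MP_0da4e0_ag.Ex
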