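import Pool.Agent.Work.MP_0da4e0_ag.Ex.GlDefs
import Pool.Agent.Work.MP_0da4e0_ag.WeilProj

/-! MP_0da4e0_ag, exact criterion, module GlB: the center and the alternating invariants are spanned by
rational elements.

PROOFS.
(mem_cen_iff) If: it is enough to treat c = cx Z, Z central. It commutes with mtLieC h (mt_commute). If
Com (mtLieC h) C then C is in the span of the cx A, A Hodge endomorphisms (mem_span_endo), so C commutes with
cx Z (cx_mul). Only if: c commutes with mtLieC h and with all cx A (they commute with mtLieC h by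
mt_commute). The conditions cx A * c = c * cx A for A in mtLie h (cx_mem) and for A a Hodge
endomorphism are rational linear conditions on c: mat_span (EndT) gives c in the span of the cx Z', Z'
rational, commuting with mtLie h and with all Hodge endomorphisms. Z' commutes with mtLieC h (mtLieC_span),
so IsHodge h (matT Z') by commute_torus and act_matT (exactly as at the end of the proof of one_class in
WeilMaster.lean, which may be copied, with M = {A // A ∈ mtLie h ∨ IsHodge h (matT A)} × (ι × ι)).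
(alt_span) mem_span_ker (LieHodge) for the matrix whose rows are the rational linear conditions on
u : Tens ι f f ℚ (a function on N = (Fin f → ι) × (Fin f → ι)): dact X u e = 0 for X in mtLie h, e in N;
dact Z u e = 0 for Z central; u (e ∘ p, e') - sign p * u (e, e') = 0 and the same for the lower indices.
(dact X u = dmat f f X *ᵥ u.) t satisfies them over ℂ: cx X in mtLieC h, cx Z in cen (mtLieC h) by
mem_cen_iff. The rational solutions u are Hodge tensors by isHodge_of_lie (WeilKill), alternating, and killed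
by the central Z. -/

open Matrix

namespace Pool.Agent.Work.MP_0da4e0_ag.Ex

variable {ι : Type} [Fintype ι] [DecidableEq ι]

theorem mem_cen_iff {h : HodgeStr ι} {c : Matrix ι ι ℂ} : c ∈ cen (mtLieC h) ↔ IsCentralC h c := by
  constructor
  · rintro ⟨h1, h2⟩
    have h3 : ∀ A : Matrix ι ι ℚ, IsHodge h (matT A) → cx A * c = c * cx A :=
      fun A hA => h2 _ (fun X hX => mt_commute hX hA)
    let M := {A : Matrix ι ι ℚ // A ∈ mtLie h ∨ IsHodge h (matT A)} × (ι × ι)
    let L : M → (Matrix ι ι ℚ →ₗ[ℚ] ℚ) := fun r =>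
      { toFun := fun Z => (r.1.1 * Z - Z * r.1.1) r.2.1 r.2.2
        map_add' := fun X Y => by simp [Matrix.mul_add, Matrix.add_mul]; ring
        map_smul' := fun c X => by simp; ring }
    let LC : M → (Matrix ι ι ℂ →ₗ[ℂ] ℂ) := fun r =>
      { toFun := fun Z => (cx r.1.1 * Z - Z * cx r.1.1) r.2.1 r.2.2
        map_add' := fun X Y => by simp [Matrix.mul_add, Matrix.add_mul]; ring
        map_smul' := fun c X => by simp; ring }
    have h4 := mat_span L LC (fun r Z => by
      change (cx r.1.1 * cx Z - cx Z * cx r.1.1) r.2.1 r.2.2 =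
        (((r.1.1 * Z - Z * r.1.1) r.2.1 r.2.2 : ℚ) : ℂ)
      rw [← cx_mul, ← cx_mul]
      simp [cx]) c (fun r => by
      change (cx r.1.1 * c - c * cx r.1.1) r.2.1 r.2.2 = 0
      have : cx r.1.1 * c = c * cx r.1.1 := by
        rcases r.1.2 with h | h
        · exact h1 _ (cx_mem h)
        · exact h3 _ h
      rw [this, sub_self]
      rfl)
    refine Submodule.span_mono ?_ h4
    rintro _ ⟨Z', hZ', rfl⟩
    have hZ1 : ∀ X' ∈ mtLie h, X' * Z' = Z' * X' := by
      intro X' hX'
      rw [← sub_eq_zero]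
      ext i j
      exact hZ' (⟨X', Or.inl hX'⟩, (i, j))
    have hZ2 : ∀ A : Matrix ι ι ℚ, IsHodge h (matT A) → A * Z' = Z' * A := by
      intro X' hX'
      rw [← sub_eq_zero]
      ext i j
      exact hZ' (⟨X', Or.inr hX'⟩, (i, j))
    have hcomm' : ∀ X' ∈ mtLieC h, X' * cx Z' = cx Z' * X' := by
      intro X' hX'
      have hsp := mtLieC_span hX'
      clear hX'
      induction hsp using Submodule.span_induction with
      | mem y hy => obtain ⟨Y', hY', rfl⟩ := hy; rw [← cx_mul, ← cx_mul, hZ1 Y' hY']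
      | zero => rw [Matrix.zero_mul, Matrix.mul_zero]
      | add y z _ _ hy hz => rw [Matrix.add_mul, Matrix.mul_add, hy, hz]
      | smul c y _ hy => rw [Matrix.smul_mul, Matrix.mul_smul, hy]
    have hZH : IsHodge h (matT Z') := by
      intro z z' g hg
      rw [ratT_matT, act_matT, commute_torus hcomm' hg, Matrix.mul_assoc, ← Units.val_mul,
        mul_inv_cancel, Units.val_one, Matrix.mul_one]
    exact ⟨Z', ⟨hZH, fun A hA => (hZ2 A hA).symm⟩, rfl⟩
  · intro hc
    refine (Submodule.span_le (p := cen (mtLieC h))).2 ?_ hc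
    rintro _ ⟨Z, hZ, rfl⟩
    refine ⟨fun X hX => mt_commute hX hZ.1, fun C hC => ?_⟩
    have hsp := mem_span_endo hC
    clear hC
    induction hsp using Submodule.span_induction with
    | mem y hy => obtain ⟨A, hA, rfl⟩ := hy; rw [← cx_mul, ← cx_mul, hZ.2 A hA]
    | zero => rw [Matrix.zero_mul, Matrix.mul_zero]
    | add y z _ _ hy hz => rw [Matrix.add_mul, Matrix.mul_add, hy, hz]
    | smul c y _ hy => rw [Matrix.smul_mul, Matrix.mul_smul, hy]

omit [Fintype ι] in
private theorem dmat_cx {a b : ℕ} (X : Matrix ι ι ℚ) (e n : (Fin a → ι) × (Fin b → ι)) :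
    dmat a b (cx X) e n = ((dmat a b X e n : ℚ) : ℂ) := by
  have h1 : ∀ i j, ((((1 : Matrix ι ι ℚ) i j : ℚ)) : ℂ) = (1 : Matrix ι ι ℂ) i j := by
    intro i j
    rw [Matrix.one_apply, Matrix.one_apply]
    split_ifs <;> simp
  simp only [dmat, cx, Matrix.map_apply]
  push_cast
  simp only [h1]

/-- the row of the condition `t a = s * t b` -/
private def rw2 {N R : Type} [DecidableEq N] [CommRing R] (a b : N) (s : R) (n : N) : R :=
  (if n = a then 1 else 0) - s * (if n = b then 1 else 0)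

private theorem rw2_sum {N R : Type} [Fintype N] [DecidableEq N] [CommRing R] (a b : N) (s : R)
    (t : N → R) : ∑ n, rw2 a b s n * t n = t a - s * t b := by
  simp [rw2, sub_mul, Finset.sum_sub_distrib]

private theorem rw2_cast {N : Type} [DecidableEq N] (a b : N) (s : ℤ) (n : N) :
    ((rw2 a b (s : ℚ) n : ℚ) : ℂ) = rw2 a b (s : ℂ) n := by
  simp only [rw2]
  split_ifs <;> push_cast <;> rfl

theorem alt_span {h : HodgeStr ι} {f : ℕ} {t : Tens ι f f ℂ} (ht : Alt2 t)
    (hk : Killed (mtLieC h ⊔ cen (mtLieC h)) t) :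
    t ∈ Submodule.span ℂ {w : Tens ι f f ℂ | ∃ x : Tens ι f f ℚ, IsHodge h x ∧ Alt2 x ∧
      (∀ Z : Matrix ι ι ℚ, IsCentral h Z → dact Z x = 0) ∧ w = ratT ℂ x} := by
  let N := (Fin f → ι) × (Fin f → ι)
  let M := ({X : Matrix ι ι ℚ // X ∈ mtLie h ∨ IsCentral h X} × N) ⊕
    ((Equiv.Perm (Fin f) × N) ⊕ (Equiv.Perm (Fin f) × N))
  let A : Matrix M N ℚ := Matrix.of (Sum.elim (fun r n => dmat f f r.1.1 r.2 n)
    (Sum.elim (fun r n => rw2 (r.2.1 ∘ r.1, r.2.2) r.2 ((Equiv.Perm.sign r.1 : ℤ) : ℚ) n)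
      (fun r n => rw2 (r.2.1, r.2.2 ∘ r.1) r.2 ((Equiv.Perm.sign r.1 : ℤ) : ℚ) n)))
  have hv : (A.map (fun q : ℚ => (q : ℂ))) *ᵥ t = 0 := by
    funext r
    rcases r with r | r | r
    · change ∑ n, ((dmat f f r.1.1 r.2 n : ℚ) : ℂ) * t n = 0
      simp only [← dmat_cx]
      have h1 : dact (cx r.1.1) t = 0 := by
        apply hk
        rcases r.1.2 with h2 | h2
        · exact Submodule.mem_sup_left (cx_mem h2)
        · exact Submodule.mem_sup_right (mem_cen_iff.2 (Submodule.subset_span ⟨_, h2, rfl⟩))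
      exact congrFun h1 r.2
    · change ∑ n, ((rw2 (r.2.1 ∘ r.1, r.2.2) r.2 ((Equiv.Perm.sign r.1 : ℤ) : ℚ) n : ℚ) : ℂ) *
        t n = 0
      simp only [rw2_cast]
      rw [rw2_sum, sub_eq_zero]
      exact ht.1 r.1 r.2.1 r.2.2
    · change ∑ n, ((rw2 (r.2.1, r.2.2 ∘ r.1) r.2 ((Equiv.Perm.sign r.1 : ℤ) : ℚ) n : ℚ) : ℂ) *
        t n = 0
      simp only [rw2_cast]
      rw [rw2_sum, sub_eq_zero]
      exact ht.2 r.1 r.2.1 r.2.2
  refine Submodule.span_mono ?_ (mem_span_ker A t hv)
  rintro _ ⟨u, hu, rfl⟩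
  have hu1 : ∀ X : Matrix ι ι ℚ, X ∈ mtLie h ∨ IsCentral h X → dact X u = 0 := by
    intro X hX
    funext e
    exact congrFun hu (Sum.inl (⟨X, hX⟩, e))
  refine ⟨u, isHodge_of_lie (fun X hX => hu1 X (Or.inl hX)), ⟨fun p e e' => ?_, fun p e e' => ?_⟩,
    fun Z hZ => hu1 Z (Or.inr hZ), rfl⟩
  · have h1 : ∑ n, rw2 (e ∘ p, e') (e, e') ((Equiv.Perm.sign p : ℤ) : ℚ) n * u n = 0 :=
      congrFun hu (Sum.inr (Sum.inl (p, (e, e'))))
    rw [rw2_sum, sub_eq_zero] at h1
    exact h1
  · have h1 : ∑ n, rw2 (e, e' ∘ p) (e, e') ((Equiv.Perm.sign p : ℤ) : ℚ) n * u n = 0 :=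
      congrFun hu (Sum.inr (Sum.inr (p, (e, e'))))
    rw [rw2_sum, sub_eq_zero] at h1
    exact h1

end Pool.Agent.Work.MP_0da4e0_ag.Ex
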