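import Pool.Agent.Work.MP_0da4e0_ag.Ex.GlB

/-! MP_0da4e0_ag, exact criterion, module GlC: a matrix fixing the projector and the Hodge endomorphisms of
the exterior powers is admissible.

PROOF. norm: X in mtLieC h, Y = g X g⁻¹. endL_act: endL (act g π) Y = g * endL π (g⁻¹ Y g) * g⁻¹ =
g X g⁻¹ = Y (hπ.fix hS X), and act g π = π (h1, π stands for ratT ℂ π), so Y = endL π Y is in mtLieC h by
hπ.mem.
com: C is in the span of the cx A (mem_span_endo), and g commutes with cx A by h2 (ratT_matT, act_matT,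
matT_injective).
alt: f = 1: t = matT C (exists_matT), Killed (mtLieC h) t gives Com (mtLieC h) C (dact_matT; or use mT, which
is the same function as matT, and killed_mT), so act g t = t by com. f ≥ 2: alt_span and h3, since the
tensors fixed by g form a subspace (act_add, act_smul). -/

open Matrix

namespace Pool.Agent.Work.MP_0da4e0_ag.Ex

variable {ι : Type} [Fintype ι] [DecidableEq ι]

theorem adm_of_fix {h : HodgeStr ι} {S : Matrix ι ι ℚ} (hS : Polarizes h S) {π : Tens ι 2 2 ℚ}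
    (hπ : IsLieProj h π) (g : GL ι ℂ) (h1 : act g (ratT ℂ π) = ratT ℂ π)
    (h2 : ∀ A : Matrix ι ι ℚ, IsHodge h (matT A) → act g (ratT ℂ (matT A)) = ratT ℂ (matT A))
    (h3 : ∀ f : ℕ, 2 ≤ f → 2 * f ≤ Fintype.card ι → ∀ x : Tens ι f f ℚ, IsHodge h x → Alt2 x →
      (∀ Z : Matrix ι ι ℚ, IsCentral h Z → dact Z x = 0) → act g (ratT ℂ x) = ratT ℂ x) :
    Adm (mtLieC h) g := by
  have hgg : (g : Matrix ι ι ℂ) * ((g⁻¹ : GL ι ℂ) : Matrix ι ι ℂ) = 1 := by
    rw [← Units.val_mul, mul_inv_cancel, Units.val_one]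
  have hgg' : ((g⁻¹ : GL ι ℂ) : Matrix ι ι ℂ) * (g : Matrix ι ι ℂ) = 1 := by
    rw [← Units.val_mul, inv_mul_cancel, Units.val_one]
  have hcom : ∀ C, Com (mtLieC h) C → (g : Matrix ι ι ℂ) * C = C * (g : Matrix ι ι ℂ) := by
    intro C hC
    have hspan := mem_span_endo hC
    clear hC
    induction hspan using Submodule.span_induction with
    | mem y hy =>
      obtain ⟨A, hA, rfl⟩ := hy
      have h4 := h2 A hA
      rw [ratT_matT, act_matT] at h4
      have h5 := matT_injective h4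
      calc (g : Matrix ι ι ℂ) * cx A
          = ((g : Matrix ι ι ℂ) * cx A * ((g⁻¹ : GL ι ℂ) : Matrix ι ι ℂ)) * (g : Matrix ι ι ℂ) := by
            rw [Matrix.mul_assoc _ ((g⁻¹ : GL ι ℂ) : Matrix ι ι ℂ), hgg', Matrix.mul_one]
        _ = _ := by rw [h5]
    | zero => rw [Matrix.zero_mul, Matrix.mul_zero]
    | add y z _ _ hy hz => rw [Matrix.mul_add, Matrix.add_mul, hy, hz]
    | smul c y _ hy => rw [Matrix.mul_smul, Matrix.smul_mul, hy]
  refine ⟨?_, hcom, ?_⟩
  · intro X hX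
    have h4 := endL_act g (ratT ℂ π) ((g : Matrix ι ι ℂ) * X * ((g⁻¹ : GL ι ℂ) : Matrix ι ι ℂ))
    have h5 : ((g⁻¹ : GL ι ℂ) : Matrix ι ι ℂ) * ((g : Matrix ι ι ℂ) * X * ((g⁻¹ : GL ι ℂ) : Matrix ι ι ℂ)) *
        (g : Matrix ι ι ℂ) = X := by
      calc _ = (((g⁻¹ : GL ι ℂ) : Matrix ι ι ℂ) * (g : Matrix ι ι ℂ)) * X *
            (((g⁻¹ : GL ι ℂ) : Matrix ι ι ℂ) * (g : Matrix ι ι ℂ)) := by simp only [Matrix.mul_assoc]
        _ = X := by rw [hgg', Matrix.one_mul, Matrix.mul_one]
    rw [h1, h5, hπ.fix hS X hX] at h4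
    rw [← h4]
    exact hπ.mem _
  · intro f hf1 hf2 t ht hk
    rcases Nat.lt_or_ge 1 f with hf | hf
    · have hspan := alt_span ht hk
      clear ht hk
      induction hspan using Submodule.span_induction with
      | mem y hy =>
        obtain ⟨x, hx1, hx2, hx3, rfl⟩ := hy
        exact h3 f hf hf2 x hx1 hx2 hx3
      | zero => rw [act_eq, Matrix.mulVec_zero]
      | add y z _ _ hy hz => rw [act_add, hy, hz]
      | smul c y _ hy => rw [act_smul, hy]
    · have hf3 : f = 1 := by omega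
      subst hf3
      obtain ⟨C, rfl⟩ := exists_matT t
      have hC : Com (mtLieC h) C := by
        intro X hX
        have h4 := hk X (Submodule.mem_sup_left hX)
        rw [dact_matT] at h4
        have h5 : X * C - C * X = 0 := matT_injective (by rw [h4]; rfl)
        exact sub_eq_zero.1 h5
      rw [act_matT, hcom C hC, Matrix.mul_assoc, hgg, Matrix.mul_one]

end Pool.Agent.Work.MP_0da4e0_ag.Ex
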