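import Pool.Agent.Work.MP_0da4e0_ag.Ex.GlA
import Pool.Agent.Work.MP_0da4e0_ag.Ex.GlB
import Pool.Agent.Work.MP_0da4e0_ag.WeilLin

/-! MP_0da4e0_ag, exact criterion, module GlD: invertible central matrices are exponentials of central
matrices, and their action.

PROOFS.
(cen_exp) P from exists_star, m' = cj P (mtLieC h), StarLie. c' = P⁻¹ c P is in cen m' (cj_cen) and so is c'ᴴ
(cen_star), so c' c'ᴴ = c'ᴴ c' (elements of cen commute with each other: the first commutes with m', the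
second commutes with all such). exists_diag (WeilLin) for the set {c', c'ᴴ}: V in GL with c' = V
(diagonal γ) V⁻¹; γ i ≠ 0 as c' is invertible. Lagrange interpolation: a polynomial q with
q(γ i) = Complex.log (γ i) for all i. W' = aeval c' q = V (diagonal (log γ)) V⁻¹; W' commutes with every
matrix commuting with c', so W' is in cen m'; expGL W' 1 = V (diagonal (exp (log γ))) V⁻¹ = c'
(expGL_conj, Matrix.exp_diagonal). W = P W' P⁻¹.
(central_fix) c = expGL W 1, W in cen (mtLieC h), so W is a combination of the cx Z, Z central (mem_cen_iff),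
each of which kills ratT ℂ x (dact_ratT, ratT_zero); dact is linear in the matrix (dact_add, dact_smul), so
dact W (ratT ℂ x) = 0 and act_expGL_fix. -/

open Matrix

namespace Pool.Agent.Work.MP_0da4e0_ag.Ex

variable {ι : Type} [Fintype ι] [DecidableEq ι]

private theorem ui (U : GL ι ℂ) : (U : Matrix ι ι ℂ) * ((U⁻¹ : GL ι ℂ) : Matrix ι ι ℂ) = 1 := by
  rw [← Units.val_mul, mul_inv_cancel, Units.val_one]

private theorem iu (U : GL ι ℂ) : ((U⁻¹ : GL ι ℂ) : Matrix ι ι ℂ) * (U : Matrix ι ι ℂ) = 1 := by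
  rw [← Units.val_mul, inv_mul_cancel, Units.val_one]

/-- a matrix commuting with `V (diagonal γ) V⁻¹` commutes with `V (diagonal (f γ)) V⁻¹` -/
private theorem commute_fun (V : GL ι ℂ) (γ : ι → ℂ) (f : ℂ → ℂ) (C : Matrix ι ι ℂ)
    (hC : C * ((V : Matrix ι ι ℂ) * Matrix.diagonal γ * ((V⁻¹ : GL ι ℂ) : Matrix ι ι ℂ)) =
      ((V : Matrix ι ι ℂ) * Matrix.diagonal γ * ((V⁻¹ : GL ι ℂ) : Matrix ι ι ℂ)) * C) :
    C * ((V : Matrix ι ι ℂ) * Matrix.diagonal (fun i => f (γ i)) * ((V⁻¹ : GL ι ℂ) : Matrix ι ι ℂ)) =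
      ((V : Matrix ι ι ℂ) * Matrix.diagonal (fun i => f (γ i)) * ((V⁻¹ : GL ι ℂ) : Matrix ι ι ℂ)) * C := by
  set D : Matrix ι ι ℂ := ((V⁻¹ : GL ι ℂ) : Matrix ι ι ℂ) * C * (V : Matrix ι ι ℂ) with hD
  have hCD : C = (V : Matrix ι ι ℂ) * D * ((V⁻¹ : GL ι ℂ) : Matrix ι ι ℂ) := by
    rw [hD]
    calc C = ((V : Matrix ι ι ℂ) * ((V⁻¹ : GL ι ℂ) : Matrix ι ι ℂ)) * C *
        ((V : Matrix ι ι ℂ) * ((V⁻¹ : GL ι ℂ) : Matrix ι ι ℂ)) := by
          rw [ui, Matrix.one_mul, Matrix.mul_one]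
      _ = _ := by simp only [Matrix.mul_assoc]
  have h1 : D * Matrix.diagonal γ = Matrix.diagonal γ * D := by
    have h2 := congrArg (fun X => ((V⁻¹ : GL ι ℂ) : Matrix ι ι ℂ) * X * (V : Matrix ι ι ℂ)) hC
    calc D * Matrix.diagonal γ
        = ((V⁻¹ : GL ι ℂ) : Matrix ι ι ℂ) * (C * ((V : Matrix ι ι ℂ) * Matrix.diagonal γ *
            ((V⁻¹ : GL ι ℂ) : Matrix ι ι ℂ))) * (V : Matrix ι ι ℂ) := by
          rw [hD]
          calc _ = ((V⁻¹ : GL ι ℂ) : Matrix ι ι ℂ) * C * (V : Matrix ι ι ℂ) * Matrix.diagonal γ *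
                (((V⁻¹ : GL ι ℂ) : Matrix ι ι ℂ) * (V : Matrix ι ι ℂ)) := by
                rw [iu, Matrix.mul_one]
            _ = _ := by simp only [Matrix.mul_assoc]
      _ = ((V⁻¹ : GL ι ℂ) : Matrix ι ι ℂ) * (((V : Matrix ι ι ℂ) * Matrix.diagonal γ *
            ((V⁻¹ : GL ι ℂ) : Matrix ι ι ℂ)) * C) * (V : Matrix ι ι ℂ) := h2
      _ = Matrix.diagonal γ * D := by
          rw [hD]
          calc _ = (((V⁻¹ : GL ι ℂ) : Matrix ι ι ℂ) * (V : Matrix ι ι ℂ)) * Matrix.diagonal γ *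
                (((V⁻¹ : GL ι ℂ) : Matrix ι ι ℂ) * C * (V : Matrix ι ι ℂ)) := by
                simp only [Matrix.mul_assoc]
            _ = _ := by rw [iu, Matrix.one_mul]
  have h2 : D * Matrix.diagonal (fun i => f (γ i)) = Matrix.diagonal (fun i => f (γ i)) * D := by
    ext i j
    have h3 := congrFun (congrFun h1 i) j
    rw [Matrix.mul_diagonal, Matrix.diagonal_mul] at h3 ⊢
    by_cases h0 : D i j = 0
    · rw [h0, zero_mul, mul_zero]
    · have h4 : γ j = γ i := by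
        apply mul_left_cancel₀ h0
        rw [h3, mul_comm]
      rw [h4, mul_comm]
  rw [hCD]
  calc (V : Matrix ι ι ℂ) * D * ((V⁻¹ : GL ι ℂ) : Matrix ι ι ℂ) *
        ((V : Matrix ι ι ℂ) * Matrix.diagonal (fun i => f (γ i)) * ((V⁻¹ : GL ι ℂ) : Matrix ι ι ℂ))
      = (V : Matrix ι ι ℂ) * D * (((V⁻¹ : GL ι ℂ) : Matrix ι ι ℂ) * (V : Matrix ι ι ℂ)) *
          Matrix.diagonal (fun i => f (γ i)) * ((V⁻¹ : GL ι ℂ) : Matrix ι ι ℂ) := by
        simp only [Matrix.mul_assoc]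
    _ = (V : Matrix ι ι ℂ) * (D * Matrix.diagonal (fun i => f (γ i))) *
          ((V⁻¹ : GL ι ℂ) : Matrix ι ι ℂ) := by
        rw [iu, Matrix.mul_one]
        simp only [Matrix.mul_assoc]
    _ = (V : Matrix ι ι ℂ) * Matrix.diagonal (fun i => f (γ i)) *
          (((V⁻¹ : GL ι ℂ) : Matrix ι ι ℂ) * (V : Matrix ι ι ℂ)) * D *
          ((V⁻¹ : GL ι ℂ) : Matrix ι ι ℂ) := by
        rw [h2, iu, Matrix.mul_one]
        simp only [Matrix.mul_assoc]
    _ = _ := by simp only [Matrix.mul_assoc]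

section exp
open NormedSpace
attribute [local instance] Matrix.linftyOpNormedRing Matrix.linftyOpNormedAlgebra

private theorem expGL_diagonal (d : ι → ℂ) :
    (expGL (Matrix.diagonal d) 1 : Matrix ι ι ℂ) = Matrix.diagonal (fun i => Complex.exp (d i)) := by
  change exp ((1 : ℂ) • Matrix.diagonal d) = _
  rw [one_smul, Matrix.exp_diagonal]
  congr 1
  funext i
  rw [Pi.coe_exp, Complex.exp_eq_exp_ℂ]

end exp

theorem cen_exp {h : HodgeStr ι} {S : Matrix ι ι ℚ} (hS : Polarizes h S) {c : GL ι ℂ}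
    (hc : (c : Matrix ι ι ℂ) ∈ cen (mtLieC h)) : ∃ W ∈ cen (mtLieC h), expGL W 1 = c := by
  obtain ⟨P, hP⟩ := exists_star hS
  set c' : GL ι ℂ := P⁻¹ * c * P with hc'
  have hPc : (P : Matrix ι ι ℂ) * (c' : Matrix ι ι ℂ) * ((P⁻¹ : GL ι ℂ) : Matrix ι ι ℂ) = (c : Matrix ι ι ℂ) := by
    rw [← Units.val_mul, ← Units.val_mul, hc']
    congr 1
    group
  have hcc : (c' : Matrix ι ι ℂ) ∈ cen (cj P (mtLieC h)) := by
    rw [cj_cen, hPc]
    exact hc
  have hcs := cen_star hP hcc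
  have hcomm : ∀ A ∈ cen (cj P (mtLieC h)), ∀ B ∈ cen (cj P (mtLieC h)), A * B = B * A :=
    fun A hA B hB => hB.2 A hA.1
  obtain ⟨V, hV⟩ := exists_diag ({(c' : Matrix ι ι ℂ), ((c' : Matrix ι ι ℂ))ᴴ} : Set (Matrix ι ι ℂ))
    (by
      rintro A (rfl | rfl) B (rfl | rfl)
      · rfl
      · exact hcomm _ hcc _ hcs
      · exact hcomm _ hcs _ hcc
      · rfl)
    (by
      rintro A (rfl | rfl)
      · right
        rfl
      · left
        rw [Matrix.conjTranspose_conjTranspose])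
  obtain ⟨γ, hγ⟩ := hV (c' : Matrix ι ι ℂ) (Or.inl rfl)
  have hcV : (c' : Matrix ι ι ℂ) =
      (V : Matrix ι ι ℂ) * Matrix.diagonal γ * ((V⁻¹ : GL ι ℂ) : Matrix ι ι ℂ) := by
    rw [← hγ, Matrix.mul_assoc, ui, Matrix.mul_one]
  have hγ0 : ∀ i, γ i ≠ 0 := by
    have h1 : Matrix.diagonal γ = ((V⁻¹ * c' * V : GL ι ℂ) : Matrix ι ι ℂ) := by
      rw [Units.val_mul, Units.val_mul, Matrix.mul_assoc, hγ, ← Matrix.mul_assoc, iu, Matrix.one_mul]
    have h2 : IsUnit (Matrix.diagonal γ) := by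
      rw [h1]
      exact Units.isUnit _
    rw [Matrix.isUnit_diagonal] at h2
    intro i
    exact (h2.map (Pi.evalRingHom (fun _ : ι => ℂ) i)).ne_zero
  set W' : Matrix ι ι ℂ := (V : Matrix ι ι ℂ) * Matrix.diagonal (fun i => Complex.log (γ i)) *
    ((V⁻¹ : GL ι ℂ) : Matrix ι ι ℂ) with hW'
  have hWc : W' ∈ cen (cj P (mtLieC h)) := by
    refine ⟨fun X hX => ?_, fun C hC => ?_⟩
    · exact commute_fun V γ Complex.log X (by rw [← hcV]; exact hcc.1 X hX)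
    · exact commute_fun V γ Complex.log C (by rw [← hcV]; exact hcc.2 C hC)
  have hexp : expGL W' 1 = c' := by
    rw [hW', expGL_conj]
    apply Units.ext
    rw [Units.val_mul, Units.val_mul, expGL_diagonal, hcV]
    congr 2
    congr 1
    funext i
    exact Complex.exp_log (hγ0 i)
  refine ⟨(P : Matrix ι ι ℂ) * W' * ((P⁻¹ : GL ι ℂ) : Matrix ι ι ℂ), cj_cen.1 hWc, ?_⟩
  rw [expGL_conj, hexp, hc']
  group

private theorem central_kill {h : HodgeStr ι} {a b : ℕ} {x : Tens ι a b ℚ}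
    (hx : ∀ Z : Matrix ι ι ℚ, IsCentral h Z → dact Z x = 0) {W : Matrix ι ι ℂ}
    (hW : IsCentralC h W) : dact W (ratT ℂ x) = 0 := by
  unfold IsCentralC at hW
  induction hW using Submodule.span_induction with
  | mem w hw =>
    obtain ⟨Z, hZ, rfl⟩ := hw
    rw [dact_ratT, hx Z hZ, ratT_zero]
  | zero => exact dact_zero _
  | add u v _ _ hu hv => rw [dact_add, hu, hv, add_zero]
  | smul r u _ hu => rw [dact_smul, hu, smul_zero]

theorem central_fix {h : HodgeStr ι} {S : Matrix ι ι ℚ} (hS : Polarizes h S) {a b : ℕ}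
    {x : Tens ι a b ℚ} (hx : ∀ Z : Matrix ι ι ℚ, IsCentral h Z → dact Z x = 0) {c : GL ι ℂ}
    (hc : IsCentralC h (c : Matrix ι ι ℂ)) : act c (ratT ℂ x) = ratT ℂ x := by
  obtain ⟨W, hW, rfl⟩ := cen_exp hS (mem_cen_iff.2 hc)
  exact act_expGL_fix (central_kill hx (mem_cen_iff.1 hW)) 1

end Pool.Agent.Work.MP_0da4e0_ag.Ex
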