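import Pool.Agent.Work.MP_0da4e0_ag.Ex.Defs
import Pool.Agent.Work.MP_0da4e0_ag.WeilDefs

/-! MP_0da4e0_ag, exact criterion: central Hodge endomorphisms. -/

open Matrix

namespace Pool.Agent.Work.MP_0da4e0_ag.Ex

variable {ι : Type} [Fintype ι] [DecidableEq ι]

/-- `Z` is a Hodge endomorphism which commutes with all Hodge endomorphisms -/
def IsCentral (h : HodgeStr ι) (Z : Matrix ι ι ℚ) : Prop :=
  IsHodge h (matT Z) ∧ ∀ A : Matrix ι ι ℚ, IsHodge h (matT A) → Z * A = A * Z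

/-- the complex matrix `c` is a complex linear combination of central Hodge endomorphisms -/
def IsCentralC (h : HodgeStr ι) (c : Matrix ι ι ℂ) : Prop :=
  c ∈ Submodule.span ℂ {W : Matrix ι ι ℂ | ∃ Z : Matrix ι ι ℚ, IsCentral h Z ∧ W = cx Z}

end Pool.Agent.Work.MP_0da4e0_ag.Ex
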