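import Pool.Agent.Work.MP_0da4e0_ag.Ex.GlC
import Pool.Agent.Work.MP_0da4e0_ag.Ex.GlD
import Pool.Agent.Work.MP_0da4e0_ag.EffMain

/-! MP_0da4e0_ag, exact criterion, module GlM: the criterion.

PROOFS.
(fix_all) adm_of_fix: Adm (mtLieC h) g; core_mt: g = u c, u in Gp (mtLieC h), c in cen (mtLieC h), i.e.
IsCentralC h c (mem_cen_iff). u fixes ratT ℂ s for every Hodge tensor s (it is killed by mtLieC h). So for
every i, act c (T i) = act u⁻¹ (act g (T i)) = act u⁻¹ (T i) = T i; by the hypothesis on x, act c x = x, and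
act g x = act u (act c x) = act u x = x.
(exact) First implication: π, the Hodge endomorphisms, the alternating tensors killed by the central Z are
fixed by every central c: for π, dact Z π = 0 for Z central (central_kills_proj in WeilMaster.lean: copy
its proof, or import WeilMaster) and central_fix; for a Hodge endomorphism A, dact Z (matT A) = 0 since
Z A = A Z (as in one_class); for the alternating tensors central_fix; T i is fixed by hypothesis.
Second implication: copy the proof of effective (EffMain): T' = the family of all AHTensors of X; every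
g in stab T' σ fixes ratT ℂ (s.betti σ) for all AHTensors s, so it satisfies the hypotheses of fix_all and
fixes ratT ℂ x; the rest is as in effective. -/

open Matrix

namespace Pool.Agent.Work.MP_0da4e0_ag.Ex

variable {ι : Type} [Fintype ι] [DecidableEq ι]

theorem fix_all {h : HodgeStr ι} {S : Matrix ι ι ℚ} (hS : Polarizes h S) {π : Tens ι 2 2 ℚ}
    (hπ : IsLieProj h π) {I : Type} {m n : I → ℕ} (T : ∀ i, Tens ι (m i) (n i) ℚ)
    (hT : ∀ i, IsHodge h (T i)) (g : GL ι ℂ) (h1 : act g (ratT ℂ π) = ratT ℂ π)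
    (h2 : ∀ A : Matrix ι ι ℚ, IsHodge h (matT A) → act g (ratT ℂ (matT A)) = ratT ℂ (matT A))
    (h3 : ∀ f : ℕ, 2 ≤ f → 2 * f ≤ Fintype.card ι → ∀ x : Tens ι f f ℚ, IsHodge h x → Alt2 x →
      (∀ Z : Matrix ι ι ℚ, IsCentral h Z → dact Z x = 0) → act g (ratT ℂ x) = ratT ℂ x)
    (h4 : ∀ i, act g (ratT ℂ (T i)) = ratT ℂ (T i))
    {a b : ℕ} (x : Tens ι a b ℚ) (hx : IsHodge h x)
    (hxc : ∀ c : GL ι ℂ, IsCentralC h (c : Matrix ι ι ℂ) →
      (∀ i, act c (ratT ℂ (T i)) = ratT ℂ (T i)) → act c (ratT ℂ x) = ratT ℂ x) :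
    act g (ratT ℂ x) = ratT ℂ x := by
  obtain ⟨u, hu, c, hc, rfl⟩ := core_mt hS g (adm_of_fix hS hπ g h1 h2 h3)
  have hfix : ∀ {p q : ℕ} (s : Tens ι p q ℚ), IsHodge h s → act u (ratT ℂ s) = ratT ℂ s :=
    fun s hs => hu _ _ _ (fun X hX => hX _ _ s hs)
  have hTc : ∀ i, act c (ratT ℂ (T i)) = ratT ℂ (T i) := by
    intro i
    apply act_injective u
    rw [← act_mul, h4 i, hfix _ (hT i)]
  rw [act_mul, hxc c (mem_cen_iff.1 hc) hTc, hfix x hx]

private theorem kills_proj {h : HodgeStr ι} {π : Tens ι 2 2 ℚ} (hπ : IsLieProj h π) {S : Matrix ι ι ℚ}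
    (hS : Polarizes h S) {Z : Matrix ι ι ℚ} (hZ : IsHodge h (matT Z)) : dact Z π = 0 := by
  have h0 : dact (cx Z) (ratT ℂ π) = 0 := by
    apply endL_injective
    apply LinearMap.ext
    intro A
    have h1 : endL (0 : Tens ι 2 2 ℂ) A = 0 := by
      ext i j
      simp [endL_apply]
    rw [endL_dact, h1, ← mt_commute (hπ.mem A) hZ, sub_self, zero_sub, neg_eq_zero]
    apply hπ.uniq hS _ _ (Submodule.zero_mem _)
    intro X hX
    rw [sub_zero, Matrix.mul_sub, Matrix.trace_sub]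
    have h2 : Matrix.trace (X * (cx Z * A)) = Matrix.trace (X * (A * cx Z)) := by
      rw [← Matrix.mul_assoc, mt_commute hX hZ, Matrix.mul_assoc, Matrix.trace_mul_comm, Matrix.mul_assoc]
    rw [h2, sub_self]
  rw [dact_ratT] at h0
  exact ratT_injective (R := ℂ) (by rw [h0, ratT_zero])

theorem exact {k : Type} [Field k] [IsAlgClosed k] (X : RealSys k ι) (σ : k →+* ℂ)
    (S : Matrix ι ι ℚ) (hS : Polarizes (X.hodge σ) S) {π : Tens ι 2 2 ℚ}
    (hπ : IsLieProj (X.hodge σ) π) {I : Type} {m n : I → ℕ} (T : ∀ i, Tens ι (m i) (n i) ℚ)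
    (hT : ∀ i, IsHodge (X.hodge σ) (T i)) :
    (∀ (a b : ℕ) (x : Tens ι a b ℚ), IsHodge (X.hodge σ) x →
      (∀ c : GL ι ℂ, IsCentralC (X.hodge σ) (c : Matrix ι ι ℂ) →
        (∀ i, act c (ratT ℂ (T i)) = ratT ℂ (T i)) → act c (ratT ℂ x) = ratT ℂ x) →
      ∃ s : AHTensor X a b, s.betti σ = x) ↔
    (∃ s : AHTensor X 2 2, s.betti σ = π) ∧
      (∀ A : Matrix ι ι ℚ, IsHodge (X.hodge σ) (matT A) → ∃ s : AHTensor X 1 1, s.betti σ = matT A) ∧
      (∀ f : ℕ, 2 ≤ f → 2 * f ≤ Fintype.card ι → ∀ x : Tens ι f f ℚ, IsHodge (X.hodge σ) x → Alt2 x →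
        (∀ Z : Matrix ι ι ℚ, IsCentral (X.hodge σ) Z → dact Z x = 0) →
        ∃ s : AHTensor X f f, s.betti σ = x) ∧
      ∀ i, ∃ s : AHTensor X (m i) (n i), s.betti σ = T i := by
  constructor
  · intro hall
    refine ⟨?_, ?_, ?_, ?_⟩
    · refine hall 2 2 π (hπ.isHodge hS) (fun c hc _ => central_fix hS (fun Z hZ => ?_) hc)
      exact kills_proj hπ hS hZ.1
    · intro A hA
      refine hall 1 1 (matT A) hA (fun c hc _ => central_fix hS (fun Z hZ => ?_) hc)
      have h0 : dact (cx Z) (ratT ℂ (matT A)) = 0 := by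
        rw [ratT_matT, dact_matT, ← cx_mul, ← cx_mul, hZ.2 A hA, sub_self]
        rfl
      rw [dact_ratT] at h0
      exact ratT_injective (R := ℂ) (by rw [h0, ratT_zero])
    · intro f _ _ x hx _ hxZ
      exact hall f f x hx (fun c hc _ => central_fix hS hxZ hc)
    · intro i
      exact hall _ _ (T i) (hT i) (fun c _ hcT => hcT i)
  · rintro ⟨⟨s1, hs1⟩, hA2, hA3, hA4⟩ a b x hx hxc
    let J := Σ (d : ℕ × ℕ), AHTensor X d.1 d.2
    let T' : ∀ i : J, AHTensor X i.1.1 i.1.2 := fun i => i.2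
    have hst : ∀ g ∈ stab T' σ, ∀ {p q : ℕ} (s : AHTensor X p q),
        act g (ratT ℂ (s.betti σ)) = ratT ℂ (s.betti σ) :=
      fun g hg p q s => hg ⟨(p, q), s⟩
    have hfix : ∀ g ∈ stab T' σ, act g (ratT ℂ x) = ratT ℂ x := by
      intro g hg
      refine fix_all hS hπ T hT g ?_ ?_ ?_ ?_ x hx hxc
      · rw [← hs1]; exact hst g hg s1
      · intro A hA
        obtain ⟨s, hs⟩ := hA2 A hA
        rw [← hs]; exact hst g hg s
      · intro f hf1 hf2 y hy hy2 hyZ
        obtain ⟨s, hs⟩ := hA3 f hf1 hf2 y hy hy2 hyZ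
        rw [← hs]; exact hst g hg s
      · intro i
        obtain ⟨s, hs⟩ := hA4 i
        rw [← hs]; exact hst g hg s
    have hrat : ∀ g ∈ stab T' σ, ∃ y : Tens ι a b ℚ, ratT ℂ y = act g (ratT ℂ x) := by
      intro g hg
      exact ⟨x, (hfix g hg).symm⟩
    have horb : ∀ y ∈ orb T' σ x, y = x := by
      rintro y ⟨g, hg, hy⟩
      rw [hfix g hg] at hy
      exact ratT_injective hy
    obtain ⟨D, B, h1, h2, h3, h4⟩ := orbit_principle X T' σ x (orb_finite T' σ x hrat) hrat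
    have hx0 : x ∈ orb T' σ x := ⟨1, one_mem _, (act_one _).symm⟩
    let x0 : orb T' σ x := ⟨x, hx0⟩
    have hsub : ∀ y : orb T' σ x, (y : Tens ι a b ℚ) = x := fun y => horb y y.2
    refine ⟨{ dR := D x0
              ad := fun l _ => act (X.et σ l) (ratT ℚ_[l] x)
              betti := fun τ => B τ x0
              comp_dR := fun τ => h3 τ x0
              comp_ad := ?_
              hodge := fun τ => h2 τ x0 }, h1 x0⟩
    intro τ l hl
    obtain ⟨π', -, hπ'⟩ := h4 τ l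
    rw [hπ' x0, hsub]

end Pool.Agent.Work.MP_0da4e0_ag.Ex
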