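import Pool.Agent.Work.MP_0da4e0_ag.Ex.GlM

/-! MP_0da4e0_ag, exact criterion, module GlN: the case of nonzero pure weight and scalar center. -/

open Matrix

namespace Pool.Agent.Work.MP_0da4e0_ag.Ex

variable {ι : Type} [Fintype ι] [DecidableEq ι]

theorem act_scalar {a : ℕ} (c : GL ι ℂ) (γ : ℂ) (hc : (c : Matrix ι ι ℂ) = γ • 1) (t : Tens ι a a ℂ) :
    act c t = t := by
  rcases isEmpty_or_nonempty ι with hι | ⟨⟨i0⟩⟩
  · have h1 : c = 1 := by
      apply Units.ext
      ext i
      exact (IsEmpty.false i).elim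
    rw [h1, act_one]
  · have hγ : γ ≠ 0 := by
      intro h0
      rw [h0, zero_smul] at hc
      have h1 : (c : Matrix ι ι ℂ) * ((c⁻¹ : GL ι ℂ) : Matrix ι ι ℂ) = 1 := by
        rw [← Units.val_mul, mul_inv_cancel, Units.val_one]
      rw [hc, Matrix.zero_mul] at h1
      have := congrFun (congrFun h1 i0) i0
      simp at this
    have hd : (c : Matrix ι ι ℂ) = Matrix.diagonal (fun _ => γ) := by
      rw [hc, Matrix.smul_one_eq_diagonal]
    rw [act_eq_iff]
    have h2 : tpow a (c : Matrix ι ι ℂ) = γ ^ a • (1 : Matrix (Fin a → ι) (Fin a → ι) ℂ) := by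
      have h3 : tpow a (c : Matrix ι ι ℂ) = γ ^ a • tpow a (1 : Matrix ι ι ℂ) := by
        ext e f
        rw [hc]
        simp only [tpow, Matrix.smul_apply, smul_eq_mul, Finset.prod_mul_distrib, Finset.prod_const,
          Finset.card_univ, Fintype.card_fin]
      rw [h3, tpow_one]
    rw [h2, Matrix.smul_mul, Matrix.mul_smul, Matrix.one_mul, Matrix.mul_one]

/-- in nonzero pure weight, a nonzero Hodge tensor has as many upper as lower indices -/
theorem balanced {h : HodgeStr ι} {w : ℤ} (hw : w ≠ 0) (hpure : ∀ p q, h.V (p, q) ≠ ⊥ → p + q = w)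
    {a b : ℕ} {x : Tens ι a b ℚ} (hx : IsHodge h x) (hab : a ≠ b) : x = 0 := by
  obtain ⟨F, hF, hFv⟩ := exists_gen h 1 1
  have hF1 : F = (w : ℂ) • (1 : Matrix ι ι ℂ) := by
    apply mulVec_ext (h := h)
    intro p q v hv
    rw [hFv p q v hv, Matrix.smul_mulVec, Matrix.one_mulVec]
    by_cases hv0 : v = 0
    · rw [hv0, smul_zero, smul_zero]
    · have hne : h.V (p, q) ≠ ⊥ := by
        intro hbot
        rw [hbot] at hv
        exact hv0 ((Submodule.mem_bot ℂ).1 hv)
      have := hpure p q hne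
      rw [one_mul, one_mul, this]
  have h1 := hF a b x hx
  rw [hF1, dact_smul, dact_one, smul_smul] at h1
  have hne : ((w : ℂ) * ((a : ℂ) - b)) ≠ 0 := by
    apply mul_ne_zero
    · exact_mod_cast hw
    · rw [sub_ne_zero]
      exact_mod_cast hab
  have h2 := (smul_eq_zero.1 h1).resolve_left hne
  exact ratT_injective (R := ℂ) (by rw [h2, ratT_zero])

theorem exact_scalar {k : Type} [Field k] [IsAlgClosed k] (X : RealSys k ι) (σ : k →+* ℂ)
    (S : Matrix ι ι ℚ) (hS : Polarizes (X.hodge σ) S) {π : Tens ι 2 2 ℚ}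
    (hπ : IsLieProj (X.hodge σ) π) {w : ℤ} (hw : w ≠ 0)
    (hpure : ∀ p q, (X.hodge σ).V (p, q) ≠ ⊥ → p + q = w)
    (hZ : ∀ Z : Matrix ι ι ℚ, IsCentral (X.hodge σ) Z → ∃ c : ℚ, Z = c • (1 : Matrix ι ι ℚ)) :
    (∀ (a b : ℕ) (x : Tens ι a b ℚ), IsHodge (X.hodge σ) x → ∃ s : AHTensor X a b, s.betti σ = x) ↔
    (∃ s : AHTensor X 2 2, s.betti σ = π) ∧
      ∀ f : ℕ, f = 1 ∨ 2 * f ≤ Fintype.card ι → ∀ x : Tens ι f f ℚ, IsHodge (X.hodge σ) x → Alt2 x →
        ∃ s : AHTensor X f f, s.betti σ = x := by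
  have hmain := exact X σ S hS hπ (I := Empty) (m := fun i => i.elim) (n := fun i => i.elim)
    (fun i => i.elim) (fun i => i.elim)
  constructor
  · intro hall
    exact ⟨hall 2 2 π (hπ.isHodge hS), fun f _ x hx _ => hall f f x hx⟩
  · rintro ⟨h1, h2⟩ a b x hx
    refine hmain.2 ⟨h1, ?_, ?_, fun i => i.elim⟩ a b x hx ?_
    · intro A hA
      refine h2 1 (Or.inl rfl) (matT A) hA ⟨?_, ?_⟩
      · intro p e e'
        rw [Subsingleton.elim p 1]
        simp
      · intro p e e'
        rw [Subsingleton.elim p 1]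
        simp
    · intro f _ hf y hy hy2 _
      exact h2 f (Or.inr hf) y hy hy2
    · intro c hc _
      by_cases hab : a = b
      · subst hab
        have hsc : ∃ γ : ℂ, (c : Matrix ι ι ℂ) = γ • (1 : Matrix ι ι ℂ) := by
          unfold IsCentralC at hc
          generalize (c : Matrix ι ι ℂ) = C at hc
          induction hc using Submodule.span_induction with
          | mem y hy =>
            obtain ⟨Z, hZ1, rfl⟩ := hy
            obtain ⟨r, rfl⟩ := hZ Z hZ1
            refine ⟨(r : ℂ), ?_⟩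
            ext i j
            simp [cx, Matrix.one_apply]
            split_ifs <;> simp
          | zero => exact ⟨0, by rw [zero_smul]⟩
          | add y z _ _ hy hz =>
            obtain ⟨α, rfl⟩ := hy
            obtain ⟨β, rfl⟩ := hz
            exact ⟨α + β, by rw [add_smul]⟩
          | smul r y _ hy =>
            obtain ⟨α, rfl⟩ := hy
            exact ⟨r * α, by rw [mul_smul]⟩
        obtain ⟨γ, hγ⟩ := hsc
        exact act_scalar c γ hγ _
      · rw [balanced hw hpure hx hab]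
        rw [ratT_zero, act_eq, Matrix.mulVec_zero]

end Pool.Agent.Work.MP_0da4e0_ag.Ex
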