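import Pool.Agent.Work.MP_0da4e0_ag.Ex.Defs

/-! MP_0da4e0_ag, exact criterion, module KMax: a maximum on the compact group of unitary elements of Gp m.

PROOF. Let K be the set of matrices A with Aᴴ A = 1, A Aᴴ = 1 and, for all a, b, all t : Tens ι a b ℂ
with Killed m t and all e,
∑ f, ((∏ j, A (e.1 j) (f.1 j)) * (∏ j, Aᴴ (f.2 j) (e.2 j))) * t f = t e.
K is an intersection of closed sets (polynomial conditions in the entries and their conjugates are
continuous), hence closed, and bounded (each entry of a unitary matrix has norm at most 1: the diagonal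
entries of Aᴴ A are ∑ |A i j|^2 = 1). The space of matrices is finite dimensional (use the local
instances of normed groups for matrices, or the product topology: Matrix ι ι ℂ is ι → ι → ℂ;
isCompact_univ_pi / closed subset of the compact product of closed balls), so K is compact; 1 is in K. The
function A ↦ Re tr (A Y Aᴴ X) is continuous, so it has a maximum at some A0 in K
(IsCompact.exists_isMaxOn). A0 is the matrix of an element k of GL (with inverse A0ᴴ), and the conditions
say k in Gp m (unfold act). A k' in Gp m with k'ᴴ k' = 1 has k'⁻¹ = k'ᴴ as matrices, so its matrix is in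
K. -/

open Matrix

namespace Pool.Agent.Work.MP_0da4e0_ag.Ex

variable {ι : Type} [Fintype ι] [DecidableEq ι]

/-- the compact set of the unitary matrices fixing the tensors killed by `m` -/
private def KS (m : Submodule ℂ (Matrix ι ι ℂ)) : Set (Matrix ι ι ℂ) :=
  {A | (Aᴴ * A = 1 ∧ A * Aᴴ = 1) ∧ ∀ (a b : ℕ) (t : Tens ι a b ℂ), Killed m t → ∀ e,
    ∑ f, ((∏ j, A (e.1 j) (f.1 j)) * (∏ j, Aᴴ (f.2 j) (e.2 j))) * t f = t e}

private theorem KS_closed (m : Submodule ℂ (Matrix ι ι ℂ)) : IsClosed (KS m) := by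
  have h1 : IsClosed {A : Matrix ι ι ℂ | Aᴴ * A = 1 ∧ A * Aᴴ = 1} := by
    have h2 : Continuous (fun A : Matrix ι ι ℂ => Aᴴ * A) := by fun_prop
    have h3 : Continuous (fun A : Matrix ι ι ℂ => A * Aᴴ) := by fun_prop
    exact (isClosed_eq h2 continuous_const).inter (isClosed_eq h3 continuous_const)
  have h4 : IsClosed {A : Matrix ι ι ℂ | ∀ (a b : ℕ) (t : Tens ι a b ℂ), Killed m t → ∀ e,
      ∑ f, ((∏ j, A (e.1 j) (f.1 j)) * (∏ j, Aᴴ (f.2 j) (e.2 j))) * t f = t e} := by
    simp only [Set.ofPred_forall]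
    refine isClosed_iInter fun a => isClosed_iInter fun b => isClosed_iInter fun t =>
      isClosed_iInter fun ht => isClosed_iInter fun e => ?_
    refine isClosed_eq ?_ continuous_const
    have he : ∀ i j : ι, Continuous (fun A : Matrix ι ι ℂ => A i j) := fun i j =>
      (continuous_apply j).comp (continuous_apply i)
    have he' : ∀ i j : ι, Continuous (fun A : Matrix ι ι ℂ => Aᴴ i j) := fun i j => by
      simp only [Matrix.conjTranspose_apply]
      exact (he j i).star
    refine continuous_finsetSum _ fun f _ => Continuous.mul (Continuous.mul ?_ ?_) continuous_const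
    · exact continuous_finsetProd _ fun j _ => he _ _
    · exact continuous_finsetProd _ fun j _ => he' _ _
  exact h1.inter h4

private theorem KS_compact (m : Submodule ℂ (Matrix ι ι ℂ)) : IsCompact (KS m) := by
  have h1 : IsCompact (Set.univ.pi fun _ : ι => Set.univ.pi fun _ : ι =>
      Metric.closedBall (0 : ℂ) 1) :=
    isCompact_univ_pi fun _ => isCompact_univ_pi fun _ => isCompact_closedBall _ _
  refine IsCompact.of_isClosed_subset (s := (Set.univ.pi fun _ : ι => Set.univ.pi fun _ : ι =>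
      Metric.closedBall (0 : ℂ) 1 : Set (Matrix ι ι ℂ))) h1 (KS_closed m) ?_
  intro A hA i _ j _
  rw [mem_closedBall_zero_iff]
  exact entry_norm_bound_of_unitary (Matrix.mem_unitaryGroup_iff'.2 hA.1.1) i j

theorem exists_kmax (m : Submodule ℂ (Matrix ι ι ℂ)) (X Y : Matrix ι ι ℂ) :
    ∃ k ∈ Gp m, ((k : Matrix ι ι ℂ))ᴴ * (k : Matrix ι ι ℂ) = 1 ∧
      ∀ k' ∈ Gp m, ((k' : Matrix ι ι ℂ))ᴴ * (k' : Matrix ι ι ℂ) = 1 →
        (Matrix.trace ((k' : Matrix ι ι ℂ) * Y * ((k'⁻¹ : GL ι ℂ) : Matrix ι ι ℂ) * X)).re ≤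
          (Matrix.trace ((k : Matrix ι ι ℂ) * Y * ((k⁻¹ : GL ι ℂ) : Matrix ι ι ℂ) * X)).re := by
  have key : ∀ k' ∈ Gp m, ((k' : Matrix ι ι ℂ))ᴴ * (k' : Matrix ι ι ℂ) = 1 →
      (k' : Matrix ι ι ℂ) ∈ KS m ∧
        ((k'⁻¹ : GL ι ℂ) : Matrix ι ι ℂ) = ((k' : Matrix ι ι ℂ))ᴴ := by
    intro k' hk' hu
    have hinv : ((k'⁻¹ : GL ι ℂ) : Matrix ι ι ℂ) = ((k' : Matrix ι ι ℂ))ᴴ := by
      calc ((k'⁻¹ : GL ι ℂ) : Matrix ι ι ℂ) =
          (((k' : Matrix ι ι ℂ))ᴴ * (k' : Matrix ι ι ℂ)) * ((k'⁻¹ : GL ι ℂ) : Matrix ι ι ℂ) := by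
            rw [hu, Matrix.one_mul]
        _ = ((k' : Matrix ι ι ℂ))ᴴ := by
            rw [Matrix.mul_assoc, ← Units.val_mul, mul_inv_cancel, Units.val_one, Matrix.mul_one]
    refine ⟨⟨⟨hu, ?_⟩, ?_⟩, hinv⟩
    · rw [← hinv, ← Units.val_mul, mul_inv_cancel, Units.val_one]
    · intro a b t ht e
      have h1 := congrFun (hk' a b t ht) e
      rw [act, hinv] at h1
      exact h1
  have h1 : (1 : Matrix ι ι ℂ) ∈ KS m := by
    have := (key 1 (Gp m).one_mem (by simp)).1
    simpa using this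
  have hcont : Continuous (fun A : Matrix ι ι ℂ => (Matrix.trace (A * Y * Aᴴ * X)).re) := by
    have : Continuous (fun A : Matrix ι ι ℂ => Matrix.trace (A * Y * Aᴴ * X)) :=
      (((continuous_id.matrix_mul continuous_const).matrix_mul
        continuous_id.matrix_conjTranspose).matrix_mul continuous_const).matrix_trace
    exact Complex.continuous_re.comp this
  obtain ⟨A0, hA0, hmax⟩ := (KS_compact m).exists_isMaxOn ⟨1, h1⟩ hcont.continuousOn
  let k : GL ι ℂ := ⟨A0, A0ᴴ, hA0.1.2, hA0.1.1⟩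
  have hkinv : ((k⁻¹ : GL ι ℂ) : Matrix ι ι ℂ) = A0ᴴ := rfl
  refine ⟨k, ?_, hA0.1.1, ?_⟩
  · intro a b t ht
    funext e
    rw [act, hkinv]
    exact hA0.2 a b t ht e
  · intro k' hk' hu
    obtain ⟨h2, h3⟩ := key k' hk' hu
    rw [h3, hkinv]
    exact hmax h2

end Pool.Agent.Work.MP_0da4e0_ag.Ex
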