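import Pool.Agent.Work.MP_0da4e0_ag.Ex.Fc

/-! MP_0da4e0_ag, exact criterion, module LogP: the logarithm of a positive definite matrix which
normalizes m.

PROOF. Spectral theorem: P = U D U*, U unitary, D = diagonal d with real d i > 0 (hP.isHermitian:
Matrix.IsHermitian.spectral_theorem, eigenvalues positive by Matrix.PosDef.eigenvalues_pos). Put
L = U (diagonal (log d i)) U*. Then L is Hermitian and expGL L 1 = P: conjugation by a unit commutes with
the exponential (expGL_conj in LieAct) and the exponential of a diagonal matrix is diagonal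
(Matrix.exp_diagonal), exp (log d i) = d i.
[L, m] in m: let m' = cj U m (U as an element of GL), the set of X' with U X' U⁻¹ in m. For X' in m' the
matrix D X' D⁻¹ is in m' (by hPm), its entries are (d i / d j) * X' i j. By Fc.fc with
t i j = d i / d j, s i j = log (d i) - log (d j) (if d i / d j = d k / d l then the s agree, by
Real.log_div) the matrix ((log d i - log d j) X' i j) = L' X' - X' L', L' = diagonal (log d), is in m';
conjugate back.
Commutation: P C = C P means d i * C' i j = C' i j * d j for C' = U* C U; so C' i j = 0 or d i = d j,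
hence log (d i) C' i j = C' i j log (d j), and L C = C L. -/

open Matrix
open scoped ComplexOrder

namespace Pool.Agent.Work.MP_0da4e0_ag.Ex

variable {ι : Type} [Fintype ι] [DecidableEq ι]

private theorem exp_dg (v : ι → ℝ) :
    (NormedSpace.exp (Matrix.diagonal fun i => (v i : ℂ)) : Matrix ι ι ℂ) =
      Matrix.diagonal fun i => ((Real.exp (v i) : ℝ) : ℂ) := by
  rw [Matrix.exp_diagonal]
  congr 1
  funext i
  rw [Pi.coe_exp, ← Complex.exp_eq_exp_ℂ, Complex.ofReal_exp]

theorem exists_log (m : Submodule ℂ (Matrix ι ι ℂ)) (P : GL ι ℂ) (hP : (P : Matrix ι ι ℂ).PosDef)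
    (hPm : ∀ X ∈ m, (P : Matrix ι ι ℂ) * X * ((P⁻¹ : GL ι ℂ) : Matrix ι ι ℂ) ∈ m) :
    ∃ L : Matrix ι ι ℂ, Lᴴ = L ∧ expGL L 1 = P ∧ (∀ X ∈ m, L * X - X * L ∈ m) ∧
      ∀ C : Matrix ι ι ℂ, (P : Matrix ι ι ℂ) * C = C * (P : Matrix ι ι ℂ) → L * C = C * L := by
  obtain ⟨U, d, hd, hUs, hsp⟩ : ∃ (U : GL ι ℂ) (d : ι → ℝ), (∀ i, 0 < d i) ∧
      ((U⁻¹ : GL ι ℂ) : Matrix ι ι ℂ) = (U : Matrix ι ι ℂ)ᴴ ∧ (P : Matrix ι ι ℂ) =
      (U : Matrix ι ι ℂ) * Matrix.diagonal (fun i => (d i : ℂ)) * ((U⁻¹ : GL ι ℂ) : Matrix ι ι ℂ) := by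
    have hH := hP.isHermitian
    refine ⟨⟨(hH.eigenvectorUnitary : Matrix ι ι ℂ), star (hH.eigenvectorUnitary : Matrix ι ι ℂ),
      Unitary.coe_mul_star_self _, Unitary.coe_star_mul_self _⟩, hH.eigenvalues,
      fun i => hP.eigenvalues_pos i, rfl, ?_⟩
    have h := hH.spectral_theorem
    rw [Unitary.conjStarAlgAut_apply] at h
    exact h
  have hd0 : ∀ i, (d i : ℂ) ≠ 0 := fun i => Complex.ofReal_ne_zero.2 (hd i).ne'
  obtain ⟨V, hV⟩ : ∃ V : Matrix ι ι ℂ, V = (U : Matrix ι ι ℂ) := ⟨_, rfl⟩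
  obtain ⟨W, hW⟩ : ∃ W : Matrix ι ι ℂ, W = ((U⁻¹ : GL ι ℂ) : Matrix ι ι ℂ) := ⟨_, rfl⟩
  have hVW : V * W = 1 := by
    rw [hV, hW, ← Units.val_mul, mul_inv_cancel, Units.val_one]
  have hWV : W * V = 1 := by
    rw [hV, hW, ← Units.val_mul, inv_mul_cancel, Units.val_one]
  obtain ⟨D, hD⟩ : ∃ D : Matrix ι ι ℂ, D = Matrix.diagonal (fun i => (d i : ℂ)) := ⟨_, rfl⟩
  obtain ⟨D', hD'⟩ : ∃ D' : Matrix ι ι ℂ, D' = Matrix.diagonal (fun i => (d i : ℂ)⁻¹) := ⟨_, rfl⟩
  obtain ⟨Λ, hΛ⟩ : ∃ Λ : Matrix ι ι ℂ, Λ = Matrix.diagonal (fun i => ((Real.log (d i) : ℝ) : ℂ)) :=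
    ⟨_, rfl⟩
  have hDD : D * D' = 1 := by
    rw [hD, hD', Matrix.diagonal_mul_diagonal, ← Matrix.diagonal_one]
    congr 1
    funext i
    exact mul_inv_cancel₀ (hd0 i)
  rw [← hV, ← hW, ← hD] at hsp
  have hPi : ((P⁻¹ : GL ι ℂ) : Matrix ι ι ℂ) = V * D' * W := by
    have h1 : (P : Matrix ι ι ℂ) * (V * D' * W) = 1 := by
      rw [hsp]
      calc V * D * W * (V * D' * W) = V * (D * ((W * V) * D')) * W := by noncomm_ring
        _ = 1 := by rw [hWV, Matrix.one_mul, hDD, Matrix.mul_one, hVW]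
    calc ((P⁻¹ : GL ι ℂ) : Matrix ι ι ℂ) = ((P⁻¹ : GL ι ℂ) : Matrix ι ι ℂ) *
          ((P : Matrix ι ι ℂ) * (V * D' * W)) := by rw [h1, Matrix.mul_one]
      _ = V * D' * W := by
        rw [← Matrix.mul_assoc, ← Units.val_mul, inv_mul_cancel, Units.val_one, Matrix.one_mul]
  refine ⟨V * Λ * W, ?_, ?_, ?_, ?_⟩
  · have h1 : W = Vᴴ := by rw [hV, hW, hUs]
    rw [h1, Matrix.conjTranspose_mul, Matrix.conjTranspose_mul, Matrix.conjTranspose_conjTranspose,
      Matrix.mul_assoc]
    congr 2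
    rw [hΛ, Matrix.diagonal_conjTranspose]
    congr 1
    funext i
    simp
  · rw [hV, hW, expGL_conj]
    apply Units.ext
    rw [Units.val_mul, Units.val_mul, hsp, ← hV, ← hW]
    congr 2
    show NormedSpace.exp ((1 : ℂ) • Λ) = D
    rw [one_smul, hΛ, exp_dg, hD]
    congr 1
    funext i
    rw [Real.exp_log (hd i)]
  · have key := fc (cj U m) (fun i j => (d i : ℂ) / (d j : ℂ))
      (fun i j => ((Real.log (d i) : ℝ) : ℂ) - ((Real.log (d j) : ℝ) : ℂ)) (fun X hX => ?_)
      (fun i j k l h => ?_)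
    · intro X hX
      have h1 : W * X * V ∈ cj U m := by
        show (U : Matrix ι ι ℂ) * (W * X * V) * ((U⁻¹ : GL ι ℂ) : Matrix ι ι ℂ) ∈ m
        rw [← hV, ← hW]
        have h2 : V * (W * X * V) * W = (V * W) * X * (V * W) := by noncomm_ring
        rw [h2, hVW, Matrix.one_mul, Matrix.mul_one]
        exact hX
      have h2 : (Matrix.of fun i j => (((Real.log (d i) : ℝ) : ℂ) - ((Real.log (d j) : ℝ) : ℂ)) *
          (W * X * V) i j) = Λ * (W * X * V) - (W * X * V) * Λ := by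
        ext i j
        rw [Matrix.of_apply, Matrix.sub_apply, hΛ, Matrix.diagonal_mul, Matrix.mul_diagonal]
        ring
      have h3 := key _ h1
      rw [h2] at h3
      have h4 : (U : Matrix ι ι ℂ) * (Λ * (W * X * V) - (W * X * V) * Λ) *
        ((U⁻¹ : GL ι ℂ) : Matrix ι ι ℂ) ∈ m := h3
      rw [← hV, ← hW] at h4
      have h5 : V * (Λ * (W * X * V) - (W * X * V) * Λ) * W =
          V * Λ * W * X * (V * W) - (V * W) * X * (V * Λ * W) := by noncomm_ring
      rw [h5, hVW, Matrix.mul_one, Matrix.one_mul] at h4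
      exact h4
    · have hX' : (U : Matrix ι ι ℂ) * X * ((U⁻¹ : GL ι ℂ) : Matrix ι ι ℂ) ∈ m := hX
      rw [← hV, ← hW] at hX'
      show (U : Matrix ι ι ℂ) * _ * ((U⁻¹ : GL ι ℂ) : Matrix ι ι ℂ) ∈ m
      have h1 := hPm _ hX'
      rw [hsp, hPi] at h1
      have h2 : V * D * W * (V * X * W) * (V * D' * W) =
          V * (D * ((W * V) * X * (W * V)) * D') * W := by noncomm_ring
      rw [h2, hWV, Matrix.one_mul, Matrix.mul_one] at h1
      have h3 : D * X * D' = Matrix.of fun i j => (d i : ℂ) / (d j : ℂ) * X i j := by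
        ext i j
        rw [hD, hD', Matrix.mul_diagonal, Matrix.diagonal_mul, Matrix.of_apply]
        ring
      rw [h3] at h1
      rw [← hV, ← hW]
      exact h1
    · have h1 : d i / d j = d k / d l := by
        apply Complex.ofReal_injective
        push_cast
        exact h
      have h2 := congrArg Real.log h1
      rw [Real.log_div (hd i).ne' (hd j).ne', Real.log_div (hd k).ne' (hd l).ne'] at h2
      rw [← Complex.ofReal_sub, ← Complex.ofReal_sub, h2]
  · intro C hC
    rw [hsp] at hC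
    have h1 : D * (W * C * V) = (W * C * V) * D := by
      have h2 := congrArg (fun M => W * M * V) hC
      have h3 : W * (V * D * W * C) * V = (W * V) * (D * (W * C * V)) := by noncomm_ring
      have h4 : W * (C * (V * D * W)) * V = (W * C * V) * D * (W * V) := by noncomm_ring
      beta_reduce at h2
      rw [h3, h4, hWV, Matrix.one_mul, Matrix.mul_one] at h2
      exact h2
    have h2 : Λ * (W * C * V) = (W * C * V) * Λ := by
      ext i j
      have h3 := congrFun (congrFun h1 i) j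
      rw [hD, Matrix.diagonal_mul, Matrix.mul_diagonal] at h3
      rw [hΛ, Matrix.diagonal_mul, Matrix.mul_diagonal]
      by_cases h4 : (W * C * V) i j = 0
      · rw [h4, mul_zero, zero_mul]
      · have h5 : (d i : ℂ) = d j := by
          rw [mul_comm] at h3
          exact mul_left_cancel₀ h4 h3
        have h6 : d i = d j := Complex.ofReal_injective h5
        rw [h6, mul_comm]
    calc V * Λ * W * C = V * Λ * W * C * (V * W) := by rw [hVW, Matrix.mul_one]
      _ = V * (Λ * (W * C * V)) * W := by noncomm_ring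
      _ = V * ((W * C * V) * Λ) * W := by rw [h2]
      _ = (V * W) * C * (V * Λ * W) := by noncomm_ring
      _ = C * (V * Λ * W) := by rw [hVW, Matrix.one_mul]

end Pool.Agent.Work.MP_0da4e0_ag.Ex
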