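import Pool.Agent.Work.MP_0da4e0_ag.Ex.Defs

/-! MP_0da4e0_ag, exact criterion, module SplitL: a matrix L with [L, m] in m which commutes with the
commutant of m is the sum of an element of m and an element of cen m.

PROOF. The bilinear form tr(A B) is nondegenerate on m: if A in m and tr(A X) = 0 for all X in m then
tr(Aᴴ A) = 0 (hm.st), so A = 0 (trace_star_eq_zero). So m is complementary to its orthogonal
(LinearMap.BilinForm.isCompl_orthogonal_iff_disjoint, exactly as in exists_projC of the file
Work/MP_0da4e0_ag/WeilCen.lean, which may be copied): there is Y in m with tr(X (L - Y)) = 0 for all X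
in m. Put Z = L - Y. For X in m: Q = Z X - X Z is in m (hL and hm.br), and for W in m
tr(W (Z X - X Z)) = tr((X W - W X) Z) = 0 as X W - W X is in m. Take W = Qᴴ in m: tr(Qᴴ Q) = 0, so Q = 0.
Hence Z commutes with m: Com m Z. If Com m C then L C = C L (hC) and Y C = C Y (Y in m), so Z C = C Z.
So Z is in cen m. -/

open Matrix

namespace Pool.Agent.Work.MP_0da4e0_ag.Ex

variable {ι : Type} [Fintype ι] [DecidableEq ι]

/-- the trace form -/
private noncomputable def trF (ι : Type) [Fintype ι] [DecidableEq ι] :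
    LinearMap.BilinForm ℂ (Matrix ι ι ℂ) :=
  LinearMap.mk₂ ℂ (fun A B => Matrix.trace (A * B))
    (fun A B C => by rw [Matrix.add_mul, Matrix.trace_add])
    (fun c A B => by rw [Matrix.smul_mul, Matrix.trace_smul])
    (fun A B C => by rw [Matrix.mul_add, Matrix.trace_add])
    (fun c A B => by rw [Matrix.mul_smul, Matrix.trace_smul])

private theorem trF_apply (A B : Matrix ι ι ℂ) : trF ι A B = Matrix.trace (A * B) := rfl

private theorem trF_symm : (trF ι).IsSymm := ⟨fun A B => by
  simp only [trF_apply]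
  exact Matrix.trace_mul_comm A B⟩

private theorem star_zero {A : Matrix ι ι ℂ} (h : Matrix.trace (Aᴴ * A) = 0) : A = 0 :=
  trace_star_eq_zero (by rw [h, Complex.zero_re])

theorem exists_split {m : Submodule ℂ (Matrix ι ι ℂ)} (hm : StarLie m) (L : Matrix ι ι ℂ)
    (hL : ∀ X ∈ m, L * X - X * L ∈ m) (hC : ∀ C, Com m C → L * C = C * L) :
    ∃ Y ∈ m, L - Y ∈ cen m := by
  have hdisj : Disjoint m ((trF ι).orthogonal m) := by
    rw [Submodule.disjoint_def]
    intro X hX hX'
    exact star_zero (hX' _ (hm.st X hX))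
  have hcompl := (LinearMap.BilinForm.isCompl_orthogonal_iff_disjoint trF_symm.isRefl).2 hdisj
  obtain ⟨Y, hY, Z, hZ, hYZ⟩ : ∃ Y ∈ m, ∃ Z ∈ (trF ι).orthogonal m, Y + Z = L := by
    have h1 : L ∈ m ⊔ (trF ι).orthogonal m := by
      rw [hcompl.sup_eq_top]
      exact Submodule.mem_top
    exact Submodule.mem_sup.1 h1
  have hZ' : ∀ X ∈ m, Matrix.trace (X * Z) = 0 := fun X hX => hZ X hX
  refine ⟨Y, hY, ?_⟩
  have e : L - Y = Z := by rw [← hYZ, add_sub_cancel_left]
  rw [e]
  have hcom : Com m Z := by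
    intro X hX
    have hQ : Z * X - X * Z ∈ m := by
      have h1 := m.sub_mem (hL X hX) (hm.br Y hY X hX)
      have e1 : L * X - X * L - (Y * X - X * Y) = Z * X - X * Z := by
        rw [← hYZ]
        noncomm_ring
      rwa [e1] at h1
    have hW : ∀ W ∈ m, Matrix.trace (W * (Z * X - X * Z)) = 0 := by
      intro W hW
      have h1 := hZ' _ (hm.br X hX W hW)
      have e1 : Matrix.trace (W * (Z * X - X * Z)) = Matrix.trace ((X * W - W * X) * Z) := by
        rw [Matrix.mul_sub, Matrix.sub_mul, Matrix.trace_sub, Matrix.trace_sub]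
        congr 1
        · rw [← Matrix.mul_assoc, Matrix.trace_mul_comm, Matrix.mul_assoc]
        · rw [Matrix.mul_assoc]
      rw [e1, h1]
    have h2 := star_zero (hW _ (hm.st _ hQ))
    exact (sub_eq_zero.1 h2).symm
  refine ⟨hcom, fun C hCm => ?_⟩
  have h1 := hC C hCm
  have h2 := hCm Y hY
  have e2 : Z = L - Y := e.symm
  rw [e2, Matrix.mul_sub, Matrix.sub_mul, h1, h2]

end Pool.Agent.Work.MP_0da4e0_ag.Ex
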