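import Pool.Agent.Work.MP_0da4e0_ag.Ex.LogP
import Pool.Agent.Work.MP_0da4e0_ag.Ex.SplitL
import Pool.Agent.Work.MP_0da4e0_ag.Ex.AdmMul

/-! MP_0da4e0_ag, exact criterion, module Polar: polar decomposition of an admissible matrix.

PROOF. Let P = gᴴ g, an element of GL (its inverse is g⁻¹ (g⁻¹)ᴴ), positive definite
(Matrix.PosDef of conjTranspose_mul_self for an invertible matrix).
(a) P normalizes m: for X in m, X1 = g X g⁻¹ is in m (hg.norm); gᴴ X1 (gᴴ)⁻¹ = (g⁻¹ X1ᴴ g)ᴴ is in m by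
hm.st and Adm.norm_inv.
(b) P commutes with all C with Com m C: g C = C g (hg.com), and gᴴ C = (Cᴴ g)ᴴ = (g Cᴴ)ᴴ = C gᴴ by
hg.com applied to Cᴴ (Com.star hm).
exists_log gives L Hermitian with expGL L 1 = P, [L, m] in m, and L C = C L if Com m C (by (b)).
exists_split gives Y' in m with Z' = L - Y' in cen m. Y' Z' = Z' Y'. So
expGL L (1/2) = expGL Y' (1/2) * expGL Z' (1/2) (expGL_add_of_commute); and
expGL Y' (1/2) = expGL ((1/2) • Y') 1 (unfold expGL; 1 • ((1/2) • Y') = (1/2) • Y'). Put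
Y = (1/2) • Y', Z = (1/2) • Z', q = expGL Y 1 * expGL Z 1 = expGL L (1/2), u = g * q⁻¹. Then g = u * q.
Adm m u: q⁻¹ = expGL L (-1/2) (expGL_neg_inv), L = Y' + Z' in m ⊔ cen m: Adm.exp and Adm.mul.
Unitary: (q⁻¹)ᴴ = q⁻¹ as matrices by expGL_star (L Hermitian, -1/2 real), so
uᴴ u = q⁻¹ gᴴ g q⁻¹ = q⁻¹ P q⁻¹ = expGL L (-1/2) expGL L 1 expGL L (-1/2) = 1 by expGL_add,
expGL_zero. -/

open Matrix
open scoped ComplexOrder

namespace Pool.Agent.Work.MP_0da4e0_ag.Ex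

variable {ι : Type} [Fintype ι] [DecidableEq ι]

section exp
open NormedSpace
attribute [local instance] Matrix.linftyOpNormedRing Matrix.linftyOpNormedAlgebra

private theorem expGL_smul (X : Matrix ι ι ℂ) (s : ℂ) : expGL X s = expGL (s • X) 1 := by
  apply Units.ext
  change exp (s • X) = exp ((1 : ℂ) • (s • X))
  rw [one_smul]

end exp

theorem exists_polar {m : Submodule ℂ (Matrix ι ι ℂ)} (hm : StarLie m) (ha : Algebraic m) (g : GL ι ℂ)
    (hg : Adm m g) : ∃ u : GL ι ℂ, Adm m u ∧ ((u : Matrix ι ι ℂ))ᴴ * (u : Matrix ι ι ℂ) = 1 ∧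
      ∃ Y ∈ m, ∃ Z ∈ cen m, g = u * (expGL Y 1 * expGL Z 1) := by
  have hstar : ∀ C : Matrix ι ι ℂ, Com m C →
      ((g : Matrix ι ι ℂ))ᴴ * C = C * ((g : Matrix ι ι ℂ))ᴴ := by
    intro C hC
    have h1 := congrArg Matrix.conjTranspose (hg.com _ (hC.star hm))
    rw [Matrix.conjTranspose_mul, Matrix.conjTranspose_mul, Matrix.conjTranspose_conjTranspose] at h1
    exact h1.symm
  let P : GL ι ℂ := star g * g
  have hPv : (P : Matrix ι ι ℂ) = ((g : Matrix ι ι ℂ))ᴴ * (g : Matrix ι ι ℂ) := by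
    change ((star g * g : GL ι ℂ) : Matrix ι ι ℂ) = _
    rw [Units.val_mul, Units.coe_star, Matrix.star_eq_conjTranspose]
  have hPi : ((P⁻¹ : GL ι ℂ) : Matrix ι ι ℂ) =
      ((g⁻¹ : GL ι ℂ) : Matrix ι ι ℂ) * (((g⁻¹ : GL ι ℂ) : Matrix ι ι ℂ))ᴴ := by
    change (((star g * g)⁻¹ : GL ι ℂ) : Matrix ι ι ℂ) = _
    rw [_root_.mul_inv_rev, Units.val_mul, Units.coe_star_inv, Matrix.star_eq_conjTranspose]
  have hP : (P : Matrix ι ι ℂ).PosDef := by
    rw [hPv]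
    refine Matrix.PosDef.conjTranspose_mul_self _ ?_
    intro v w hvw
    have h1 : ((g⁻¹ : GL ι ℂ) : Matrix ι ι ℂ) * (g : Matrix ι ι ℂ) = 1 := by
      rw [← Units.val_mul, inv_mul_cancel, Units.val_one]
    have h2 := congrArg (Matrix.mulVec ((g⁻¹ : GL ι ℂ) : Matrix ι ι ℂ)) hvw
    simp only [Matrix.mulVec_mulVec] at h2
    rw [h1, Matrix.one_mulVec, Matrix.one_mulVec] at h2
    exact h2
  have hPm : ∀ X ∈ m, (P : Matrix ι ι ℂ) * X * ((P⁻¹ : GL ι ℂ) : Matrix ι ι ℂ) ∈ m := by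
    intro X hX
    have h1 := hm.st _ (hg.norm_inv (hm.st _ (hg.norm X hX)))
    have h2 : (P : Matrix ι ι ℂ) * X * ((P⁻¹ : GL ι ℂ) : Matrix ι ι ℂ) =
        (((g⁻¹ : GL ι ℂ) : Matrix ι ι ℂ) *
          ((g : Matrix ι ι ℂ) * X * ((g⁻¹ : GL ι ℂ) : Matrix ι ι ℂ))ᴴ * (g : Matrix ι ι ℂ))ᴴ := by
      rw [Matrix.conjTranspose_mul, Matrix.conjTranspose_mul, Matrix.conjTranspose_conjTranspose,
        hPv, hPi]
      simp only [Matrix.mul_assoc]
    rw [h2]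
    exact h1
  have hPC : ∀ C, Com m C → (P : Matrix ι ι ℂ) * C = C * (P : Matrix ι ι ℂ) := by
    intro C hC
    rw [hPv, Matrix.mul_assoc, hg.com C hC, ← Matrix.mul_assoc, hstar C hC, Matrix.mul_assoc]
  obtain ⟨L, hLH, hL1, hLm, hLC⟩ := exists_log m P hP hPm
  obtain ⟨Y, hY, hZ⟩ := exists_split hm L hLm (fun C hC => hLC C (hPC C hC))
  set Z := L - Y with hZdef
  have hYZ : Y * Z = Z * Y := hZ.1 Y hY
  have hL : L = Y + Z := by rw [hZdef]; abel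
  have hLmem : L ∈ m ⊔ cen m := by
    rw [hL]
    exact Submodule.add_mem _ (Submodule.mem_sup_left hY) (Submodule.mem_sup_right hZ)
  have hq : expGL L (1 / 2) = expGL ((1 / 2 : ℂ) • Y) 1 * expGL ((1 / 2 : ℂ) • Z) 1 := by
    rw [← expGL_smul, ← expGL_smul, ← expGL_add_of_commute hYZ, ← hL]
  have hhalf : (starRingEnd ℂ) (-(1 / 2) : ℂ) = -(1 / 2) := by
    rw [map_neg, map_div₀, map_one, map_ofNat]
  refine ⟨g * expGL L (-(1 / 2)), hg.mul (Adm.exp ha hLmem _), ?_, (1 / 2 : ℂ) • Y,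
    m.smul_mem _ hY, (1 / 2 : ℂ) • Z, (cen m).smul_mem _ hZ, ?_⟩
  · have h1 : expGL L (-(1 / 2)) * (P * expGL L (-(1 / 2))) = 1 := by
      rw [← hL1, ← expGL_add, ← expGL_add, ← expGL_zero L]
      congr 1
      norm_num
    have h2 := congrArg (fun x : GL ι ℂ => (x : Matrix ι ι ℂ)) h1
    simp only [Units.val_mul, Units.val_one, hPv] at h2
    rw [Units.val_mul, Matrix.conjTranspose_mul, expGL_star, hLH, hhalf, ← h2]
    simp only [Matrix.mul_assoc]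
  · rw [← hq, mul_assoc, ← expGL_add, neg_add_cancel, expGL_zero, mul_one]

end Pool.Agent.Work.MP_0da4e0_ag.Ex
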