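import Pool.Agent.Work.MP_0da4e0_ag.Ex.Defs

/-! MP_0da4e0_ag, exact criterion, module SecOrd: first and second order conditions at a maximum along a
one-parameter group.

PROOF. Let C(s) = expGL B s * Y * (expGL B s)⁻¹ for complex s. Its derivative is
expGL B s * [B, Y] * (expGL B s)⁻¹ (entrywise; hasDerivAt_conj in LieAct is the case s = 0; the general
case follows from expGL B (s + r) = expGL B s * expGL B r, or from hasDerivAt_exp_smul_const). So
φ(s) = Re tr (C(s) X), s real, has φ'(s) = Re tr (expGL B s [B, Y] (expGL B s)⁻¹ X) and, applying the same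
to [B, Y] instead of Y, φ''(s) = Re tr (expGL B s [B, [B, Y]] (expGL B s)⁻¹ X). φ has a global maximum at 0,
so φ'(0) = 0 (IsLocalMax.deriv_eq_zero). If φ''(0) > 0 then 0 is a local minimum
(isLocalMin_of_deriv_deriv_pos), and also a maximum, so φ is constant near 0 and φ''(0) = 0, a
contradiction. -/

open Matrix

namespace Pool.Agent.Work.MP_0da4e0_ag.Ex

variable {ι : Type} [Fintype ι] [DecidableEq ι]

/-- the function `Re tr (exp (s B) Y exp (- s B) X)` of a real variable -/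
private noncomputable def ph (B Y X : Matrix ι ι ℂ) (s : ℝ) : ℝ :=
  (Matrix.trace ((expGL B (s : ℂ) : Matrix ι ι ℂ) * Y *
      (((expGL B (s : ℂ))⁻¹ : GL ι ℂ) : Matrix ι ι ℂ) * X)).re

private theorem ph_deriv (B Y X : Matrix ι ι ℂ) (s : ℝ) :
    HasDerivAt (ph B Y X) (ph B (B * Y - Y * B) X s) s := by
  have h0 : ∀ (Z : Matrix ι ι ℂ) (i j : ι) (z : ℂ),
      ((expGL B z : Matrix ι ι ℂ) * Z * (((expGL B z)⁻¹ : GL ι ℂ) : Matrix ι ι ℂ)) i j =
      act (expGL B z) (mT Z) (fun _ => i, fun _ => j) := by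
    intro Z i j z
    rw [act_mT]
    rfl
  have h1 : ∀ i j, HasDerivAt (fun z : ℂ => ((expGL B z : Matrix ι ι ℂ) * Y *
      (((expGL B z)⁻¹ : GL ι ℂ) : Matrix ι ι ℂ)) i j)
      (((expGL B (s : ℂ) : Matrix ι ι ℂ) * (B * Y - Y * B) *
      (((expGL B (s : ℂ))⁻¹ : GL ι ℂ) : Matrix ι ι ℂ)) i j) (s : ℂ) := by
    intro i j
    simp only [h0]
    rw [← dact_mT]
    exact hasDerivAt_act_exp' B (mT Y) _ _
  have h2 : ∀ (M : Matrix ι ι ℂ), Matrix.trace (M * X) = ∑ i, ∑ j, M i j * X j i := by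
    intro M
    simp only [Matrix.trace, Matrix.diag_apply, Matrix.mul_apply]
  have h3 : HasDerivAt (fun z : ℂ => Matrix.trace ((expGL B z : Matrix ι ι ℂ) * Y *
      (((expGL B z)⁻¹ : GL ι ℂ) : Matrix ι ι ℂ) * X))
      (Matrix.trace ((expGL B (s : ℂ) : Matrix ι ι ℂ) * (B * Y - Y * B) *
      (((expGL B (s : ℂ))⁻¹ : GL ι ℂ) : Matrix ι ι ℂ) * X)) (s : ℂ) := by
    simp only [h2]
    exact HasDerivAt.fun_sum fun i _ => HasDerivAt.fun_sum fun j _ => (h1 i j).mul_const _
  exact h3.real_of_complex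

theorem second_order (B Y X : Matrix ι ι ℂ)
    (h : ∀ s : ℝ, (Matrix.trace ((expGL B (s : ℂ) : Matrix ι ι ℂ) * Y *
      (((expGL B (s : ℂ))⁻¹ : GL ι ℂ) : Matrix ι ι ℂ) * X)).re ≤ (Matrix.trace (Y * X)).re) :
    (Matrix.trace ((B * Y - Y * B) * X)).re = 0 ∧
      (Matrix.trace ((B * (B * Y - Y * B) - (B * Y - Y * B) * B) * X)).re ≤ 0 := by
  have hz : ∀ Z : Matrix ι ι ℂ, ph B Z X 0 = (Matrix.trace (Z * X)).re := by
    intro Z
    simp [ph, expGL_zero]
  have hmax : IsLocalMax (ph B Y X) 0 := by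
    refine Filter.Eventually.of_forall fun s => ?_
    rw [hz]
    exact h s
  have hd1 : deriv (ph B Y X) = ph B (B * Y - Y * B) X := by
    funext s; exact (ph_deriv B Y X s).deriv
  have hd2 : deriv (deriv (ph B Y X)) =
      ph B (B * (B * Y - Y * B) - (B * Y - Y * B) * B) X := by
    rw [hd1]
    funext s; exact (ph_deriv B _ X s).deriv
  have h1 : deriv (ph B Y X) 0 = 0 := hmax.deriv_eq_zero
  refine ⟨?_, ?_⟩
  · rw [← hz, ← hd1]; exact h1
  · rw [← hz, ← hd2]
    by_contra hcon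
    push Not at hcon
    have hmin : IsLocalMin (ph B Y X) 0 :=
      isLocalMin_of_deriv_deriv_pos hcon h1 (ph_deriv B Y X 0).continuousAt
    have hc : ph B Y X =ᶠ[nhds 0] fun _ => ph B Y X 0 := by
      filter_upwards [hmax, hmin] with s h2 h3
      exact le_antisymm h2 h3
    have h2 : deriv (ph B Y X) =ᶠ[nhds 0] deriv (fun _ : ℝ => ph B Y X 0) := hc.deriv
    have h3 := h2.deriv_eq
    have h4 : deriv (fun _ : ℝ => ph B Y X 0) = fun _ => 0 := by funext s; simp
    rw [h4] at h3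
    simp only [deriv_const] at h3
    linarith

end Pool.Agent.Work.MP_0da4e0_ag.Ex
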